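import Pool.Agent.H96.T4.Defs

/-!
# Dimension four (MP_c4753b_co): basic facts on the functionals
-/

set_option autoImplicit false

open MeasureTheory Filter Topology Set
open scoped ENNReal

namespace Pool.Agent.H96.T4

variable (v w : Fin 4 → ℝ)

theorem X0 : X 0 v = 4 * v 0 - v 1 - v 2 := by
  show 5 * v 0 - (v 0 + v 1 + v 2) = _
  ring
theorem X1 : X 1 v = 4 * v 1 - v 0 - v 2 := by
  show 5 * v 1 - (v 0 + v 1 + v 2) = _
  ring
theorem X2 : X 2 v = 4 * v 2 - v 0 - v 1 := by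
  show 5 * v 2 - (v 0 + v 1 + v 2) = _
  ring
theorem Y0 : Y 0 v = 3 * v 1 + 3 * v 2 - 2 * v 0 := by
  show 3 * (v 0 + v 1 + v 2) - 5 * v 0 = _
  ring
theorem Y1 : Y 1 v = 3 * v 0 + 3 * v 2 - 2 * v 1 := by
  show 3 * (v 0 + v 1 + v 2) - 5 * v 1 = _
  ring
theorem Y2 : Y 2 v = 3 * v 0 + 3 * v 1 - 2 * v 2 := by
  show 3 * (v 0 + v 1 + v 2) - 5 * v 2 = _
  ring
theorem W' : W v = 2 * (v 0 + v 1 + v 2) := rfl

theorem Y_eq (i : Fin 3) : Y i v = W v - X i v := by
  unfold Y W X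
  ring

theorem W_eq : W v = X 0 v + X 1 v + X 2 v := by
  rw [X0, X1, X2, W']
  ring

theorem sm_add : sm (v + w) = sm v + sm w := by
  unfold sm
  simp only [Pi.add_apply]
  ring
theorem sm_smul (c : ℝ) : sm (c • v) = c * sm v := by
  unfold sm
  simp only [Pi.smul_apply, smul_eq_mul]
  ring

theorem X_add (i : Fin 3) : X i (v + w) = X i v + X i w := by
  unfold X
  rw [sm_add, Pi.add_apply]
  ring
theorem X_smul (i : Fin 3) (c : ℝ) : X i (c • v) = c * X i v := by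
  unfold X
  rw [sm_smul, Pi.smul_apply, smul_eq_mul]
  ring
theorem Y_add (i : Fin 3) : Y i (v + w) = Y i v + Y i w := by
  unfold Y
  rw [sm_add, Pi.add_apply]
  ring
theorem Y_smul (i : Fin 3) (c : ℝ) : Y i (c • v) = c * Y i v := by
  unfold Y
  rw [sm_smul, Pi.smul_apply, smul_eq_mul]
  ring
theorem W_add : W (v + w) = W v + W w := by
  unfold W
  rw [sm_add]
  ring
theorem W_smul (c : ℝ) : W (c • v) = c * W v := by
  unfold W
  rw [sm_smul]
  ring

theorem X_neg (i : Fin 3) : X i (-v) = - X i v := by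
  rw [← neg_one_smul ℝ v, X_smul]
  ring
theorem Y_neg (i : Fin 3) : Y i (-v) = - Y i v := by
  rw [← neg_one_smul ℝ v, Y_smul]
  ring
theorem W_neg : W (-v) = - W v := by
  rw [← neg_one_smul ℝ v, W_smul]
  ring
theorem X_sub (i : Fin 3) : X i (v - w) = X i v - X i w := by
  rw [sub_eq_add_neg, X_add, X_neg]
  ring
theorem Y_sub (i : Fin 3) : Y i (v - w) = Y i v - Y i w := by
  rw [sub_eq_add_neg, Y_add, Y_neg]
  ring
theorem W_sub : W (v - w) = W v - W w := by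
  rw [sub_eq_add_neg, W_add, W_neg]
  ring
theorem X_zero (i : Fin 3) : X i 0 = 0 := by
  rw [← zero_smul ℝ (0 : Fin 4 → ℝ), X_smul, zero_mul]
theorem Y_zero (i : Fin 3) : Y i 0 = 0 := by
  rw [← zero_smul ℝ (0 : Fin 4 → ℝ), Y_smul, zero_mul]
theorem W_zero : W 0 = 0 := by
  rw [← zero_smul ℝ (0 : Fin 4 → ℝ), W_smul, zero_mul]

theorem sm_cont : Continuous sm := by
  unfold sm
  fun_prop
theorem X_cont (i : Fin 3) : Continuous (X i) := by
  unfold X
  exact (continuous_const.mul (continuous_apply _)).sub sm_cont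
theorem Y_cont (i : Fin 3) : Continuous (Y i) := by
  unfold Y
  exact (continuous_const.mul sm_cont).sub (continuous_const.mul (continuous_apply _))
theorem W_cont : Continuous W := by
  unfold W
  exact continuous_const.mul sm_cont

theorem rw_cont : Continuous rw' := by
  unfold rw'
  fun_prop
theorem rw_neg (t : ℝ) : rw' (-t) = rw' t := by
  unfold rw'
  rw [abs_neg]
theorem rw_abs (t : ℝ) : rw' (|t|) = rw' t := by
  unfold rw'
  rw [abs_abs]
theorem rw_ge (t : ℝ) : 12 / 25 ≤ rw' t := by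
  unfold rw'
  have := le_max_left 0 (|t| - 2 / 5)
  linarith
theorem rw_le {t : ℝ} (h : |t| ≤ 1) : rw' t ≤ 18 / 25 := by
  unfold rw'
  have : max 0 (|t| - 2 / 5) ≤ 3 / 5 := max_le (by norm_num) (by linarith)
  linarith
theorem rw_small {t : ℝ} (h : |t| ≤ 2 / 5) : rw' t = 12 / 25 := by
  unfold rw'
  rw [max_eq_left (by linarith)]
  ring
theorem rw_big {t : ℝ} (h : 2 / 5 ≤ |t|) : rw' t = 8 / 25 + 2 / 5 * |t| := by
  unfold rw'
  rw [max_eq_right (by linarith)]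
  ring

/-- the vector is determined by `X` and the last coordinate -/
theorem ext_X {v w : Fin 4 → ℝ} (h : ∀ i, X i v = X i w) (h3 : v 3 = w 3) : v = w := by
  have h0 := h 0
  have h1 := h 1
  have h2 := h 2
  rw [X0, X0] at h0
  rw [X1, X1] at h1
  rw [X2, X2] at h2
  funext k
  fin_cases k
  · show v 0 = w 0
    linarith
  · show v 1 = w 1
    linarith
  · show v 2 = w 2
    linarith
  · exact h3

/-- vectors with prescribed `X` and last coordinate -/
noncomputable def mk (a b c y : ℝ) : Fin 4 → ℝ :=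
  ![(a + (a + b + c) / 2) / 5, (b + (a + b + c) / 2) / 5, (c + (a + b + c) / 2) / 5, y]

theorem X0_mk (a b c y : ℝ) : X 0 (mk a b c y) = a := by
  rw [X0]
  simp [mk]
  ring
theorem X1_mk (a b c y : ℝ) : X 1 (mk a b c y) = b := by
  rw [X1]
  simp [mk]
  ring
theorem X2_mk (a b c y : ℝ) : X 2 (mk a b c y) = c := by
  rw [X2]
  simp [mk]
  ring
theorem mk3 (a b c y : ℝ) : mk a b c y 3 = y := by
  simp [mk]

theorem mk_cont : Continuous fun p : ℝ × ℝ × ℝ × ℝ => mk p.1 p.2.1 p.2.2.1 p.2.2.2 := by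
  unfold mk
  refine continuous_pi fun k => ?_
  fin_cases k
  · show Continuous fun p : ℝ × ℝ × ℝ × ℝ => (p.1 + (p.1 + p.2.1 + p.2.2.1) / 2) / 5
    fun_prop
  · show Continuous fun p : ℝ × ℝ × ℝ × ℝ => (p.2.1 + (p.1 + p.2.1 + p.2.2.1) / 2) / 5
    fun_prop
  · show Continuous fun p : ℝ × ℝ × ℝ × ℝ => (p.2.2.1 + (p.1 + p.2.1 + p.2.2.1) / 2) / 5
    fun_prop
  · show Continuous fun p : ℝ × ℝ × ℝ × ℝ => p.2.2.2
    fun_prop

theorem Sep_neg {ε : ℝ} {v : Fin 4 → ℝ} : Sep ε (-v) ↔ Sep ε v := by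
  unfold Sep
  simp only [X_neg, Y_neg, W_neg, abs_neg, Pi.neg_apply, rw_neg]

theorem sep_iff (ε : ℝ) (v : Fin 4 → ℝ) : (∃ i, 1 ≤ gg ε i v) ↔ Sep ε v := by
  constructor
  · rintro ⟨i, hi⟩
    rcases i with i | i | b
    · exact Or.inl ⟨i, hi⟩
    · exact Or.inr (Or.inl ⟨i, hi⟩)
    · cases b
      · exact Or.inr (Or.inr (Or.inl hi))
      · exact Or.inr (Or.inr (Or.inr hi))
  · rintro (⟨i, h⟩ | ⟨i, h⟩ | h | h)
    · exact ⟨Sum.inl i, h⟩
    · exact ⟨Sum.inr (Sum.inl i), h⟩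
    · exact ⟨Sum.inr (Sum.inr false), h⟩
    · exact ⟨Sum.inr (Sum.inr true), h⟩

end Pool.Agent.H96.T4
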