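import Pool.Agent.H96.T4.Basic

/-!
# Dimension four (MP_c4753b_co): the body
-/

set_option autoImplicit false

open MeasureTheory Filter Topology Set
open scoped ENNReal

namespace Pool.Agent.H96.T4

open H947TP Pool.Agent.K3h79.R5

theorem abs_conv {a c : ℝ} (ha : 0 ≤ a) (hc : 0 ≤ c) (s t : ℝ) :
    |a * s + c * t| ≤ a * |s| + c * |t| := by
  refine (abs_add_le _ _).trans ?_
  rw [abs_mul a, abs_mul c, abs_of_nonneg ha, abs_of_nonneg hc]

theorem rw_conv {a c : ℝ} (ha : 0 ≤ a) (hc : 0 ≤ c) (hac : a + c = 1) (s t : ℝ) :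
    rw' (a * s + c * t) ≤ a * rw' s + c * rw' t := by
  unfold rw'
  have h1 := abs_conv ha hc s t
  have h2 : max 0 (|a * s + c * t| - 2 / 5) ≤
      a * max 0 (|s| - 2 / 5) + c * max 0 (|t| - 2 / 5) := by
    apply max_le
    · have := mul_nonneg ha (le_max_left 0 (|s| - 2 / 5))
      have := mul_nonneg hc (le_max_left 0 (|t| - 2 / 5))
      linarith
    · have := mul_le_mul_of_nonneg_left (le_max_right 0 (|s| - 2 / 5)) ha
      have := mul_le_mul_of_nonneg_left (le_max_right 0 (|t| - 2 / 5)) hc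
      have h3 : a * (|s| - 2 / 5) + c * (|t| - 2 / 5) = a * |s| + c * |t| - 2 / 5 * (a + c) := by
        ring
      rw [hac] at h3
      linarith
  have h3 : a * (12 / 25 + 2 / 5 * max 0 (|s| - 2 / 5)) +
      c * (12 / 25 + 2 / 5 * max 0 (|t| - 2 / 5)) =
      12 / 25 * (a + c) + 2 / 5 * (a * max 0 (|s| - 2 / 5) + c * max 0 (|t| - 2 / 5)) := by
    ring
  rw [h3, hac]
  linarith

theorem gau_gg {ε : ℝ} (hε : 0 < ε) (hε1 : ε ≤ 1) : Gau (gg ε) := by
  refine ⟨?_, ?_, ?_, ?_⟩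
  · rintro (i | i | b)
    · show Continuous fun v : Fin 4 → ℝ => |X i v| / 4 + ε * rw' (v 3)
      have := X_cont i
      have := rw_cont.comp (continuous_apply (A := fun _ : Fin 4 => ℝ) 3)
      exact ((X_cont i).abs.div_const 4).add (continuous_const.mul this)
    · show Continuous fun v : Fin 4 → ℝ => |Y i v| / 6 + ε * |v 3|
      exact ((Y_cont i).abs.div_const 6).add (continuous_const.mul (continuous_apply 3).abs)
    · cases b
      · show Continuous fun v : Fin 4 → ℝ => |W v| / 6 + ε * (27 / 50)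
        exact (W_cont.abs.div_const 6).add continuous_const
      · show Continuous fun v : Fin 4 → ℝ => |v 3|
        exact (continuous_apply 3).abs
  · rintro (i | i | b) v
    · show |X i (-v)| / 4 + ε * rw' ((-v) 3) = |X i v| / 4 + ε * rw' (v 3)
      rw [X_neg, abs_neg, Pi.neg_apply, rw_neg]
    · show |Y i (-v)| / 6 + ε * |(-v) 3| = |Y i v| / 6 + ε * |v 3|
      rw [Y_neg, abs_neg, Pi.neg_apply, abs_neg]
    · cases b
      · show |W (-v)| / 6 + ε * (27 / 50) = |W v| / 6 + ε * (27 / 50)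
        rw [W_neg, abs_neg]
      · show |(-v) 3| = |v 3|
        rw [Pi.neg_apply, abs_neg]
  · rintro (i | i | b)
    · show |X i 0| / 4 + ε * rw' ((0 : Fin 4 → ℝ) 3) < 1
      rw [X_zero, Pi.zero_apply, rw_small (by norm_num), abs_zero]
      linarith
    · show |Y i 0| / 6 + ε * |(0 : Fin 4 → ℝ) 3| < 1
      rw [Y_zero, Pi.zero_apply, abs_zero]
      linarith
    · cases b
      · show |W 0| / 6 + ε * (27 / 50) < 1
        rw [W_zero, abs_zero]
        linarith
      · show |(0 : Fin 4 → ℝ) 3| < 1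
        rw [Pi.zero_apply, abs_zero]
        exact one_pos
  · rintro (i | i | b) x y a c ha hc hac
    · show |X i (a • x + c • y)| / 4 + ε * rw' ((a • x + c • y) 3) ≤
        a * (|X i x| / 4 + ε * rw' (x 3)) + c * (|X i y| / 4 + ε * rw' (y 3))
      rw [X_add, X_smul, X_smul, Pi.add_apply, Pi.smul_apply, Pi.smul_apply, smul_eq_mul,
        smul_eq_mul]
      have h1 := abs_conv ha hc (X i x) (X i y)
      have h2 := mul_le_mul_of_nonneg_left (rw_conv ha hc hac (x 3) (y 3)) hε.le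
      linarith
    · show |Y i (a • x + c • y)| / 6 + ε * |(a • x + c • y) 3| ≤
        a * (|Y i x| / 6 + ε * |x 3|) + c * (|Y i y| / 6 + ε * |y 3|)
      rw [Y_add, Y_smul, Y_smul, Pi.add_apply, Pi.smul_apply, Pi.smul_apply, smul_eq_mul,
        smul_eq_mul]
      have h1 := abs_conv ha hc (Y i x) (Y i y)
      have h2 := mul_le_mul_of_nonneg_left (abs_conv ha hc (x 3) (y 3)) hε.le
      linarith
    · cases b
      · show |W (a • x + c • y)| / 6 + ε * (27 / 50) ≤
          a * (|W x| / 6 + ε * (27 / 50)) + c * (|W y| / 6 + ε * (27 / 50))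
        rw [W_add, W_smul, W_smul]
        have h1 := abs_conv ha hc (W x) (W y)
        have h3 : a * (|W x| / 6 + ε * (27 / 50)) + c * (|W y| / 6 + ε * (27 / 50)) =
            (a * |W x| + c * |W y|) / 6 + (a + c) * (ε * (27 / 50)) := by ring
        rw [h3, hac]
        linarith
      · show |(a • x + c • y) 3| ≤ a * |x 3| + c * |y 3|
        rw [Pi.add_apply, Pi.smul_apply, Pi.smul_apply, smul_eq_mul, smul_eq_mul]
        exact abs_conv ha hc _ _

theorem bod_sub {ε : ℝ} (hε : 0 < ε) : bod (gg ε) ⊆ Metric.closedBall 0 2 := by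
  intro x hx
  rw [mem_closedBall_zero_iff, pi_norm_le_iff_of_nonneg zero_le_two]
  have h0 : ∀ i, |X i x| ≤ 2 := by
    intro i
    have h : |X i ((2 : ℝ) • x)| / 4 + ε * rw' (((2 : ℝ) • x) 3) ≤ 1 := hx (Sum.inl i)
    rw [X_smul, abs_mul, abs_two] at h
    have h2 := mul_nonneg hε.le ((by norm_num : (0 : ℝ) ≤ 12 / 25).trans
      (rw_ge (((2 : ℝ) • x) 3)))
    linarith
  have h3 : |x 3| ≤ 1 := by
    have h : |((2 : ℝ) • x) 3| ≤ 1 := hx (Sum.inr (Sum.inr true))
    rw [Pi.smul_apply, smul_eq_mul, abs_mul, abs_two] at h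
    linarith [abs_nonneg (x 3)]
  have a0 := abs_le.1 (h0 0)
  have a1 := abs_le.1 (h0 1)
  have a2 := abs_le.1 (h0 2)
  rw [X0] at a0
  rw [X1] at a1
  rw [X2] at a2
  intro k
  rw [Real.norm_eq_abs]
  fin_cases k
  · show |x 0| ≤ 2
    rw [abs_le]
    constructor <;> linarith [a0.1, a0.2, a1.1, a1.2, a2.1, a2.2]
  · show |x 1| ≤ 2
    rw [abs_le]
    constructor <;> linarith [a0.1, a0.2, a1.1, a1.2, a2.1, a2.2]
  · show |x 2| ≤ 2
    rw [abs_le]
    constructor <;> linarith [a0.1, a0.2, a1.1, a1.2, a2.1, a2.2]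
  · show |x 3| ≤ 2
    linarith

/-- the body: all its properties -/
theorem body_facts {ε : ℝ} (hε : 0 < ε) (hε1 : ε ≤ 1) :
    Convex ℝ (bod (gg ε)) ∧ IsCompact (bod (gg ε)) ∧ (interior (bod (gg ε))).Nonempty ∧
    (∀ x ∈ bod (gg ε), -x ∈ bod (gg ε)) ∧ volume (bod (gg ε)) ≠ 0 ∧ volume (bod (gg ε)) ≠ ⊤ ∧
    ∀ S : Set (Fin 4 → ℝ), IsPacking (bod (gg ε)) S ↔ ∀ x ∈ S, ∀ y ∈ S, x ≠ y →
      Sep ε (x - y) := by
  have hg := gau_gg hε hε1
  obtain ⟨a1, a2, a3, a4, a5, a6⟩ := bod_facts hg 2 (bod_sub hε)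
  refine ⟨a1, a2, a3, a4, a5, a6, fun S => ?_⟩
  rw [packing_iff hg S]
  simp only [sep_iff]

end Pool.Agent.H96.T4
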