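import Pool.Agent.H96.T4.Lim

/-!
# Dimension four (MP_c4753b_co): the structure of separated covering groups
-/

set_option autoImplicit false

open MeasureTheory Filter Topology Set
open scoped ENNReal

namespace Pool.Agent.H96.T4

open H947TP

theorem three_cases : ∀ i j k : Fin 3, i ≠ j → i ≠ k → j ≠ k → ∀ l, l = i ∨ l = j ∨ l = k := by
  decide

theorem W_perm {i j k : Fin 3} (hij : i ≠ j) (hik : i ≠ k) (hjk : j ≠ k) (v : Fin 4 → ℝ) :
    W v = X i v + X j v + X k v := by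
  have h := W_eq v
  fin_cases i <;> fin_cases j <;> fin_cases k <;> first | (exact absurd rfl hij) | (exact absurd rfl hik) | (exact absurd rfl hjk) | (simp only [Fin.zero_eta, Fin.mk_one, Fin.reduceFinMk] at *; linarith)

/-- vectors with prescribed values of `X` -/
noncomputable def mkX (c : Fin 3 → ℝ) (y : ℝ) : Fin 4 → ℝ := mk (c 0) (c 1) (c 2) y

theorem X_mkX (c : Fin 3 → ℝ) (y : ℝ) (i : Fin 3) : X i (mkX c y) = c i := by
  fin_cases i
  · exact X0_mk _ _ _ _
  · exact X1_mk _ _ _ _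
  · exact X2_mk _ _ _ _

theorem mkX3 (c : Fin 3 → ℝ) (y : ℝ) : mkX c y 3 = y := mk3 _ _ _ _

/-- the vectors `(e_i, y)` -/
noncomputable def E (i : Fin 3) (y : ℝ) : Fin 4 → ℝ := mkX (fun l => if l = i then 4 else -1) y

theorem X_E_same (i : Fin 3) (y : ℝ) : X i (E i y) = 4 := by
  unfold E
  rw [X_mkX, if_pos rfl]

theorem X_E_ne {i j : Fin 3} (h : j ≠ i) (y : ℝ) : X j (E i y) = -1 := by
  unfold E
  rw [X_mkX, if_neg h]

theorem E3 (i : Fin 3) (y : ℝ) : E i y 3 = y := mkX3 _ _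

theorem coord_of (d : Fin 4 → ℝ) (l : Fin 4) (hl : l ≠ 3) :
    ∃ j : Fin 3, d l = (X j d + W d / 2) / 5 := by
  fin_cases l
  · refine ⟨0, ?_⟩
    show d 0 = _
    rw [X0, W']
    ring
  · refine ⟨1, ?_⟩
    show d 1 = _
    rw [X1, W']
    ring
  · refine ⟨2, ?_⟩
    show d 2 = _
    rw [X2, W']
    ring
  · exact absurd rfl hl

theorem W_E (i : Fin 3) (y : ℝ) : W (E i y) = 2 := by
  obtain ⟨j, k, hij, hik, hjk⟩ : ∃ j k : Fin 3, i ≠ j ∧ i ≠ k ∧ j ≠ k := by
    revert i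
    decide
  rw [W_perm hij hik hjk, X_E_same, X_E_ne hij.symm, X_E_ne hik.symm]
  norm_num

theorem E_coord (i : Fin 3) {y : ℝ} (hy : |y| ≤ 1) (l : Fin 4) : |E i y l| ≤ 1 := by
  by_cases hl : l = 3
  · rw [hl, E3]
    exact hy
  · obtain ⟨j, hj⟩ := coord_of (E i y) l hl
    rw [hj, W_E]
    by_cases h : j = i
    · rw [h, X_E_same]
      norm_num
    · rw [X_E_ne h]
      norm_num

/-- the relative interior of the facet `i` at height `a` -/
def Fac (i : Fin 3) (a : ℝ) : Set (Fin 4 → ℝ) :=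
  {p | X i p = 2 ∧ (∀ l, l ≠ i → |X l p| < 2) ∧ (∀ l, |Y l p| < 3) ∧ |W p| < 3 ∧ p 3 = a}

theorem Fac_convex (i : Fin 3) (a : ℝ) : Convex ℝ (Fac i a) := by
  have key : ∀ s t x y c : ℝ, 0 ≤ s → 0 ≤ t → s + t = 1 → |x| < c → |y| < c →
      |s * x + t * y| < c := by
    intro s t x y c hs ht hst hx hy
    have h1 : |s * x + t * y| ≤ s * |x| + t * |y| := by
      refine (abs_add_le _ _).trans ?_
      rw [abs_mul s, abs_mul t, abs_of_nonneg hs, abs_of_nonneg ht]
    rcases hs.eq_or_lt with h | h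
    · have : t = 1 := by linarith
      rw [← h, this] at h1 ⊢
      linarith
    · have h2 : s * |x| < s * c := mul_lt_mul_of_pos_left hx h
      have h3 : t * |y| ≤ t * c := mul_le_mul_of_nonneg_left hy.le ht
      have h4 : s * c + t * c = c := by rw [← add_mul, hst, one_mul]
      linarith
  rintro p ⟨p1, p2, p3, p4, p5⟩ q ⟨q1, q2, q3, q4, q5⟩ s t hs ht hst
  refine ⟨?_, fun l hl => ?_, fun l => ?_, ?_, ?_⟩
  · rw [X_add, X_smul, X_smul, p1, q1, ← add_mul, hst, one_mul]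
  · rw [X_add, X_smul, X_smul]
    exact key s t _ _ 2 hs ht hst (p2 l hl) (q2 l hl)
  · rw [Y_add, Y_smul, Y_smul]
    exact key s t _ _ 3 hs ht hst (p3 l) (q3 l)
  · rw [W_add, W_smul, W_smul]
    exact key s t _ _ 3 hs ht hst p4 q4
  · rw [Pi.add_apply, Pi.smul_apply, Pi.smul_apply, p5, q5, smul_eq_mul, smul_eq_mul, ← add_mul,
      hst, one_mul]

/-- points of the facet -/
noncomputable def pt (i j : Fin 3) (u w a : ℝ) : Fin 4 → ℝ :=
  mkX (fun l => if l = i then 2 else if l = j then u else w) a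

theorem pt_facts {i j k : Fin 3} (hij : i ≠ j) (hik : i ≠ k) (hjk : j ≠ k) (u w a : ℝ) :
    X i (pt i j u w a) = 2 ∧ X j (pt i j u w a) = u ∧ X k (pt i j u w a) = w ∧
      pt i j u w a 3 = a := by
  unfold pt
  refine ⟨?_, ?_, ?_, mkX3 _ _⟩
  · rw [X_mkX, if_pos rfl]
  · rw [X_mkX, if_neg hij.symm, if_pos rfl]
  · rw [X_mkX, if_neg hik.symm, if_neg hjk.symm]

theorem pt_mem {i j k : Fin 3} (hij : i ≠ j) (hik : i ≠ k) (hjk : j ≠ k) {u w a : ℝ}
    (h1 : -2 < u) (h2 : u < 1) (h3 : -2 < w) (h4 : w < 1) (h5 : -3 < u + w) (h6 : u + w < 1) :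
    pt i j u w a ∈ Fac i a := by
  obtain ⟨g1, g2, g3, g4⟩ := pt_facts hij hik hjk u w a
  have hW := W_perm hij hik hjk (pt i j u w a)
  rw [g1, g2, g3] at hW
  refine ⟨g1, fun l hl => ?_, fun l => ?_, ?_, g4⟩
  · rcases three_cases i j k hij hik hjk l with rfl | rfl | rfl
    · exact absurd rfl hl
    · rw [g2, abs_lt]
      constructor <;> linarith
    · rw [g3, abs_lt]
      constructor <;> linarith
  · rw [Y_eq, hW]
    rcases three_cases i j k hij hik hjk l with rfl | rfl | rfl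
    · rw [g1, abs_lt]
      constructor <;> linarith
    · rw [g2, abs_lt]
      constructor <;> linarith
    · rw [g3, abs_lt]
      constructor <;> linarith
  · rw [hW, abs_lt]
    constructor <;> linarith

theorem Fac_InP {i : Fin 3} {a : ℝ} {p : Fin 4 → ℝ} (hp : p ∈ Fac i a) : InP 1 p := by
  obtain ⟨p1, p2, p3, p4, p5⟩ := hp
  refine ⟨fun l => ?_, fun l => ?_, ?_⟩
  · by_cases h : l = i
    · rw [h, p1]
      norm_num
    · linarith [p2 l h]
  · linarith [p3 l]
  · linarith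

variable {L : AddSubgroup (Fin 4 → ℝ)}

/-- existence of the neighbour -/
theorem exists_nb (hS : ∀ v ∈ L, v ≠ 0 → Sep0 v)
    (hC : ∀ x : Fin 4 → ℝ, ∃ v ∈ L, InP 1 (x - v) ∧ |(x - v) 3| ≤ 1 / 2)
    {i : Fin 3} {a : ℝ} (ha : -(1 / 2) ≤ a) (ha' : a < 1 / 2) {p : Fin 4 → ℝ}
    (hp : p ∈ Fac i a) :
    ∃ v ∈ L, X i v = 4 ∧ InP 1 (p - v) ∧ a - 1 / 2 < v 3 ∧ v 3 ≤ a + 1 / 2 ∧
      ∀ l, |v l| ≤ 3 := by
  obtain ⟨p1, p2, p3, p4, p5⟩ := id hp
  have hpP := Fac_InP hp
  set d := E i 1 with hd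
  have d0 : X i d = 4 := X_E_same i 1
  have d3 : d 3 = 1 := E3 i 1
  -- the sequence of points
  have hex : ∀ n : ℕ, ∃ v ∈ L, InP 1 (p + (1 / ((n : ℝ) + 1)) • d - v) ∧
      |(p + (1 / ((n : ℝ) + 1)) • d - v) 3| ≤ 1 / 2 := fun n => hC _
  choose vs hvs h1 h2 using hex
  have hdl : ∀ l, |d l| ≤ 1 := fun l => E_coord i (by norm_num) l
  have hpl : ∀ l, |p l| ≤ 1 := by
    intro l
    by_cases hl : l = 3
    · subst hl
      rw [p5, abs_le]
      constructor <;> linarith
    · exact InP_coord hpP l hl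
  have htn : ∀ n : ℕ, 0 < 1 / ((n : ℝ) + 1) ∧ 1 / ((n : ℝ) + 1) ≤ 1 := by
    intro n
    refine ⟨by positivity, ?_⟩
    rw [div_le_one (by positivity)]
    have : (0 : ℝ) ≤ (n : ℝ) := by positivity
    linarith
  have hbd : ∀ n l, |vs n l| ≤ 3 := by
    intro n l
    have e : vs n l = p l + (1 / ((n : ℝ) + 1)) * d l - (p + (1 / ((n : ℝ) + 1)) • d - vs n) l := by
      simp only [Pi.sub_apply, Pi.add_apply, Pi.smul_apply, smul_eq_mul]
      ring
    have h3 : |(p + (1 / ((n : ℝ) + 1)) • d - vs n) l| ≤ 1 := by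
      by_cases hl : l = 3
      · subst hl
        linarith [h2 n]
      · exact InP_coord (h1 n) l hl
    have h4 : |(1 / ((n : ℝ) + 1)) * d l| ≤ 1 := by
      rw [abs_mul, abs_of_pos (htn n).1]
      have := hdl l
      have h5 := (htn n).2
      have h6 := (htn n).1
      nlinarith [abs_nonneg (d l)]
    rw [e]
    refine (abs_sub _ _).trans ?_
    have := abs_add_le (p l) ((1 / ((n : ℝ) + 1)) * d l)
    linarith [hpl l]
  set U : Ultrafilter ℕ := Filter.hyperfilter ℕ with hU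
  have hfin := finite_box L hS 3
  obtain ⟨v, hv, hvU⟩ : ∃ v ∈ {v : Fin 4 → ℝ | v ∈ L ∧ ∀ l, |v l| ≤ 3}, {n | vs n = v} ∈ U := by
    rw [← Ultrafilter.finite_biUnion_mem_iff hfin]
    refine Filter.univ_mem' ?_
    intro n
    simp only [mem_iUnion]
    exact ⟨vs n, ⟨hvs n, hbd n⟩, rfl⟩
  have htend : Tendsto (fun n : ℕ => 1 / ((n : ℝ) + 1)) U (𝓝 0) :=
    (tendsto_one_div_add_atTop_nhds_zero_nat (𝕜 := ℝ)).mono_left Nat.hyperfilter_le_atTop
  have hpt : Tendsto (fun n : ℕ => p + (1 / ((n : ℝ) + 1)) • d - v) U (𝓝 (p + (0 : ℝ) • d - v)) :=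
    (tendsto_const_nhds.add (htend.smul_const d)).sub tendsto_const_nhds
  rw [zero_smul, add_zero] at hpt
  have hev : ∀ᶠ n in (U : Filter ℕ), vs n = v := hvU
  have c1 : InP 1 (p - v) := by
    refine (InP_closed 1).mem_of_tendsto hpt ?_
    filter_upwards [hev] with n hn
    rw [← hn]
    exact h1 n
  have c2 : |(p - v) 3| ≤ 1 / 2 := by
    refine le_of_tendsto ((tendsto_pi_nhds.mp hpt) 3).abs ?_
    filter_upwards [hev] with n hn
    rw [← hn]
    exact h2 n
  obtain ⟨n, hn⟩ := hev.exists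
  have t0 := (htn n).1
  have k1 := h1 n
  have k2 := h2 n
  rw [hn] at k1 k2
  have hXv : 0 < X i v := by
    have := (abs_le.1 (k1.1 i)).2
    rw [X_sub, X_add, X_smul, p1, d0] at this
    linarith
  have hv3 : v 3 ≤ a + 1 / 2 := by
    have := (abs_le.1 c2).1
    rw [Pi.sub_apply, p5] at this
    linarith
  have hv3' : a - 1 / 2 < v 3 := by
    have := (abs_le.1 k2).2
    rw [Pi.sub_apply, Pi.add_apply, Pi.smul_apply, smul_eq_mul, p5, d3] at this
    linarith
  have hv0 : v ≠ 0 := by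
    rintro rfl
    rw [X_zero] at hXv
    exact lt_irrefl _ hXv
  refine ⟨v, hv.1, ?_, c1, hv3', hv3, hv.2⟩
  rcases hS v hv.1 hv0 with ⟨l, h⟩ | ⟨l, h⟩ | h | h
  · have h3 := c1.1 l
    rw [X_sub] at h3
    by_cases hl : l = i
    · subst hl
      rw [p1] at h3
      rw [abs_of_pos hXv] at h
      have := (abs_le.1 h3).1
      linarith
    · exfalso
      have h4 := p2 l hl
      have h5 : |X l v| ≤ |X l p| + |X l p - X l v| := by
        have := abs_sub (X l p) (X l p - X l v)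
        rwa [sub_sub_cancel] at this
      linarith
  · exfalso
    have h3 := c1.2.1 l
    rw [Y_sub] at h3
    have h4 := p3 l
    have h5 : |Y l v| ≤ |Y l p| + |Y l p - Y l v| := by
      have := abs_sub (Y l p) (Y l p - Y l v)
      rwa [sub_sub_cancel] at this
    linarith
  · exfalso
    have h3 := c1.2.2
    rw [W_sub] at h3
    have h5 : |W v| ≤ |W p| + |W p - W v| := by
      have := abs_sub (W p) (W p - W v)
      rwa [sub_sub_cancel] at this
    linarith
  · exfalso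
    have : |v 3| < 1 := by
      rw [abs_lt]
      constructor <;> linarith
    linarith

/-- points of the opposite facet -/
theorem opp {i j k : Fin 3} (hij : i ≠ j) (hik : i ≠ k) (hjk : j ≠ k) {q : Fin 4 → ℝ}
    (hq : InP 1 q) (hi : X i q = -2) :
    -1 ≤ X j q ∧ X j q ≤ 2 ∧ -1 ≤ X k q ∧ X k q ≤ 2 ∧ -1 ≤ X j q + X k q ∧
      X j q + X k q ≤ 3 := by
  obtain ⟨h1, h2, h3⟩ := hq
  have hW := W_perm hij hik hjk q
  have a1 := abs_le.1 (h1 j)
  have a2 := abs_le.1 (h1 k)
  have a3 := abs_le.1 (h2 i)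
  have a4 := abs_le.1 (h2 j)
  have a5 := abs_le.1 (h2 k)
  have a6 := abs_le.1 h3
  rw [Y_eq, hW] at a3 a4 a5
  rw [hW] at a6
  refine ⟨?_, ?_, ?_, ?_, ?_, ?_⟩ <;> linarith [a1.1, a1.2, a2.1, a2.2, a3.1, a3.2, a4.1, a4.2,
    a5.1, a5.2, a6.1, a6.2]

/-- uniqueness of the neighbour -/
theorem uniq_nb (hS : ∀ v ∈ L, v ≠ 0 → Sep0 v) {i j k : Fin 3} (hij : i ≠ j) (hik : i ≠ k)
    (hjk : j ≠ k) {p v w : Fin 4 → ℝ} (hp : X i p = 2) (hv : v ∈ L) (hw : w ∈ L)
    (hv4 : X i v = 4) (hw4 : X i w = 4) (hpv : InP 1 (p - v)) (hpw : InP 1 (p - w))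
    (h3 : |v 3 - w 3| < 1) : v = w := by
  by_contra hne
  have hne' : v - w ≠ 0 := sub_ne_zero.mpr hne
  have hvi : X i (p - v) = -2 := by rw [X_sub, hp, hv4]; norm_num
  have hwi : X i (p - w) = -2 := by rw [X_sub, hp, hw4]; norm_num
  obtain ⟨b1, b2, b3, b4, b5, b6⟩ := opp hij hik hjk hpv hvi
  obtain ⟨c1, c2, c3, c4, c5, c6⟩ := opp hij hik hjk hpw hwi
  rw [X_sub, X_sub] at b5 b6 c5 c6
  rw [X_sub] at b1 b2 b3 b4 c1 c2 c3 c4
  have hxi : X i (v - w) = 0 := by rw [X_sub, hv4, hw4]; norm_num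
  have hW := W_perm hij hik hjk (v - w)
  rw [hxi] at hW
  rcases hS _ (L.sub_mem hv hw) hne' with ⟨l, h⟩ | ⟨l, h⟩ | h | h
  · rcases three_cases i j k hij hik hjk l with rfl | rfl | rfl
    · rw [hxi, abs_zero] at h
      linarith
    · have : |X l (v - w)| ≤ 3 := by
        rw [X_sub, abs_le]
        constructor <;> linarith
      linarith
    · have : |X l (v - w)| ≤ 3 := by
        rw [X_sub, abs_le]
        constructor <;> linarith
      linarith
  · rw [Y_eq, hW] at h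
    rcases three_cases i j k hij hik hjk l with rfl | rfl | rfl
    · have : |0 + X j (v - w) + X k (v - w) - X l (v - w)| ≤ 4 := by
        rw [hxi, X_sub, X_sub, abs_le]
        constructor <;> linarith
      linarith
    · have : |0 + X l (v - w) + X k (v - w) - X l (v - w)| ≤ 3 := by
        rw [X_sub, X_sub, abs_le]
        constructor <;> linarith
      linarith
    · have : |0 + X j (v - w) + X l (v - w) - X l (v - w)| ≤ 3 := by
        rw [X_sub, X_sub, abs_le]
        constructor <;> linarith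
      linarith
  · rw [hW] at h
    have : |0 + X j (v - w) + X k (v - w)| ≤ 4 := by
      rw [X_sub, X_sub, abs_le]
      constructor <;> linarith
    linarith
  · rw [Pi.sub_apply] at h
    linarith

/-- the neighbour over `e_i` at a given height -/
theorem nb_E (hS : ∀ v ∈ L, v ≠ 0 → Sep0 v)
    (hC : ∀ x : Fin 4 → ℝ, ∃ v ∈ L, InP 1 (x - v) ∧ |(x - v) 3| ≤ 1 / 2)
    {i j k : Fin 3} (hij : i ≠ j) (hik : i ≠ k) (hjk : j ≠ k) {a : ℝ} (ha : -(1 / 2) ≤ a)
    (ha' : a < 1 / 2) : ∃ y : ℝ, E i y ∈ L ∧ a - 1 / 2 < y ∧ y ≤ a + 1 / 2 := by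
  have hp0 : pt i j (-(1 / 2)) (-(1 / 2)) a ∈ Fac i a :=
    pt_mem hij hik hjk (by norm_num) (by norm_num) (by norm_num) (by norm_num) (by norm_num)
      (by norm_num)
  obtain ⟨v, hvL, hv4, hpv, hv3, hv3', hvb⟩ := exists_nb hS hC ha ha' hp0
  have hcl : ∀ w : Fin 4 → ℝ, IsClosed {p : Fin 4 → ℝ | InP 1 (p - w)} := fun w =>
    (InP_closed 1).preimage (continuous_id.sub continuous_const)
  set S : Set (Fin 4 → ℝ) := {w | w ∈ L ∧ ∀ l, |w l| ≤ 3} ∩
    {w | X i w = 4 ∧ a - 1 / 2 < w 3 ∧ w 3 ≤ a + 1 / 2 ∧ w ≠ v} with hSdef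
  have hSfin : S.Finite := (finite_box L hS 3).inter_of_left _
  have hcl2 : IsClosed (⋃ w ∈ S, {p : Fin 4 → ℝ | InP 1 (p - w)}) :=
    hSfin.isClosed_biUnion fun w _ => hcl w
  have hall : Fac i a ⊆ {p : Fin 4 → ℝ | InP 1 (p - v)} := by
    have hconn := (Fac_convex i a).isPreconnected
    rw [isPreconnected_closed_iff] at hconn
    by_contra hnot
    rw [Set.not_subset] at hnot
    obtain ⟨q, hq, hqv⟩ := hnot
    have hcov : ∀ p ∈ Fac i a, ¬ InP 1 (p - v) →
        p ∈ ⋃ w ∈ S, {p : Fin 4 → ℝ | InP 1 (p - w)} := by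
      intro p hp hnp
      obtain ⟨w, hwL, hw4, hpw, hw3, hw3', hwb⟩ := exists_nb hS hC ha ha' hp
      rw [mem_iUnion₂]
      refine ⟨w, ⟨⟨hwL, hwb⟩, hw4, hw3, hw3', ?_⟩, hpw⟩
      rintro rfl
      exact hnp hpw
    obtain ⟨p, hp, hp1, hp2⟩ := hconn _ _ (hcl v) hcl2 (by
      intro p hp
      by_cases h : InP 1 (p - v)
      · exact Or.inl h
      · exact Or.inr (hcov p hp h)) ⟨_, hp0, hpv⟩ ⟨q, hq, hcov q hq hqv⟩
    rw [mem_iUnion₂] at hp2
    obtain ⟨w, ⟨⟨hwL, -⟩, hw4, hw3, hw3', hwne⟩, hpw⟩ := hp2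
    refine hwne (uniq_nb hS hij hik hjk hp.1 hwL hvL hw4 hv4 hpw hp1 ?_)
    rw [abs_lt]
    constructor <;> linarith
  -- the base of `v`
  have hval : ∀ j k : Fin 3, i ≠ j → i ≠ k → j ≠ k → X j v = -1 := by
    intro j k hij hik hjk
    apply le_antisymm
    · refine le_of_forall_pos_le_add fun t ht => ?_
      have ht' : 0 < min t (1 / 2) := lt_min ht (by norm_num)
      have htm : min t (1 / 2) ≤ 1 / 2 := min_le_right _ _
      have htt : min t (1 / 2) ≤ t := min_le_left _ _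
      set t' := min t (1 / 2) with ht'def
      have hmem : pt i j (-2 + t') 0 a ∈ Fac i a :=
        pt_mem hij hik hjk (by linarith) (by linarith) (by norm_num) (by norm_num) (by linarith)
          (by linarith)
      obtain ⟨g1, g2, g3, -⟩ := pt_facts hij hik hjk (-2 + t') 0 a
      have h1 : InP 1 (pt i j (-2 + t') 0 a - v) := hall hmem
      obtain ⟨b1, -, -, -, -, -⟩ := opp hij hik hjk h1 (by rw [X_sub, g1, hv4]; norm_num)
      rw [X_sub, g2] at b1
      linarith
    · refine le_of_forall_pos_le_add fun t ht => ?_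
      have ht' : 0 < min t (1 / 2) := lt_min ht (by norm_num)
      have htm : min t (1 / 2) ≤ 1 / 2 := min_le_right _ _
      have htt : min t (1 / 2) ≤ t := min_le_left _ _
      set t' := min t (1 / 2) with ht'def
      have hmem : pt i j (1 - t') (-1) a ∈ Fac i a :=
        pt_mem hij hik hjk (by linarith) (by linarith) (by norm_num) (by norm_num) (by linarith)
          (by linarith)
      obtain ⟨g1, g2, g3, -⟩ := pt_facts hij hik hjk (1 - t') (-1) a
      have h1 : InP 1 (pt i j (1 - t') (-1) a - v) := hall hmem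
      obtain ⟨-, b2, -, -, -, -⟩ := opp hij hik hjk h1 (by rw [X_sub, g1, hv4]; norm_num)
      rw [X_sub, g2] at b2
      linarith
  have hvE : v = E i (v 3) := by
    apply ext_X
    · intro l
      rcases three_cases i j k hij hik hjk l with rfl | rfl | rfl
      · rw [hv4, X_E_same]
      · rw [hval l k hij hik hjk, X_E_ne hij.symm]
      · rw [hval l j hik hij hjk.symm, X_E_ne hik.symm]
    · rw [E3]
  exact ⟨v 3, hvE ▸ hvL, hv3, hv3'⟩

/-- the vertical unit vector -/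
noncomputable def V0 : Fin 4 → ℝ := mkX 0 1

theorem X_V0 (i : Fin 3) : X i V0 = 0 := X_mkX _ _ _

theorem V03 : V0 3 = 1 := mkX3 _ _

theorem E_sub (i : Fin 3) (y z : ℝ) : E i y - E i z = (y - z) • V0 := by
  apply ext_X
  · intro l
    rw [X_sub, X_smul, X_V0]
    by_cases h : l = i
    · subst h
      rw [X_E_same, X_E_same]
      ring
    · rw [X_E_ne h, X_E_ne h]
      ring
  · rw [Pi.sub_apply, Pi.smul_apply, E3, E3, V03, smul_eq_mul, mul_one]

/-- the classification -/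
theorem classify (hS : ∀ v ∈ L, v ≠ 0 → Sep0 v)
    (hC : ∀ x : Fin 4 → ℝ, ∃ v ∈ L, InP 1 (x - v) ∧ |(x - v) 3| ≤ 1 / 2) :
    (∀ i, E i 0 ∈ L) ∨ (V0 ∈ L ∧ ∃ a : Fin 3 → ℝ, (∀ i, 0 ≤ a i) ∧ (∀ i, a i < 1) ∧
      (∃ i, 0 < a i) ∧ ∀ i, E i (a i) ∈ L) := by
  have hnb : ∀ (i : Fin 3) (a : ℝ), -(1 / 2) ≤ a → a < 1 / 2 →
      ∃ y : ℝ, E i y ∈ L ∧ a - 1 / 2 < y ∧ y ≤ a + 1 / 2 := by
    intro i a ha ha'
    fin_cases i
    · exact nb_E hS hC (i := 0) (j := 1) (k := 2) (by decide) (by decide) (by decide) ha ha'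
    · exact nb_E hS hC (i := 1) (j := 0) (k := 2) (by decide) (by decide) (by decide) ha ha'
    · exact nb_E hS hC (i := 2) (j := 0) (k := 1) (by decide) (by decide) (by decide) ha ha'
  have h0 : ∀ i, ∃ y : ℝ, E i y ∈ L ∧ -1 < y ∧ y ≤ 0 := by
    intro i
    obtain ⟨y, hy, h1, h2⟩ := hnb i (-(1 / 2)) le_rfl (by norm_num)
    exact ⟨y, hy, by linarith, by linarith⟩
  choose y hy y1 y2 using h0
  by_cases hall : ∀ i, y i = 0
  · left
    intro i
    have := hy i
    rwa [hall i] at this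
  · right
    push Not at hall
    obtain ⟨i, hi⟩ := hall
    have hineg : y i < 0 := lt_of_le_of_ne (y2 i) hi
    have hV : V0 ∈ L := by
      obtain ⟨z, hz, z1, z2⟩ := hnb i (1 / 2 + y i) (by linarith [y1 i]) (by linarith)
      have hd : (z - y i) • V0 ∈ L := by
        rw [← E_sub i]
        exact L.sub_mem hz (hy i)
      have hpos : 0 < z - y i := by linarith
      have hle : z - y i ≤ 1 := by linarith
      have hne : (z - y i) • V0 ≠ 0 := by
        intro h
        have := congrFun h 3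
        rw [Pi.smul_apply, V03, smul_eq_mul, mul_one, Pi.zero_apply] at this
        linarith
      have hXz : ∀ l, X l ((z - y i) • V0) = 0 := by
        intro l
        rw [X_smul, X_V0, mul_zero]
      have hWz : W ((z - y i) • V0) = 0 := by
        rw [W_eq, hXz, hXz, hXz]
        norm_num
      have h1 : 1 ≤ |((z - y i) • V0) 3| := by
        rcases hS _ hd hne with ⟨l, h⟩ | ⟨l, h⟩ | h | h
        · rw [hXz, abs_zero] at h
          linarith
        · rw [Y_eq, hXz, hWz, sub_zero, abs_zero] at h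
          linarith
        · rw [hWz, abs_zero] at h
          linarith
        · exact h
      rw [Pi.smul_apply, V03, smul_eq_mul, mul_one, abs_of_pos hpos] at h1
      have h2 : z - y i = 1 := le_antisymm hle h1
      rwa [h2, one_smul] at hd
    refine ⟨hV, fun l => if y l = 0 then 0 else y l + 1, ?_, ?_, ⟨i, ?_⟩, ?_⟩
    · intro l
      show 0 ≤ if y l = 0 then 0 else y l + 1
      split_ifs
      · exact le_rfl
      · linarith [y1 l]
    · intro l
      show (if y l = 0 then 0 else y l + 1) < 1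
      split_ifs with h
      · exact one_pos
      · have := lt_of_le_of_ne (y2 l) h
        linarith
    · show 0 < if y i = 0 then 0 else y i + 1
      rw [if_neg hi]
      linarith [y1 i]
    · intro l
      show E l (if y l = 0 then 0 else y l + 1) ∈ L
      split_ifs with h
      · have := hy l
        rwa [h] at this
      · have h1 : E l (y l + 1) = E l (y l) + V0 := by
          have := E_sub l (y l + 1) (y l)
          rw [add_sub_cancel_left, one_smul] at this
          rw [← this]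
          abel
        rw [h1]
        exact L.add_mem (hy l) hV

end Pool.Agent.H96.T4
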