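import Pool.Agent.H96.T4.Class

/-!
# Dimension four (MP_c4753b_co): contacts
-/

set_option autoImplicit false

open MeasureTheory Filter Topology Set
open scoped ENNReal

namespace Pool.Agent.H96.T4

open H947TP

section

variable {U : Ultrafilter ℕ} {ε : ℕ → ℝ} {w : ℕ → Fin 4 → ℝ} {ws : Fin 4 → ℝ}

theorem ev_X (hεU : Tendsto ε U (𝓝 0)) (hlim : Tendsto w U (𝓝 ws)) (i : Fin 3)
    (h : |X i ws| < 4) : ∀ᶠ m in (U : Filter ℕ), |X i (w m)| / 4 + ε m * rw' (w m 3) < 1 := by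
  have h3 : Tendsto (fun m => w m 3) U (𝓝 (ws 3)) := (tendsto_pi_nhds.mp hlim) 3
  have t : Tendsto (fun m => |X i (w m)| / 4 + ε m * rw' (w m 3)) U
      (𝓝 (|X i ws| / 4 + 0 * rw' (ws 3))) :=
    ((((X_cont i).tendsto ws).comp hlim).abs.div_const 4).add
      (hεU.mul ((rw_cont.tendsto _).comp h3))
  exact t.eventually (gt_mem_nhds (by linarith))

theorem ev_Y (hεU : Tendsto ε U (𝓝 0)) (hlim : Tendsto w U (𝓝 ws)) (i : Fin 3)
    (h : |Y i ws| < 6) : ∀ᶠ m in (U : Filter ℕ), |Y i (w m)| / 6 + ε m * |w m 3| < 1 := by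
  have h3 : Tendsto (fun m => w m 3) U (𝓝 (ws 3)) := (tendsto_pi_nhds.mp hlim) 3
  have t : Tendsto (fun m => |Y i (w m)| / 6 + ε m * |w m 3|) U
      (𝓝 (|Y i ws| / 6 + 0 * |ws 3|)) :=
    ((((Y_cont i).tendsto ws).comp hlim).abs.div_const 6).add (hεU.mul h3.abs)
  exact t.eventually (gt_mem_nhds (by linarith))

theorem ev_W (hεU : Tendsto ε U (𝓝 0)) (hlim : Tendsto w U (𝓝 ws))
    (h : |W ws| < 6) : ∀ᶠ m in (U : Filter ℕ), |W (w m)| / 6 + ε m * (27 / 50) < 1 := by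
  have t : Tendsto (fun m => |W (w m)| / 6 + ε m * (27 / 50)) U
      (𝓝 (|W ws| / 6 + 0 * (27 / 50))) :=
    (((W_cont.tendsto ws).comp hlim).abs.div_const 6).add (hεU.mul tendsto_const_nhds)
  exact t.eventually (gt_mem_nhds (by linarith))

theorem ev_3 (hlim : Tendsto w U (𝓝 ws)) (h : |ws 3| < 1) :
    ∀ᶠ m in (U : Filter ℕ), |w m 3| < 1 :=
  ((tendsto_pi_nhds.mp hlim) 3).abs.eventually (gt_mem_nhds h)

variable {Λ : ℕ → AddSubgroup (Fin 4 → ℝ)}

theorem contactX (hεU : Tendsto ε U (𝓝 0)) (hsep : ∀ m, ∀ v ∈ Λ m, v ≠ 0 → Sep (ε m) v)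
    (hw : ∀ m, w m ∈ Λ m) (hlim : Tendsto w U (𝓝 ws)) (i : Fin 3) (hi : 0 < X i ws)
    (hX : ∀ l, l ≠ i → |X l ws| < 4) (hY : ∀ l, |Y l ws| < 6) (hW : |W ws| < 6)
    (h3 : |ws 3| < 1) :
    ∀ᶠ m in (U : Filter ℕ), 4 - 4 * ε m * rw' (w m 3) ≤ X i (w m) := by
  have e0 : ∀ᶠ m in (U : Filter ℕ), 0 < X i (w m) :=
    (((X_cont i).tendsto ws).comp hlim).eventually (lt_mem_nhds hi)
  have e1 : ∀ᶠ m in (U : Filter ℕ), ∀ l, l ≠ i → |X l (w m)| / 4 + ε m * rw' (w m 3) < 1 := by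
    rw [eventually_all]
    intro l
    by_cases hl : l = i
    · exact Filter.Eventually.of_forall fun m h => absurd hl h
    · filter_upwards [ev_X hεU hlim l (hX l hl)] with m hm _
      exact hm
  have e2 : ∀ᶠ m in (U : Filter ℕ), ∀ l, |Y l (w m)| / 6 + ε m * |w m 3| < 1 := by
    rw [eventually_all]
    intro l
    exact ev_Y hεU hlim l (hY l)
  filter_upwards [e0, e1, e2, ev_W hεU hlim hW, ev_3 hlim h3] with m m0 m1 m2 m3 m4
  have hne : w m ≠ 0 := by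
    intro h
    rw [h, X_zero] at m0
    exact lt_irrefl _ m0
  rcases hsep m _ (hw m) hne with ⟨l, h⟩ | ⟨l, h⟩ | h | h
  · by_cases hl : l = i
    · rw [hl, abs_of_pos m0] at h
      linarith
    · exact absurd h (not_le.2 (m1 l hl))
  · exact absurd h (not_le.2 (m2 l))
  · exact absurd h (not_le.2 m3)
  · exact absurd h (not_le.2 m4)

theorem contactY (hεU : Tendsto ε U (𝓝 0)) (hsep : ∀ m, ∀ v ∈ Λ m, v ≠ 0 → Sep (ε m) v)
    (hw : ∀ m, w m ∈ Λ m) (hlim : Tendsto w U (𝓝 ws)) (i : Fin 3) (hi : 0 < Y i ws)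
    (hX : ∀ l, |X l ws| < 4) (hY : ∀ l, l ≠ i → |Y l ws| < 6) (hW : |W ws| < 6)
    (h3 : |ws 3| < 1) :
    ∀ᶠ m in (U : Filter ℕ), 6 - 6 * ε m * |w m 3| ≤ Y i (w m) := by
  have e0 : ∀ᶠ m in (U : Filter ℕ), 0 < Y i (w m) :=
    (((Y_cont i).tendsto ws).comp hlim).eventually (lt_mem_nhds hi)
  have e1 : ∀ᶠ m in (U : Filter ℕ), ∀ l, l ≠ i → |Y l (w m)| / 6 + ε m * |w m 3| < 1 := by
    rw [eventually_all]
    intro l
    by_cases hl : l = i
    · exact Filter.Eventually.of_forall fun m h => absurd hl h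
    · filter_upwards [ev_Y hεU hlim l (hY l hl)] with m hm _
      exact hm
  have e2 : ∀ᶠ m in (U : Filter ℕ), ∀ l, |X l (w m)| / 4 + ε m * rw' (w m 3) < 1 := by
    rw [eventually_all]
    intro l
    exact ev_X hεU hlim l (hX l)
  filter_upwards [e0, e1, e2, ev_W hεU hlim hW, ev_3 hlim h3] with m m0 m1 m2 m3 m4
  have hne : w m ≠ 0 := by
    intro h
    rw [h, Y_zero] at m0
    exact lt_irrefl _ m0
  rcases hsep m _ (hw m) hne with ⟨l, h⟩ | ⟨l, h⟩ | h | h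
  · exact absurd h (not_le.2 (m2 l))
  · by_cases hl : l = i
    · rw [hl, abs_of_pos m0] at h
      linarith
    · exact absurd h (not_le.2 (m1 l hl))
  · exact absurd h (not_le.2 m3)
  · exact absurd h (not_le.2 m4)

/-- contacts over `e_i`: for the vector `p - n u` -/
theorem conX (hεU : Tendsto ε U (𝓝 0)) (hsep : ∀ m, ∀ v ∈ Λ m, v ≠ 0 → Sep (ε m) v)
    {p u : ℕ → Fin 4 → ℝ} {a : ℝ} {i : Fin 3} (hp : ∀ m, p m ∈ Λ m) (hu : ∀ m, u m ∈ Λ m)
    (hpl : Tendsto p U (𝓝 (E i a))) (hul : Tendsto u U (𝓝 V0)) (n : ℤ)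
    (ha : |a - n| < 1) :
    ∀ᶠ m in (U : Filter ℕ), -(4 * ε m * rw' ((p m - (n : ℝ) • u m) 3)) ≤
      (X i (p m) - p m 3 / u m 3 * X i (u m) - 4) +
        (p m - (n : ℝ) • u m) 3 / u m 3 * X i (u m) := by
  have hl : Tendsto (fun m => p m - (n : ℝ) • u m) U (𝓝 (E i a - (n : ℝ) • V0)) :=
    hpl.sub (hul.const_smul _)
  have hXe : ∀ l, X l (E i a - (n : ℝ) • V0) = X l (E i a) := by
    intro l
    rw [X_sub, X_smul, X_V0]
    ring
  have hWe : W (E i a - (n : ℝ) • V0) = 2 := by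
    rw [W_eq, hXe, hXe, hXe, ← W_eq, W_E]
  have h1 := contactX (w := fun m => p m - (n : ℝ) • u m) hεU hsep (fun m => by
    rw [Int.cast_smul_eq_zsmul]
    exact (Λ m).sub_mem (hp m) ((Λ m).zsmul_mem (hu m) _)) hl i (by
    rw [hXe, X_E_same]
    norm_num) (by
    intro l hl
    rw [hXe, X_E_ne hl]
    norm_num) (by
    intro l
    rw [Y_eq, hWe, hXe]
    by_cases h : l = i
    · rw [h, X_E_same]
      norm_num
    · rw [X_E_ne h]
      norm_num) (by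
    rw [hWe]
    norm_num) (by
    rw [Pi.sub_apply, Pi.smul_apply, E3, V03, smul_eq_mul, mul_one]
    exact ha)
  have hu3 : ∀ᶠ m in (U : Filter ℕ), 0 < u m 3 := by
    have := (tendsto_pi_nhds.mp hul) 3
    rw [V03] at this
    exact this.eventually (lt_mem_nhds one_pos)
  filter_upwards [h1, hu3] with m m1 m2
  have e : (X i (p m) - p m 3 / u m 3 * X i (u m) - 4) +
        (p m - (n : ℝ) • u m) 3 / u m 3 * X i (u m) = X i (p m - (n : ℝ) • u m) - 4 := by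
    rw [X_sub, X_smul, Pi.sub_apply, Pi.smul_apply, smul_eq_mul]
    field_simp
    ring
  rw [e]
  linarith

/-- contacts over `e_j + e_k`: for the vector `p + q - n u` -/
theorem conY (hεU : Tendsto ε U (𝓝 0)) (hsep : ∀ m, ∀ v ∈ Λ m, v ≠ 0 → Sep (ε m) v)
    {p q u : ℕ → Fin 4 → ℝ} {a b : ℝ} {i j k : Fin 3} (hij : i ≠ j) (hik : i ≠ k) (hjk : j ≠ k)
    (hp : ∀ m, p m ∈ Λ m) (hq : ∀ m, q m ∈ Λ m) (hu : ∀ m, u m ∈ Λ m)
    (hpl : Tendsto p U (𝓝 (E j a))) (hql : Tendsto q U (𝓝 (E k b)))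
    (hul : Tendsto u U (𝓝 V0)) (n : ℤ) (ha : |a + b - n| < 1) :
    ∀ᶠ m in (U : Filter ℕ), -(6 * ε m * |(p m + q m - (n : ℝ) • u m) 3|) ≤
      (Y i (p m + q m) - (p m 3 + q m 3) / u m 3 * Y i (u m) - 6) +
        (p m + q m - (n : ℝ) • u m) 3 / u m 3 * Y i (u m) := by
  have hl : Tendsto (fun m => p m + q m - (n : ℝ) • u m) U
      (𝓝 (E j a + E k b - (n : ℝ) • V0)) := (hpl.add hql).sub (hul.const_smul _)
  have hXe : ∀ l, X l (E j a + E k b - (n : ℝ) • V0) = X l (E j a) + X l (E k b) := by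
    intro l
    rw [X_sub, X_add, X_smul, X_V0]
    ring
  have hXi : X i (E j a + E k b - (n : ℝ) • V0) = -2 := by
    rw [hXe, X_E_ne hij, X_E_ne hik]
    norm_num
  have hXj : X j (E j a + E k b - (n : ℝ) • V0) = 3 := by
    rw [hXe, X_E_same, X_E_ne hjk]
    norm_num
  have hXk : X k (E j a + E k b - (n : ℝ) • V0) = 3 := by
    rw [hXe, X_E_same, X_E_ne hjk.symm]
    norm_num
  have hWe : W (E j a + E k b - (n : ℝ) • V0) = 4 := by
    rw [W_perm hij hik hjk, hXi, hXj, hXk]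
    norm_num
  have h1 := contactY (w := fun m => p m + q m - (n : ℝ) • u m) hεU hsep (fun m => by
    rw [Int.cast_smul_eq_zsmul]
    exact (Λ m).sub_mem ((Λ m).add_mem (hp m) (hq m)) ((Λ m).zsmul_mem (hu m) _)) hl i (by
    rw [Y_eq, hWe, hXi]
    norm_num) (by
    intro l
    rcases three_cases i j k hij hik hjk l with rfl | rfl | rfl
    · rw [hXi]
      norm_num
    · rw [hXj]
      norm_num
    · rw [hXk]
      norm_num) (by
    intro l hl
    rw [Y_eq, hWe]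
    rcases three_cases i j k hij hik hjk l with rfl | rfl | rfl
    · exact absurd rfl hl
    · rw [hXj]
      norm_num
    · rw [hXk]
      norm_num) (by
    rw [hWe]
    norm_num) (by
    rw [Pi.sub_apply, Pi.add_apply, Pi.smul_apply, E3, E3, V03, smul_eq_mul, mul_one]
    exact ha)
  have hu3 : ∀ᶠ m in (U : Filter ℕ), 0 < u m 3 := by
    have := (tendsto_pi_nhds.mp hul) 3
    rw [V03] at this
    exact this.eventually (lt_mem_nhds one_pos)
  filter_upwards [h1, hu3] with m m1 m2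
  have e : (Y i (p m + q m) - (p m 3 + q m 3) / u m 3 * Y i (u m) - 6) +
        (p m + q m - (n : ℝ) • u m) 3 / u m 3 * Y i (u m) =
      Y i (p m + q m - (n : ℝ) • u m) - 6 := by
    rw [Y_sub, Y_smul, Pi.sub_apply, Pi.smul_apply, Pi.add_apply, smul_eq_mul]
    field_simp
    ring
  rw [e]
  linarith

end

end Pool.Agent.H96.T4
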