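import Pool.Agent.H96.T4.Basic

/-!
# Dimension four (MP_c4753b_co): the non-lattice packing
-/

set_option autoImplicit false

open MeasureTheory Filter Topology Set
open scoped ENNReal

namespace Pool.Agent.H96.T4

/-- the index modulo `4` -/
def kk (Z : Fin 4 → ℤ) : ℤ := (Z 0 + Z 1 + Z 2) % 4

/-- the centres -/
noncomputable def tau (ε : ℝ) (Z : Fin 4 → ℤ) : Fin 4 → ℝ := fun i =>
  if i = 3 then (Z 3 : ℝ) + ((kk Z / 2 : ℤ) : ℝ) / 2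
  else (1 - ε / 2) * Z i + ε / 25 * ((kk Z % 2 : ℤ) : ℝ)

theorem tau_lt (ε : ℝ) (Z : Fin 4 → ℤ) (i : Fin 4) (h : i ≠ 3) :
    tau ε Z i = (1 - ε / 2) * Z i + ε / 25 * ((kk Z % 2 : ℤ) : ℝ) := by
  unfold tau
  rw [if_neg h]

theorem tau_3 (ε : ℝ) (Z : Fin 4 → ℤ) :
    tau ε Z 3 = (Z 3 : ℝ) + ((kk Z / 2 : ℤ) : ℝ) / 2 := by
  unfold tau
  rw [if_pos rfl]

theorem abs_ge_of {t : ℝ} {n : ℤ} {c : ℝ} (hn : c ≤ |(n : ℝ)|) (h : t = n) : c ≤ |t| := by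
  rw [h]
  exact hn

theorem cast_abs_ge {n : ℤ} {m : ℤ} (h : m ≤ |n|) : (m : ℝ) ≤ |(n : ℝ)| := by
  rw [← Int.cast_abs]
  exact_mod_cast h

/-- far vectors are separated -/
theorem far {ε : ℝ} (hε : 0 < ε) (hε1 : ε ≤ 1 / 10) {D : Fin 4 → ℝ} {z0 z1 z2 o : ℤ}
    (ho : |o| ≤ 1)
    (h0 : D 0 = (1 - ε / 2) * z0 + ε / 25 * o) (h1 : D 1 = (1 - ε / 2) * z1 + ε / 25 * o)
    (h2 : D 2 = (1 - ε / 2) * z2 + ε / 25 * o)
    (h : 5 ≤ |4 * z0 - z1 - z2| ∨ 5 ≤ |4 * z1 - z0 - z2| ∨ 5 ≤ |4 * z2 - z0 - z1| ∨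
      7 ≤ |3 * z1 + 3 * z2 - 2 * z0| ∨ 7 ≤ |3 * z0 + 3 * z2 - 2 * z1| ∨
      7 ≤ |3 * z0 + 3 * z1 - 2 * z2| ∨ 8 ≤ |2 * (z0 + z1 + z2)|) : Sep ε D := by
  have hos : |(o : ℝ)| ≤ 1 := by
    rw [← Int.cast_abs]
    exact_mod_cast ho
  have key : ∀ (n : ℤ) (t c : ℝ) (m : ℤ), 0 ≤ c → c ≤ 6 → t = (1 - ε / 2) * n + c * ε / 25 * o →
      m ≤ |n| → 0 ≤ m → (m : ℝ) * (1 - ε / 2) - c * ε / 25 ≤ |t| := by
    intro n t c m hc hc6 ht hm hm0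
    have h3 := cast_abs_ge hm
    have h4 : |(1 - ε / 2) * n| ≤ |t| + |c * ε / 25 * o| := by
      have e : (1 - ε / 2) * n = t - c * ε / 25 * o := by rw [ht]; ring
      rw [e]
      exact abs_sub _ _
    rw [abs_mul, abs_mul, abs_of_nonneg (by linarith : (0 : ℝ) ≤ 1 - ε / 2),
      abs_of_nonneg (by positivity : (0 : ℝ) ≤ c * ε / 25)] at h4
    have h5 : (1 - ε / 2) * (m : ℝ) ≤ (1 - ε / 2) * |(n : ℝ)| :=
      mul_le_mul_of_nonneg_left h3 (by linarith)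
    have h6 : c * ε / 25 * |(o : ℝ)| ≤ c * ε / 25 * 1 :=
      mul_le_mul_of_nonneg_left hos (by positivity)
    linarith
  have hr : 0 ≤ rw' (D 3) := le_trans (by norm_num) (rw_ge _)
  have hrε := mul_nonneg hε.le hr
  have hyε := mul_nonneg hε.le (abs_nonneg (D 3))
  rcases h with h | h | h | h | h | h | h
  · refine Or.inl ⟨0, ?_⟩
    have := key _ (X 0 D) 2 5 (by norm_num) (by norm_num)
      (by rw [X0, h0, h1, h2]; push_cast; ring) h (by norm_num)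
    push_cast at this
    linarith
  · refine Or.inl ⟨1, ?_⟩
    have := key _ (X 1 D) 2 5 (by norm_num) (by norm_num)
      (by rw [X1, h0, h1, h2]; push_cast; ring) h (by norm_num)
    push_cast at this
    linarith
  · refine Or.inl ⟨2, ?_⟩
    have := key _ (X 2 D) 2 5 (by norm_num) (by norm_num)
      (by rw [X2, h0, h1, h2]; push_cast; ring) h (by norm_num)
    push_cast at this
    linarith
  · refine Or.inr (Or.inl ⟨0, ?_⟩)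
    have := key _ (Y 0 D) 4 7 (by norm_num) (by norm_num)
      (by rw [Y0, h0, h1, h2]; push_cast; ring) h (by norm_num)
    push_cast at this
    linarith
  · refine Or.inr (Or.inl ⟨1, ?_⟩)
    have := key _ (Y 1 D) 4 7 (by norm_num) (by norm_num)
      (by rw [Y1, h0, h1, h2]; push_cast; ring) h (by norm_num)
    push_cast at this
    linarith
  · refine Or.inr (Or.inl ⟨2, ?_⟩)
    have := key _ (Y 2 D) 4 7 (by norm_num) (by norm_num)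
      (by rw [Y2, h0, h1, h2]; push_cast; ring) h (by norm_num)
    push_cast at this
    linarith
  · refine Or.inr (Or.inr (Or.inl ?_))
    have := key _ (W D) 6 8 (by norm_num) (by norm_num)
      (by rw [W', h0, h1, h2]; push_cast; ring) h (by norm_num)
    push_cast at this
    linarith

/-- half integers -/
theorem half_abs (n : ℤ) (h : ℤ) (hh : h = 1 ∨ h = -1) : 1 / 2 ≤ |(n : ℝ) + (h : ℝ) / 2| := by
  have h1 : (1 : ℤ) ≤ |2 * n + h| := by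
    rcases hh with rfl | rfl
    · rw [le_abs]
      omega
    · rw [le_abs]
      omega
  have h2 := cast_abs_ge h1
  have e : (n : ℝ) + (h : ℝ) / 2 = ((2 * n + h : ℤ) : ℝ) / 2 := by
    push_cast
    ring
  rw [e, abs_div, abs_two]
  push_cast at h2 ⊢
  linarith

theorem int_abs (n : ℤ) (h : n ≠ 0) : 1 ≤ |(n : ℝ)| := by
  have h1 : (1 : ℤ) ≤ |n| := Int.one_le_abs h
  have h2 := cast_abs_ge h1
  push_cast at h2
  exact h2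

/-- vectors over `e_i` -/
theorem edge_X {ε : ℝ} (hε : 0 < ε) {D : Fin 4 → ℝ} {z3 o h : ℤ} (i : Fin 3)
    (hX : X i D = 4 * (1 - ε / 2) + 2 * ε / 25 * o) (hD : D 3 = z3 + (h : ℝ) / 2)
    (hc : (o = 1 ∧ h = 0) ∨ (o = -1 ∧ (h = 1 ∨ h = -1))) : Sep ε D := by
  rcases hc with ⟨ho, hh⟩ | ⟨ho, hh⟩
  · by_cases hz : z3 = 0
    · refine Or.inl ⟨i, ?_⟩
      have h3 : D 3 = 0 := by
        rw [hD, hz, hh]
        norm_num
      rw [h3, rw_small (by norm_num), hX, ho]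
      have := le_abs_self (4 * (1 - ε / 2) + 2 * ε / 25 * ((1 : ℤ) : ℝ))
      push_cast at this ⊢
      linarith
    · refine Or.inr (Or.inr (Or.inr ?_))
      have h3 : D 3 = z3 := by
        rw [hD, hh]
        norm_num
      rw [h3]
      exact int_abs z3 hz
  · refine Or.inl ⟨i, ?_⟩
    have h3 := half_abs z3 h hh
    rw [← hD] at h3
    rw [rw_big (by linarith), hX, ho]
    have := le_abs_self (4 * (1 - ε / 2) + 2 * ε / 25 * (((-1 : ℤ)) : ℝ))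
    push_cast at this ⊢
    nlinarith

/-- vectors over `e_j + e_k` -/
theorem edge_Y {ε : ℝ} (hε : 0 < ε) {D : Fin 4 → ℝ} {z3 h : ℤ} (i : Fin 3)
    (hX : Y i D = 6 * (1 - ε / 2)) (hD : D 3 = z3 + (h : ℝ) / 2)
    (hc : h = 1 ∨ h = -1) : Sep ε D := by
  refine Or.inr (Or.inl ⟨i, ?_⟩)
  have h3 := half_abs z3 h hc
  rw [← hD] at h3
  rw [hX]
  have := le_abs_self (6 * (1 - ε / 2))
  nlinarith

/-- vectors over `e_0 + e_1 + e_2` -/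
theorem edge_W {ε : ℝ} (hε : 0 < ε) {D : Fin 4 → ℝ} {o : ℤ}
    (hX : W D = 6 * (1 - ε / 2) + 6 * ε / 25 * o) (hc : |o| ≤ 1) : Sep ε D := by
  refine Or.inr (Or.inr (Or.inl ?_))
  rw [hX]
  have := le_abs_self (6 * (1 - ε / 2) + 6 * ε / 25 * (o : ℝ))
  have hos : |(o : ℝ)| ≤ 1 := by
    rw [← Int.cast_abs]
    exact_mod_cast hc
  have h2 := (abs_le.1 hos).1
  nlinarith

theorem tau_pos {ε : ℝ} (hε : 0 < ε) (Z Z' : Fin 4 → ℤ) (z0 z1 z2 : ℤ)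
    (h0 : Z 0 - Z' 0 = z0) (h1 : Z 1 - Z' 1 = z1) (h2 : Z 2 - Z' 2 = z2)
    (hz : (z0 = 1 ∧ z1 = 0 ∧ z2 = 0) ∨ (z0 = 0 ∧ z1 = 1 ∧ z2 = 0) ∨ (z0 = 0 ∧ z1 = 0 ∧ z2 = 1) ∨
      (z0 = 0 ∧ z1 = 1 ∧ z2 = 1) ∨ (z0 = 1 ∧ z1 = 0 ∧ z2 = 1) ∨ (z0 = 1 ∧ z1 = 1 ∧ z2 = 0) ∨
      (z0 = 1 ∧ z1 = 1 ∧ z2 = 1)) : Sep ε (tau ε Z - tau ε Z') := by
  have e0 : (tau ε Z - tau ε Z') 0 = (1 - ε / 2) * z0 +
      ε / 25 * ((kk Z % 2 - kk Z' % 2 : ℤ) : ℝ) := by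
    rw [Pi.sub_apply, tau_lt _ _ _ (by decide), tau_lt _ _ _ (by decide), ← h0]
    push_cast
    ring
  have e1 : (tau ε Z - tau ε Z') 1 = (1 - ε / 2) * z1 +
      ε / 25 * ((kk Z % 2 - kk Z' % 2 : ℤ) : ℝ) := by
    rw [Pi.sub_apply, tau_lt _ _ _ (by decide), tau_lt _ _ _ (by decide), ← h1]
    push_cast
    ring
  have e2 : (tau ε Z - tau ε Z') 2 = (1 - ε / 2) * z2 +
      ε / 25 * ((kk Z % 2 - kk Z' % 2 : ℤ) : ℝ) := by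
    rw [Pi.sub_apply, tau_lt _ _ _ (by decide), tau_lt _ _ _ (by decide), ← h2]
    push_cast
    ring
  have e3 : (tau ε Z - tau ε Z') 3 = ((Z 3 - Z' 3 : ℤ) : ℝ) +
      ((kk Z / 2 - kk Z' / 2 : ℤ) : ℝ) / 2 := by
    rw [Pi.sub_apply, tau_3, tau_3]
    push_cast
    ring
  set D := tau ε Z - tau ε Z' with hD
  have k1 : kk Z = (Z 0 + Z 1 + Z 2) % 4 := rfl
  have k2 : kk Z' = (Z' 0 + Z' 1 + Z' 2) % 4 := rfl
  rcases hz with ⟨r0, r1, r2⟩ | ⟨r0, r1, r2⟩ | ⟨r0, r1, r2⟩ | ⟨r0, r1, r2⟩ | ⟨r0, r1, r2⟩ |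
    ⟨r0, r1, r2⟩ | ⟨r0, r1, r2⟩
  · refine edge_X hε (o := kk Z % 2 - kk Z' % 2) 0 ?_ e3 (by omega)
    rw [X0, e0, e1, e2, r0, r1, r2]
    push_cast
    ring
  · refine edge_X hε (o := kk Z % 2 - kk Z' % 2) 1 ?_ e3 (by omega)
    rw [X1, e0, e1, e2, r0, r1, r2]
    push_cast
    ring
  · refine edge_X hε (o := kk Z % 2 - kk Z' % 2) 2 ?_ e3 (by omega)
    rw [X2, e0, e1, e2, r0, r1, r2]
    push_cast
    ring
  · refine edge_Y hε 0 ?_ e3 (by omega)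
    have ho : kk Z % 2 - kk Z' % 2 = 0 := by omega
    rw [ho] at e0 e1 e2
    rw [Y0, e0, e1, e2, r0, r1, r2]
    push_cast
    ring
  · refine edge_Y hε 1 ?_ e3 (by omega)
    have ho : kk Z % 2 - kk Z' % 2 = 0 := by omega
    rw [ho] at e0 e1 e2
    rw [Y1, e0, e1, e2, r0, r1, r2]
    push_cast
    ring
  · refine edge_Y hε 2 ?_ e3 (by omega)
    have ho : kk Z % 2 - kk Z' % 2 = 0 := by omega
    rw [ho] at e0 e1 e2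
    rw [Y2, e0, e1, e2, r0, r1, r2]
    push_cast
    ring
  · refine edge_W hε (o := kk Z % 2 - kk Z' % 2) ?_ ?_
    · rw [W', e0, e1, e2, r0, r1, r2]
      push_cast
      ring
    · rw [abs_le]
      omega

/-- small integer vectors -/
theorem int_cases (z0 z1 z2 : ℤ) :
    (5 ≤ |4 * z0 - z1 - z2| ∨ 5 ≤ |4 * z1 - z0 - z2| ∨ 5 ≤ |4 * z2 - z0 - z1| ∨
      7 ≤ |3 * z1 + 3 * z2 - 2 * z0| ∨ 7 ≤ |3 * z0 + 3 * z2 - 2 * z1| ∨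
      7 ≤ |3 * z0 + 3 * z1 - 2 * z2| ∨ 8 ≤ |2 * (z0 + z1 + z2)|) ∨
    (z0 = 0 ∧ z1 = 0 ∧ z2 = 0) ∨
    ((z0 = 1 ∧ z1 = 0 ∧ z2 = 0) ∨ (z0 = 0 ∧ z1 = 1 ∧ z2 = 0) ∨ (z0 = 0 ∧ z1 = 0 ∧ z2 = 1) ∨
      (z0 = 0 ∧ z1 = 1 ∧ z2 = 1) ∨ (z0 = 1 ∧ z1 = 0 ∧ z2 = 1) ∨ (z0 = 1 ∧ z1 = 1 ∧ z2 = 0) ∨
      (z0 = 1 ∧ z1 = 1 ∧ z2 = 1)) ∨
    ((-z0 = 1 ∧ -z1 = 0 ∧ -z2 = 0) ∨ (-z0 = 0 ∧ -z1 = 1 ∧ -z2 = 0) ∨
      (-z0 = 0 ∧ -z1 = 0 ∧ -z2 = 1) ∨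
      (-z0 = 0 ∧ -z1 = 1 ∧ -z2 = 1) ∨ (-z0 = 1 ∧ -z1 = 0 ∧ -z2 = 1) ∨
      (-z0 = 1 ∧ -z1 = 1 ∧ -z2 = 0) ∨ (-z0 = 1 ∧ -z1 = 1 ∧ -z2 = 1)) := by
  by_contra hcon
  rw [not_or] at hcon
  obtain ⟨h1, h2⟩ := hcon
  simp only [not_or, not_le, abs_lt] at h1
  obtain ⟨⟨a1, a2⟩, ⟨a3, a4⟩, ⟨a5, a6⟩, ⟨a7, a8⟩, ⟨a9, a10⟩, ⟨a11, a12⟩, ⟨a13, a14⟩⟩ := h1
  have b0 : -1 ≤ z0 ∧ z0 ≤ 1 := by omega
  have b1 : -1 ≤ z1 ∧ z1 ≤ 1 := by omega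
  have b2 : -1 ≤ z2 ∧ z2 ≤ 1 := by omega
  apply h2
  obtain ⟨c0, c1⟩ := b0
  obtain ⟨c2, c3⟩ := b1
  obtain ⟨c4, c5⟩ := b2
  interval_cases z0 <;> interval_cases z1 <;> interval_cases z2 <;> simp_all

/-- the packing -/
theorem tau_sep {ε : ℝ} (hε : 0 < ε) (hε1 : ε ≤ 1 / 10) (Z Z' : Fin 4 → ℤ) (hne : Z ≠ Z') :
    Sep ε (tau ε Z - tau ε Z') := by
  rcases int_cases (Z 0 - Z' 0) (Z 1 - Z' 1) (Z 2 - Z' 2) with h | h | h | h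
  · have hk : |kk Z % 2 - kk Z' % 2| ≤ 1 := by
      rw [abs_le]
      have k1 : kk Z = (Z 0 + Z 1 + Z 2) % 4 := rfl
      have k2 : kk Z' = (Z' 0 + Z' 1 + Z' 2) % 4 := rfl
      omega
    refine far hε hε1 hk ?_ ?_ ?_ h
    · rw [Pi.sub_apply, tau_lt _ _ _ (by decide), tau_lt _ _ _ (by decide)]
      push_cast
      ring
    · rw [Pi.sub_apply, tau_lt _ _ _ (by decide), tau_lt _ _ _ (by decide)]
      push_cast
      ring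
    · rw [Pi.sub_apply, tau_lt _ _ _ (by decide), tau_lt _ _ _ (by decide)]
      push_cast
      ring
  · obtain ⟨h0, h1, h2⟩ := h
    have h3 : Z 3 - Z' 3 ≠ 0 := by
      intro h3
      apply hne
      funext i
      fin_cases i
      · show Z 0 = Z' 0
        omega
      · show Z 1 = Z' 1
        omega
      · show Z 2 = Z' 2
        omega
      · show Z 3 = Z' 3
        omega
    refine Or.inr (Or.inr (Or.inr ?_))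
    have k1 : kk Z = (Z 0 + Z 1 + Z 2) % 4 := rfl
    have k2 : kk Z' = (Z' 0 + Z' 1 + Z' 2) % 4 := rfl
    have hk : kk Z = kk Z' := by omega
    rw [Pi.sub_apply, tau_3, tau_3, hk]
    have e : (Z 3 : ℝ) + ((kk Z' / 2 : ℤ) : ℝ) / 2 - ((Z' 3 : ℝ) + ((kk Z' / 2 : ℤ) : ℝ) / 2) =
        ((Z 3 - Z' 3 : ℤ) : ℝ) := by
      push_cast
      ring
    rw [e]
    exact int_abs _ h3
  · exact tau_pos hε Z Z' _ _ _ rfl rfl rfl h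
  · have := tau_pos hε Z' Z (-(Z 0 - Z' 0)) (-(Z 1 - Z' 1)) (-(Z 2 - Z' 2)) (by ring) (by ring)
      (by ring) h
    rw [← Sep_neg, neg_sub] at this
    exact this

end Pool.Agent.H96.T4
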