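import Pool.Agent.H96.T4.Class

/-!
# Dimension four (MP_c4753b_co): the limit is not a tiling of the first kind
-/

set_option autoImplicit false

open MeasureTheory Filter Topology Set
open scoped ENNReal

namespace Pool.Agent.H96.T4

open H947TP

/-- cells times intervals -/
def Cs (r c t : ℝ) : Set (Fin 4 → ℝ) := {v | InP r v ∧ v 3 ∈ Ico c (c + t)}

theorem vol_Cs {r c t : ℝ} (hr : 0 < r) (ht : 0 < t) :
    ENNReal.ofReal (r ^ 3 * t) ≤ volume (Cs r c t) := by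
  set f : (Fin 4 → ℝ) →ₗ[ℝ] (Fin 4 → ℝ) := Matrix.toLin' (Matrix.diagonal ![r, r, r, t]) with hf
  have hfa : ∀ v k, f v k = ![r, r, r, t] k * v k := by
    intro v k
    rw [hf, Matrix.toLin'_apply, Matrix.mulVec_diagonal]
  have hdet : LinearMap.det f = r ^ 3 * t := by
    rw [hf, LinearMap.det_toLin', Matrix.det_diagonal, Fin.prod_univ_four]
    simp only [Matrix.cons_val_zero, Matrix.cons_val_one, Matrix.cons_val]
    ring
  have f0 : ∀ v, f v 0 = r * v 0 := fun v => hfa v 0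
  have f1 : ∀ v, f v 1 = r * v 1 := fun v => hfa v 1
  have f2 : ∀ v, f v 2 = r * v 2 := fun v => hfa v 2
  have f3 : ∀ v, f v 3 = t * v 3 := fun v => hfa v 3
  have hX : ∀ v i, X i (f v) = r * X i v := by
    intro v i
    fin_cases i
    · show X 0 (f v) = r * X 0 v
      rw [X0, X0, f0, f1, f2]
      ring
    · show X 1 (f v) = r * X 1 v
      rw [X1, X1, f0, f1, f2]
      ring
    · show X 2 (f v) = r * X 2 v
      rw [X2, X2, f0, f1, f2]
      ring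
  have hW : ∀ v, W (f v) = r * W v := by
    intro v
    rw [W_eq, W_eq, hX, hX, hX]
    ring
  set w : Fin 4 → ℝ := -((c + t / 2) • V0) with hw
  have hwX : ∀ i, X i w = 0 := by
    intro i
    rw [hw, X_neg, X_smul, X_V0]
    ring
  have hwW : W w = 0 := by
    rw [W_eq, hwX, hwX, hwX]
    ring
  have hw3 : w 3 = -(c + t / 2) := by
    rw [hw, Pi.neg_apply, Pi.smul_apply, V03, smul_eq_mul, mul_one]
  have hsub : f '' Cr 1 ⊆ {v | InP r v ∧ v 3 ∈ Ico (-(t / 2)) (t / 2)} := by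
    rintro _ ⟨v, ⟨⟨h1, h2, h3⟩, h4⟩, rfl⟩
    refine ⟨⟨?_, ?_, ?_⟩, ?_⟩
    · intro i
      rw [hX, abs_mul, abs_of_pos hr]
      nlinarith [h1 i]
    · intro i
      have := h2 i
      rw [Y_eq] at this
      rw [Y_eq, hX, hW, ← mul_sub, abs_mul, abs_of_pos hr]
      nlinarith
    · rw [hW, abs_mul, abs_of_pos hr]
      nlinarith
    · rw [f3]
      constructor <;> nlinarith [h4.1, h4.2]
  have hpre : (fun v => w + v) ⁻¹' {v | InP r v ∧ v 3 ∈ Ico (-(t / 2)) (t / 2)} = Cs r c t := by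
    ext v
    have e1 : InP r (w + v) ↔ InP r v := by
      unfold InP
      simp only [X_add, Y_eq, W_add, hwX, hwW, zero_add]
    have e2 : (w + v) 3 = v 3 - (c + t / 2) := by
      rw [Pi.add_apply, hw3]
      ring
    show (InP r (w + v) ∧ (w + v) 3 ∈ Ico (-(t / 2)) (t / 2)) ↔ (InP r v ∧ v 3 ∈ Ico c (c + t))
    rw [e1, e2, mem_Ico, mem_Ico]
    constructor
    · rintro ⟨h1, h2, h3⟩
      exact ⟨h1, by linarith, by linarith⟩
    · rintro ⟨h1, h2, h3⟩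
      exact ⟨h1, by linarith, by linarith⟩
  rw [← hpre, measure_preimage_add]
  refine le_trans ?_ (measure_mono hsub)
  rw [MeasureTheory.Measure.addHaar_image_linearMap, hdet, abs_of_pos (by positivity)]
  calc ENNReal.ofReal (r ^ 3 * t) = ENNReal.ofReal (r ^ 3 * t) * 1 := (mul_one _).symm
    _ ≤ _ := by gcongr; exact vol_C1

/-- boxes in the coordinates `X 0, X 1, W` and the last one -/
theorem vol_box (lo hi : Fin 4 → ℝ) (h : ∀ i, lo i ≤ hi i) :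
    volume {v : Fin 4 → ℝ | (lo 0 ≤ X 0 v ∧ X 0 v ≤ hi 0) ∧ (lo 1 ≤ X 1 v ∧ X 1 v ≤ hi 1) ∧
      (lo 2 ≤ W v ∧ W v ≤ hi 2) ∧ (lo 3 ≤ v 3 ∧ v 3 ≤ hi 3)} =
    ENNReal.ofReal ((hi 0 - lo 0) * (hi 1 - lo 1) * (hi 2 - lo 2) * (hi 3 - lo 3) / 50) := by
  set M : Matrix (Fin 4) (Fin 4) ℝ := Matrix.of ![![4, -1, -1, 0], ![-1, 4, -1, 0],
    ![2, 2, 2, 0], ![0, 0, 0, 1]] with hM
  set f : (Fin 4 → ℝ) →ₗ[ℝ] (Fin 4 → ℝ) := Matrix.toLin' M with hf
  have hdet : LinearMap.det f = 50 := by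
    rw [hf, LinearMap.det_toLin', hM]
    simp [Matrix.det_succ_row_zero, Fin.sum_univ_succ, Matrix.submatrix, Fin.succAbove]
    norm_num
  have f0 : ∀ v, f v 0 = X 0 v := by
    intro v
    rw [hf, Matrix.toLin'_apply, Matrix.mulVec, X0]
    simp [dotProduct, Fin.sum_univ_four, hM]
    ring
  have f1 : ∀ v, f v 1 = X 1 v := by
    intro v
    rw [hf, Matrix.toLin'_apply, Matrix.mulVec, X1]
    simp [dotProduct, Fin.sum_univ_four, hM]
    ring
  have f2 : ∀ v, f v 2 = W v := by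
    intro v
    rw [hf, Matrix.toLin'_apply, Matrix.mulVec, W']
    simp [dotProduct, Fin.sum_univ_four, hM]
    ring
  have f3 : ∀ v, f v 3 = v 3 := by
    intro v
    rw [hf, Matrix.toLin'_apply, Matrix.mulVec]
    simp [dotProduct, Fin.sum_univ_four, hM]
  have hpre : {v : Fin 4 → ℝ | (lo 0 ≤ X 0 v ∧ X 0 v ≤ hi 0) ∧ (lo 1 ≤ X 1 v ∧ X 1 v ≤ hi 1) ∧
      (lo 2 ≤ W v ∧ W v ≤ hi 2) ∧ (lo 3 ≤ v 3 ∧ v 3 ≤ hi 3)} = f ⁻¹' (Icc lo hi) := by
    ext v
    rw [mem_preimage, mem_Icc, Pi.le_def, Pi.le_def]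
    constructor
    · rintro ⟨⟨h1, h2⟩, ⟨h3, h4⟩, ⟨h5, h6⟩, ⟨h7, h8⟩⟩
      constructor
      · intro i
        fin_cases i
        · show lo 0 ≤ f v 0
          rw [f0]
          exact h1
        · show lo 1 ≤ f v 1
          rw [f1]
          exact h3
        · show lo 2 ≤ f v 2
          rw [f2]
          exact h5
        · show lo 3 ≤ f v 3
          rw [f3]
          exact h7
      · intro i
        fin_cases i
        · show f v 0 ≤ hi 0
          rw [f0]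
          exact h2
        · show f v 1 ≤ hi 1
          rw [f1]
          exact h4
        · show f v 2 ≤ hi 2
          rw [f2]
          exact h6
        · show f v 3 ≤ hi 3
          rw [f3]
          exact h8
    · rintro ⟨h1, h2⟩
      have a0 := h1 0
      have a1 := h1 1
      have a2 := h1 2
      have a3 := h1 3
      have b0 := h2 0
      have b1 := h2 1
      have b2 := h2 2
      have b3 := h2 3
      rw [f0] at a0 b0
      rw [f1] at a1 b1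
      rw [f2] at a2 b2
      rw [f3] at a3 b3
      exact ⟨⟨a0, b0⟩, ⟨a1, b1⟩, ⟨a2, b2⟩, ⟨a3, b3⟩⟩
  rw [hpre, MeasureTheory.Measure.addHaar_preimage_linearMap _ (by rw [hdet]; norm_num), hdet,
    Real.volume_Icc_pi, Fin.prod_univ_four, ← ENNReal.ofReal_mul (by linarith [h 0]),
    ← ENNReal.ofReal_mul (mul_nonneg (by linarith [h 0]) (by linarith [h 1])),
    ← ENNReal.ofReal_mul (mul_nonneg (mul_nonneg (by linarith [h 0]) (by linarith [h 1]))
      (by linarith [h 2])), ← ENNReal.ofReal_mul (abs_nonneg _)]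
  congr 1
  rw [abs_of_pos (by norm_num)]
  ring

/-- integer translates of the standard tile -/
theorem E_int (z : Fin 4 → ℤ) (x : Fin 4 → ℝ) (i : Fin 3) :
    X i (x - ((z 0 : ℝ) • E 0 0 + (z 1 : ℝ) • E 1 0 + (z 2 : ℝ) • E 2 0)) =
      X i (fun l => x l - z l) := by
  rw [X_sub, X_add, X_add, X_smul, X_smul, X_smul]
  fin_cases i
  · show X 0 x - (z 0 * X 0 (E 0 0) + z 1 * X 0 (E 1 0) + z 2 * X 0 (E 2 0)) = X 0 _
    rw [X_E_same, X_E_ne (by decide), X_E_ne (by decide), X0, X0]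
    ring
  · show X 1 x - (z 0 * X 1 (E 0 0) + z 1 * X 1 (E 1 0) + z 2 * X 1 (E 2 0)) = X 1 _
    rw [X_E_same, X_E_ne (by decide), X_E_ne (by decide), X1, X1]
    ring
  · show X 2 x - (z 0 * X 2 (E 0 0) + z 1 * X 2 (E 1 0) + z 2 * X 2 (E 2 0)) = X 2 _
    rw [X_E_same, X_E_ne (by decide), X_E_ne (by decide), X2, X2]
    ring

/-- vectors of the limit are horizontal or long -/
theorem flat {L : AddSubgroup (Fin 4 → ℝ)} (hS : ∀ v ∈ L, v ≠ 0 → Sep0 v)
    (hE : ∀ i, E i 0 ∈ L) {x : Fin 4 → ℝ} (hx : x ∈ L) (h3 : |x 3| < 1) : x 3 = 0 := by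
  obtain ⟨z, hz⟩ := cover x
  set v := x - ((z 0 : ℝ) • E 0 0 + (z 1 : ℝ) • E 1 0 + (z 2 : ℝ) • E 2 0) with hv
  have hvX : ∀ i, X i v = X i (fun l => x l - z l) := fun i => E_int z x i
  have hvW : W v = W (fun l => x l - z l) := by
    rw [W_eq, W_eq, hvX, hvX, hvX]
  have hv3 : v 3 = x 3 := by
    rw [hv, Pi.sub_apply, Pi.add_apply, Pi.add_apply, Pi.smul_apply, Pi.smul_apply, Pi.smul_apply,
      E3, E3, E3]
    simp
  have hvL : v ∈ L := by
    rw [hv, Int.cast_smul_eq_zsmul, Int.cast_smul_eq_zsmul, Int.cast_smul_eq_zsmul]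
    exact L.sub_mem hx (L.add_mem (L.add_mem (L.zsmul_mem (hE 0) _) (L.zsmul_mem (hE 1) _))
      (L.zsmul_mem (hE 2) _))
  have hv0 : v = 0 := by
    by_contra hne
    rcases hS v hvL hne with ⟨i, h⟩ | ⟨i, h⟩ | h | h
    · rw [hvX] at h
      linarith [hz.1 i]
    · rw [Y_eq, hvX, hvW, ← Y_eq] at h
      linarith [hz.2.1 i]
    · rw [hvW] at h
      linarith [hz.2.2]
    · rw [hv3] at h
      linarith
  rw [← hv3, hv0, Pi.zero_apply]

theorem type0_key {U : Ultrafilter ℕ} {ε : ℕ → ℝ} {Λ : ℕ → AddSubgroup (Fin 4 → ℝ)}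
    (hεU : Tendsto ε U (𝓝 0)) (hsep : ∀ m, ∀ v ∈ Λ m, v ≠ 0 → Sep (ε m) v)
    (hE : ∀ i, E i 0 ∈ Lim U Λ) :
    ∀ᶠ m in (U : Filter ℕ), ∀ v ∈ Λ m, InP 2 v → |v 3| ≤ 249 / 250 → |v 3| < 2 / 5 := by
  by_contra hcon
  rw [← Ultrafilter.eventually_not] at hcon
  have hcon' : ∀ᶠ m in (U : Filter ℕ), ∃ v : Fin 4 → ℝ, v ∈ Λ m ∧ InP 2 v ∧
      |v 3| ≤ 249 / 250 ∧ 2 / 5 ≤ |v 3| := by
    filter_upwards [hcon] with m hm
    push Not at hm
    obtain ⟨v, hv, h1, h2, h3⟩ := hm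
    exact ⟨v, hv, h1, h2, h3⟩
  classical
  let w : ℕ → Fin 4 → ℝ := fun m =>
    if h : ∃ v : Fin 4 → ℝ, v ∈ Λ m ∧ InP 2 v ∧ |v 3| ≤ 249 / 250 ∧ 2 / 5 ≤ |v 3| then h.choose
    else 0
  have hw : ∀ᶠ m in (U : Filter ℕ), w m ∈ Λ m ∧ InP 2 (w m) ∧ |w m 3| ≤ 249 / 250 ∧
      2 / 5 ≤ |w m 3| := by
    filter_upwards [hcon'] with m hm
    simp only [w, dif_pos hm]
    exact hm.choose_spec
  have hbd : ∀ᶠ m in (U : Filter ℕ), w m ∈ Λ m ∧ ∀ l, |w m l| ≤ 2 := by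
    filter_upwards [hw] with m hm
    refine ⟨hm.1, fun l => ?_⟩
    by_cases hl : l = 3
    · subst hl
      linarith [hm.2.2.1]
    · exact InP_coord hm.2.1 l hl
  obtain ⟨x, hx, hlim⟩ := L3 4 Λ U 2 w hbd
  have h3 := ((tendsto_pi_nhds.mp hlim) 3).abs
  have b1 : |x 3| ≤ 249 / 250 := le_of_tendsto h3 (hw.mono fun m hm => hm.2.2.1)
  have b2 : 2 / 5 ≤ |x 3| := ge_of_tendsto h3 (hw.mono fun m hm => hm.2.2.2)
  have b3 := flat (lim_sep hεU hsep) hE hx (by linarith)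
  rw [b3, abs_zero] at b2
  norm_num at b2

/-- the middle part of the fundamental domain -/
def Mid (r r0 : ℝ) : Set (Fin 4 → ℝ) :=
  {v | InP r v ∧ |W v| ≤ 3 * r0 ∧ v 3 ∈ Ico (-(62 / 125) : ℝ) (62 / 125)}

theorem Mid_meas (r r0 : ℝ) : MeasurableSet (Mid r r0) := by
  have h1 : IsClosed {v : Fin 4 → ℝ | |W v| ≤ 3 * r0} :=
    isClosed_le W_cont.abs continuous_const
  exact (InP_closed r).measurableSet.inter (h1.measurableSet.inter
    (measurable_pi_apply 3 measurableSet_Ico))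

theorem Cs_meas (r c t : ℝ) : MeasurableSet (Cs r c t) :=
  (InP_closed r).measurableSet.inter (measurable_pi_apply 3 measurableSet_Ico)

/-- the volume of the middle part -/
theorem vol_Mid {ε : ℝ} (hε : 0 < ε) (hε1 : ε ≤ 1 / 1000) :
    ENNReal.ofReal ((1 - 241 / 500 * ε) ^ 3 * (124 / 125) - 29 / 1000 * ε * (124 / 125)) ≤
      volume (Mid (1 - 241 / 500 * ε) (1 - 271 / 500 * ε)) := by
  set r : ℝ := 1 - 241 / 500 * ε with hr
  set r0 : ℝ := 1 - 271 / 500 * ε with hr0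
  have hrpos : 0 < r := by rw [hr]; linarith
  have hr1 : r ≤ 1 := by rw [hr]; linarith
  set lo : Fin 4 → ℝ := ![-(9 / 50 * ε), -(9 / 50 * ε), 3 * r0, -(62 / 125)] with hlo
  set hi : Fin 4 → ℝ := ![2, 2, 3 * r, 62 / 125] with hhi
  set lo' : Fin 4 → ℝ := ![-2, -2, -(3 * r), -(62 / 125)] with hlo'
  set hi' : Fin 4 → ℝ := ![9 / 50 * ε, 9 / 50 * ε, -(3 * r0), 62 / 125] with hhi'
  set A : Set (Fin 4 → ℝ) := {v | (lo 0 ≤ X 0 v ∧ X 0 v ≤ hi 0) ∧ (lo 1 ≤ X 1 v ∧ X 1 v ≤ hi 1) ∧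
      (lo 2 ≤ W v ∧ W v ≤ hi 2) ∧ (lo 3 ≤ v 3 ∧ v 3 ≤ hi 3)} with hA
  set B : Set (Fin 4 → ℝ) := {v | (lo' 0 ≤ X 0 v ∧ X 0 v ≤ hi' 0) ∧
      (lo' 1 ≤ X 1 v ∧ X 1 v ≤ hi' 1) ∧
      (lo' 2 ≤ W v ∧ W v ≤ hi' 2) ∧ (lo' 3 ≤ v 3 ∧ v 3 ≤ hi' 3)} with hB
  have hrr : 3 * r - 3 * r0 = 9 / 50 * ε := by rw [hr, hr0]; ring
  have vA := vol_box lo hi (by
    intro i
    fin_cases i
    · show -(9 / 50 * ε) ≤ 2
      linarith
    · show -(9 / 50 * ε) ≤ 2
      linarith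
    · show 3 * r0 ≤ 3 * r
      linarith
    · show (-(62 / 125) : ℝ) ≤ 62 / 125
      norm_num)
  have vB := vol_box lo' hi' (by
    intro i
    fin_cases i
    · show -2 ≤ 9 / 50 * ε
      linarith
    · show -2 ≤ 9 / 50 * ε
      linarith
    · show -(3 * r) ≤ -(3 * r0)
      linarith
    · show (-(62 / 125) : ℝ) ≤ 62 / 125
      norm_num)
  rw [← hA] at vA
  rw [← hB] at vB
  have l0 : lo 0 = -(9 / 50 * ε) := rfl
  have l1 : lo 1 = -(9 / 50 * ε) := rfl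
  have l2 : lo 2 = 3 * r0 := rfl
  have l3 : lo 3 = -(62 / 125) := rfl
  have g0 : hi 0 = 2 := rfl
  have g1 : hi 1 = 2 := rfl
  have g2 : hi 2 = 3 * r := rfl
  have g3 : hi 3 = 62 / 125 := rfl
  have l0' : lo' 0 = -2 := rfl
  have l1' : lo' 1 = -2 := rfl
  have l2' : lo' 2 = -(3 * r) := rfl
  have l3' : lo' 3 = -(62 / 125) := rfl
  have g0' : hi' 0 = 9 / 50 * ε := rfl
  have g1' : hi' 1 = 9 / 50 * ε := rfl
  have g2' : hi' 2 = -(3 * r0) := rfl
  have g3' : hi' 3 = 62 / 125 := rfl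
  have hcov : Cs r (-(62 / 125)) (124 / 125) ⊆ Mid r r0 ∪ (A ∪ B) := by
    rintro v ⟨h1, h2, h3⟩
    have h3' : v 3 < 62 / 125 := by linarith
    by_cases hW : |W v| ≤ 3 * r0
    · exact Or.inl ⟨h1, hW, h2, h3'⟩
    · right
      push Not at hW
      have x0 := abs_le.1 (h1.1 0)
      have x1 := abs_le.1 (h1.1 1)
      have y0 := abs_le.1 (h1.2.1 0)
      have y1 := abs_le.1 (h1.2.1 1)
      have ww := abs_le.1 h1.2.2
      rw [Y_eq] at y0 y1
      rcases lt_abs.1 hW with hW | hW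
      · left
        rw [hA]
        refine ⟨⟨?_, ?_⟩, ⟨?_, ?_⟩, ⟨?_, ?_⟩, ⟨?_, ?_⟩⟩
        · rw [l0]; linarith [y0.2]
        · rw [g0]; linarith [x0.2]
        · rw [l1]; linarith [y1.2]
        · rw [g1]; linarith [x1.2]
        · rw [l2]; linarith
        · rw [g2]; linarith [ww.2]
        · rw [l3]; exact h2
        · rw [g3]; exact h3'.le
      · right
        rw [hB]
        refine ⟨⟨?_, ?_⟩, ⟨?_, ?_⟩, ⟨?_, ?_⟩, ⟨?_, ?_⟩⟩
        · rw [l0']; linarith [x0.1]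
        · rw [g0']; linarith [y0.1]
        · rw [l1']; linarith [x1.1]
        · rw [g1']; linarith [y1.1]
        · rw [l2']; linarith [ww.1]
        · rw [g2']; linarith
        · rw [l3']; exact h2
        · rw [g3']; exact h3'.le
  have h1 : ENNReal.ofReal (r ^ 3 * (124 / 125)) ≤ volume (Mid r r0) + volume (A ∪ B) :=
    (vol_Cs hrpos (by norm_num)).trans ((measure_mono hcov).trans (measure_union_le _ _))
  have h2 : volume (A ∪ B) ≤ ENNReal.ofReal (29 / 1000 * ε * (124 / 125)) := by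
    refine (measure_union_le _ _).trans ?_
    rw [vA, vB, l0, l1, l2, l3, g0, g1, g2, g3, l0', l1', l2', l3', g0', g1', g2', g3',
      ← ENNReal.ofReal_add]
    · apply ENNReal.ofReal_le_ofReal
      have e1 : 3 * r = 3 * r0 + 9 / 50 * ε := by linarith
      rw [e1]
      have e2 : (2 - -(9 / 50 * ε)) * (2 - -(9 / 50 * ε)) * (3 * r0 + 9 / 50 * ε - 3 * r0) *
          (62 / 125 - -(62 / 125)) / 50 + (9 / 50 * ε - -2) * (9 / 50 * ε - -2) *
          (-(3 * r0) - -(3 * r0 + 9 / 50 * ε)) * (62 / 125 - -(62 / 125)) / 50 =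
          ε * (124 / 125) * ((2 + 9 / 50 * ε) ^ 2 * (9 / 1250)) := by ring
      rw [e2]
      have e3 : (2 + 9 / 50 * ε) ^ 2 * (9 / 1250) ≤ 29 / 1000 := by nlinarith
      have e4 : 0 ≤ ε * (124 / 125) := by positivity
      nlinarith [mul_le_mul_of_nonneg_left e3 e4]
    · refine div_nonneg (mul_nonneg (mul_nonneg (mul_nonneg ?_ ?_) ?_) ?_) (by norm_num) <;>
        linarith
    · refine div_nonneg (mul_nonneg (mul_nonneg (mul_nonneg ?_ ?_) ?_) ?_) (by norm_num) <;>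
        linarith
  rw [ENNReal.ofReal_sub _ (by positivity), tsub_le_iff_right]
  exact h1.trans (by gcongr)

theorem type0_false {U : Ultrafilter ℕ} {ε : ℕ → ℝ} {Λ : ℕ → AddSubgroup (Fin 4 → ℝ)}
    (hε : ∀ m, 0 < ε m) (hεU : Tendsto ε U (𝓝 0))
    (hsep : ∀ m, ∀ v ∈ Λ m, v ≠ 0 → Sep (ε m) v)
    (hF : ∀ m, ∀ F : Set (Fin 4 → ℝ), MeasurableSet F → Bornology.IsBounded F →
      (∀ v ∈ Λ m, v ≠ 0 → Disjoint F (tr v F)) →
      volume F < ENNReal.ofReal (1 - 149 / 100 * ε m))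
    (hE : ∀ i, E i 0 ∈ Lim U Λ) : False := by
  have hev : ∀ᶠ m in (U : Filter ℕ), ε m < 1 / 1000 := hεU (Iio_mem_nhds (by norm_num))
  obtain ⟨m, hkey, hm1⟩ := ((type0_key hεU hsep hE).and hev).exists
  have hεm := hε m
  set e := ε m with he
  set r : ℝ := 1 - 241 / 500 * e with hr
  set r0 : ℝ := 1 - 271 / 500 * e with hr0
  set B1 := Cs (1 - e) (62 / 125) (1 / 250) with hB1
  set B2 := Cs (1 - e) (-(1 / 2)) (1 / 250) with hB2
  set M := Mid r r0 with hM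
  have hvM : ENNReal.ofReal (r ^ 3 * (124 / 125) - 29 / 1000 * e * (124 / 125)) ≤ volume M :=
    vol_Mid hεm hm1.le
  have hv1 : ENNReal.ofReal ((1 - e) ^ 3 * (1 / 250)) ≤ volume B1 :=
    vol_Cs (by linarith) (by norm_num)
  have hv2 : ENNReal.ofReal ((1 - e) ^ 3 * (1 / 250)) ≤ volume B2 :=
    vol_Cs (by linarith) (by norm_num)
  have hd12 : Disjoint B1 B2 := by
    rw [Set.disjoint_left]
    rintro v ⟨-, h1, -⟩ ⟨-, -, h2⟩
    linarith
  have hdM : Disjoint M (B1 ∪ B2) := by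
    rw [Set.disjoint_left]
    rintro v ⟨-, -, h1, h2⟩ (⟨-, h3, h4⟩ | ⟨-, h3, h4⟩)
    · linarith
    · linarith
  have hB1m : MeasurableSet B1 := Cs_meas _ _ _
  have hB2m : MeasurableSet B2 := Cs_meas _ _ _
  have hMm : MeasurableSet M := Mid_meas _ _
  have hin : ∀ v ∈ M ∪ (B1 ∪ B2), InP r v ∧ |W v| ≤ 3 * r0 ∧ -(1 / 2) ≤ v 3 ∧ v 3 < 1 / 2 := by
    have key : ∀ v, InP (1 - e) v → InP r v ∧ |W v| ≤ 3 * r0 := by
      rintro v ⟨h1, h2, h3⟩
      refine ⟨⟨fun i => ?_, fun i => ?_, ?_⟩, ?_⟩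
      · linarith [h1 i]
      · linarith [h2 i]
      · linarith
      · linarith
    rintro v (⟨h1, h2, h3, h4⟩ | ⟨h1, h3, h4⟩ | ⟨h1, h3, h4⟩)
    · exact ⟨h1, h2, by linarith, by linarith⟩
    · obtain ⟨k1, k2⟩ := key v h1
      exact ⟨k1, k2, by linarith, by linarith⟩
    · obtain ⟨k1, k2⟩ := key v h1
      exact ⟨k1, k2, by linarith, by linarith⟩
  have hmid : ∀ x ∈ M, ∀ y ∈ M ∪ (B1 ∪ B2), ∀ v ∈ Λ m, v ≠ 0 → v ≠ x - y ∧ v ≠ y - x := by
    have hcore : ∀ x ∈ M, ∀ y ∈ M ∪ (B1 ∪ B2), ∀ v ∈ Λ m, v ≠ 0 → v ≠ x - y := by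
      intro x hx y hy v hv hv0 hvxy
      obtain ⟨⟨a1, a2, -⟩, a3, -, -⟩ := hin x (Or.inl hx)
      obtain ⟨⟨b1, b2, -⟩, b3, b4, b5⟩ := hin y hy
      obtain ⟨-, -, c1, c2⟩ := hx
      have hX : ∀ i, |X i v| ≤ 4 * r := by
        intro i
        rw [hvxy, X_sub]
        refine (abs_sub _ _).trans ?_
        linarith [a1 i, b1 i]
      have hY : ∀ i, |Y i v| ≤ 6 * r := by
        intro i
        rw [hvxy, Y_sub]
        refine (abs_sub _ _).trans ?_
        linarith [a2 i, b2 i]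
      have hW : |W v| ≤ 6 * r0 := by
        rw [hvxy, W_sub]
        refine (abs_sub _ _).trans ?_
        linarith
      have h3 : |v 3| ≤ 249 / 250 := by
        rw [hvxy, Pi.sub_apply, abs_le]
        constructor <;> linarith
      have h25 := hkey v hv ⟨fun i => by linarith [hX i], fun i => by linarith [hY i],
        by linarith⟩ h3
      rcases hsep m v hv hv0 with ⟨i, h⟩ | ⟨i, h⟩ | h | h
      · rw [rw_small h25.le] at h
        linarith [hX i]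
      · have h6 := hY i
        nlinarith
      · linarith
      · linarith
    intro x hx y hy v hv hv0
    refine ⟨hcore x hx y hy v hv hv0, fun h => ?_⟩
    refine hcore x hx y hy (-v) ((Λ m).neg_mem hv) (neg_ne_zero.2 hv0) ?_
    rw [h]
    abel
  have hC : B1 ∪ B2 ⊆ Cr (1 - e) := by
    rintro v (⟨h1, h3, h4⟩ | ⟨h1, h3, h4⟩)
    · exact ⟨h1, by linarith, by linarith⟩
    · exact ⟨h1, h3, by linarith⟩
  have hlt := hF m (M ∪ (B1 ∪ B2)) (hMm.union (hB1m.union hB2m)) (by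
    refine (Metric.isBounded_closedBall (x := (0 : Fin 4 → ℝ)) (r := 1)).subset ?_
    intro v hv
    obtain ⟨h1, -, h3, h4⟩ := hin v hv
    rw [mem_closedBall_zero_iff, pi_norm_le_iff_of_nonneg zero_le_one]
    intro l
    rw [Real.norm_eq_abs]
    by_cases hl : l = 3
    · subst hl
      rw [abs_le]
      constructor <;> linarith
    · have := InP_coord h1 l hl
      linarith) (by
    intro v hv hv0
    rw [Set.disjoint_left]
    rintro x hx ⟨y, hy, hyx⟩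
    have hv' : v = x - y := by
      rw [← hyx]
      show v = v + y - y
      abel
    rcases hx with hx | hx
    · exact (hmid x hx y hy v hv hv0).1 hv'
    · rcases hy with hy | hy
      · exact (hmid y hy x (Or.inr hx) v hv hv0).2 hv'
      · refine Cr_sep hεm (hC hx) (hC hy) ?_
        rw [← hv']
        exact hsep m v hv hv0)
  rw [measure_union hdM (hB1m.union hB2m), measure_union hd12 hB2m] at hlt
  refine absurd hlt (not_lt.2 ?_)
  refine le_trans ?_ (add_le_add hvM (add_le_add hv1 hv2))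
  have hp1 : 0 ≤ (1 - e) ^ 3 * (1 / 250) := mul_nonneg (pow_nonneg (by linarith) 3) (by norm_num)
  have hr3 : 1 - 3 * (241 / 500) * e ≤ r ^ 3 := by
    rw [hr]
    nlinarith [mul_pos hεm hεm]
  have he3 : 1 - 3 * e ≤ (1 - e) ^ 3 := by
    nlinarith [mul_pos hεm hεm]
  have hp2 : 0 ≤ r ^ 3 * (124 / 125) - 29 / 1000 * e * (124 / 125) := by nlinarith
  rw [← ENNReal.ofReal_add hp1 hp1, ← ENNReal.ofReal_add hp2 (add_nonneg hp1 hp1)]
  apply ENNReal.ofReal_le_ofReal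
  nlinarith

end Pool.Agent.H96.T4
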