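import Pool.Agent.H96.T4.Weights

/-!
# Dimension four (MP_c4753b_co): determinants near the perfect form, and normalised limits
-/

set_option autoImplicit false

open MeasureTheory Filter Topology Set
open scoped ENNReal

namespace Pool.Agent.H96.T4

/-- the determinant of a `3 × 3` matrix -/
def det3 (n11 n12 n13 n21 n22 n23 n31 n32 n33 : ℝ) : ℝ :=
  n11 * (n22 * n33 - n23 * n32) - n12 * (n21 * n33 - n23 * n31) + n13 * (n21 * n32 - n22 * n31)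

theorem det_id (p q r w : Fin 4 → ℝ) :
    50 * w 3 ^ 2 * (Matrix.of ![p, q, r, w]).det =
      det3 (w 3 * X 0 p - p 3 * X 0 w) (w 3 * X 0 q - q 3 * X 0 w) (w 3 * X 0 r - r 3 * X 0 w)
      (w 3 * X 1 p - p 3 * X 1 w) (w 3 * X 1 q - q 3 * X 1 w) (w 3 * X 1 r - r 3 * X 1 w)
      (w 3 * X 2 p - p 3 * X 2 w) (w 3 * X 2 q - q 3 * X 2 w) (w 3 * X 2 r - r 3 * X 2 w) := by
  have h : (Matrix.of ![p, q, r, w]).det =
    p 0 * (q 1 * (r 2 * w 3 - r 3 * w 2) - q 2 * (r 1 * w 3 - r 3 * w 1)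
      + q 3 * (r 1 * w 2 - r 2 * w 1))
    - p 1 * (q 0 * (r 2 * w 3 - r 3 * w 2) - q 2 * (r 0 * w 3 - r 3 * w 0)
      + q 3 * (r 0 * w 2 - r 2 * w 0))
    + p 2 * (q 0 * (r 1 * w 3 - r 3 * w 1) - q 1 * (r 0 * w 3 - r 3 * w 0)
      + q 3 * (r 0 * w 1 - r 1 * w 0))
    - p 3 * (q 0 * (r 1 * w 2 - r 2 * w 1) - q 1 * (r 0 * w 2 - r 2 * w 0)
      + q 2 * (r 0 * w 1 - r 1 * w 0)) := by
    simp [Matrix.det_succ_row_zero, Fin.sum_univ_succ, Matrix.submatrix, Fin.succAbove]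
    ring
  unfold det3
  rw [h, X0, X0, X0, X0, X1, X1, X1, X1, X2, X2, X2, X2]
  ring

/-- the symmetric part has the smaller determinant -/
theorem det3_sym {n11 n12 n13 n21 n22 n23 n31 n32 n33 : ℝ} (h1 : 3 ≤ n11) (h2 : 3 ≤ n22)
    (h3 : 3 ≤ n33) (h12 : |(n12 + n21) / 2| ≤ 5 / 4) (h13 : |(n13 + n31) / 2| ≤ 5 / 4)
    (h23 : |(n23 + n32) / 2| ≤ 5 / 4) :
    det3 n11 ((n12 + n21) / 2) ((n13 + n31) / 2) ((n12 + n21) / 2) n22 ((n23 + n32) / 2)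
      ((n13 + n31) / 2) ((n23 + n32) / 2) n33 ≤ det3 n11 n12 n13 n21 n22 n23 n31 n32 n33 := by
  set s12 := (n12 + n21) / 2 with e12
  set s13 := (n13 + n31) / 2 with e13
  set s23 := (n23 + n32) / 2 with e23
  set a12 := (n12 - n21) / 2 with f12
  set a13 := (n13 - n31) / 2 with f13
  set a23 := (n23 - n32) / 2 with f23
  have g1 : n12 = s12 + a12 := by rw [e12, f12]; ring
  have g2 : n21 = s12 - a12 := by rw [e12, f12]; ring
  have g3 : n13 = s13 + a13 := by rw [e13, f13]; ring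
  have g4 : n31 = s13 - a13 := by rw [e13, f13]; ring
  have g5 : n23 = s23 + a23 := by rw [e23, f23]; ring
  have g6 : n32 = s23 - a23 := by rw [e23, f23]; ring
  have key : det3 n11 n12 n13 n21 n22 n23 n31 n32 n33 -
      det3 n11 s12 s13 s12 n22 s23 s13 s23 n33 =
      n11 * a23 ^ 2 + n22 * a13 ^ 2 + n33 * a12 ^ 2 - 2 * s12 * a23 * a13 + 2 * s13 * a23 * a12
        - 2 * s23 * a13 * a12 := by
    unfold det3
    rw [g1, g2, g3, g4, g5, g6]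
    ring
  have hb : ∀ s x y : ℝ, |s| ≤ 5 / 4 → |2 * s * x * y| ≤ 5 / 4 * (x ^ 2 + y ^ 2) := by
    intro s x y hs
    have h0 : |x * y| ≤ (x ^ 2 + y ^ 2) / 2 := by
      rw [abs_le]
      constructor
      · nlinarith [sq_nonneg (x + y)]
      · nlinarith [sq_nonneg (x - y)]
    have h1 : |2 * s * x * y| = 2 * (|s| * |x * y|) := by
      rw [show 2 * s * x * y = 2 * (s * (x * y)) by ring, abs_mul, abs_mul, abs_two]
    rw [h1]
    have h2 : |s| * |x * y| ≤ 5 / 4 * ((x ^ 2 + y ^ 2) / 2) :=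
      mul_le_mul hs h0 (abs_nonneg _) (by norm_num)
    linarith
  have b1 := (abs_le.1 (hb s12 a23 a13 h12)).2
  have b2 := (abs_le.1 (hb s13 a23 a12 h13)).1
  have b3 := (abs_le.1 (hb s23 a13 a12 h23)).2
  have c1 := mul_le_mul_of_nonneg_right h1 (sq_nonneg a23)
  have c2 := mul_le_mul_of_nonneg_right h2 (sq_nonneg a13)
  have c3 := mul_le_mul_of_nonneg_right h3 (sq_nonneg a12)
  nlinarith [sq_nonneg a12, sq_nonneg a13, sq_nonneg a23]

/-- the determinant of the symmetric matrix with values `4 + d_i` and `6 + D_i` -/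
noncomputable def symd (d : Fin 6 → ℝ) : ℝ :=
  det3 (4 + d 0) (-1 + (d 5 - d 0 - d 1) / 2) (-1 + (d 4 - d 0 - d 2) / 2)
    (-1 + (d 5 - d 0 - d 1) / 2) (4 + d 1) (-1 + (d 3 - d 1 - d 2) / 2)
    (-1 + (d 4 - d 0 - d 2) / 2) (-1 + (d 3 - d 1 - d 2) / 2) (4 + d 2)

/-- the polarised remainder -/
noncomputable def GG (x d : Fin 6 → ℝ) : ℝ :=
  5 * (x 0 + x 1 + x 2 + x 3 + x 4 + x 5) +
  (4 * (x 0 * d 1 + x 0 * d 2 + x 1 * d 2)
    - 2 * ((x 5 - x 0 - x 1) / 2 * ((d 4 - d 0 - d 2) / 2) +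
        (x 5 - x 0 - x 1) / 2 * ((d 3 - d 1 - d 2) / 2) +
        (x 4 - x 0 - x 2) / 2 * ((d 3 - d 1 - d 2) / 2))
    - 4 * ((x 5 - x 0 - x 1) / 2 * ((d 5 - d 0 - d 1) / 2) +
        (x 4 - x 0 - x 2) / 2 * ((d 4 - d 0 - d 2) / 2) +
        (x 3 - x 1 - x 2) / 2 * ((d 3 - d 1 - d 2) / 2))
    + 2 * (x 0 * ((d 3 - d 1 - d 2) / 2) + x 1 * ((d 4 - d 0 - d 2) / 2) +
        x 2 * ((d 5 - d 0 - d 1) / 2))) +
  (x 0 * d 1 * d 2 + 2 * ((x 5 - x 0 - x 1) / 2 * ((d 4 - d 0 - d 2) / 2) *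
      ((d 3 - d 1 - d 2) / 2))
    - x 0 * ((d 3 - d 1 - d 2) / 2) ^ 2 - x 1 * ((d 4 - d 0 - d 2) / 2) ^ 2
    - x 2 * ((d 5 - d 0 - d 1) / 2) ^ 2)

theorem GG_cont : Continuous fun p : (Fin 6 → ℝ) × (Fin 6 → ℝ) => GG p.1 p.2 := by
  unfold GG
  fun_prop

theorem GG_zero (x : Fin 6 → ℝ) : GG x 0 = 5 * (x 0 + x 1 + x 2 + x 3 + x 4 + x 5) := by
  unfold GG
  simp

theorem symd_eq (x : Fin 6 → ℝ) (ρ : ℝ) :
    symd (fun k => ρ * x k) = 50 + ρ * GG x (fun k => ρ * x k) := by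
  unfold symd GG det3
  ring

/-- normalised limits along an ultrafilter -/
theorem norm_lim (U : Ultrafilter ℕ) (f : Fin 10 → ℕ → ℝ)
    (hpos : ∀ᶠ m in (U : Filter ℕ), 0 < ∑ j, |f j m|) :
    ∃ l : Fin 10 → ℝ, (∀ k, Tendsto (fun m => f k m / ∑ j, |f j m|) U (𝓝 (l k))) ∧
      ∑ k, |l k| = 1 := by
  have hc : IsCompact (Set.pi univ fun _ : Fin 10 => Icc (-1 : ℝ) 1) :=
    isCompact_univ_pi fun _ => isCompact_Icc
  have hb : ∀ᶠ m in (U : Filter ℕ), (fun k => f k m / ∑ j, |f j m|) ∈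
      Set.pi univ fun _ : Fin 10 => Icc (-1 : ℝ) 1 := by
    filter_upwards [hpos] with m hm k _
    have h1 : |f k m| ≤ ∑ j, |f j m| :=
      Finset.single_le_sum (f := fun j => |f j m|) (fun j _ => abs_nonneg _) (Finset.mem_univ k)
    have h2 : |f k m / (∑ j, |f j m|)| ≤ 1 := by
      rw [abs_div, abs_of_pos hm, div_le_one hm]
      exact h1
    exact abs_le.1 h2
  have hle : (U.map fun m k => f k m / ∑ j, |f j m| : Ultrafilter (Fin 10 → ℝ)) ≤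
      𝓟 (Set.pi univ fun _ : Fin 10 => Icc (-1 : ℝ) 1) := by
    rw [le_principal_iff]
    exact hb
  obtain ⟨l, -, hl⟩ := hc.ultrafilter_le_nhds _ hle
  have hl' : Tendsto (fun m k => f k m / ∑ j, |f j m|) U (𝓝 l) := hl
  have hk : ∀ k, Tendsto (fun m => f k m / ∑ j, |f j m|) U (𝓝 (l k)) :=
    fun k => (tendsto_pi_nhds.mp hl') k
  refine ⟨l, hk, ?_⟩
  have h1 : Tendsto (fun m => ∑ k, |f k m / (∑ j, |f j m|)|) U (𝓝 (∑ k, |l k|)) :=
    tendsto_finsetSum _ fun k _ => (hk k).abs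
  have h2 : Tendsto (fun m => ∑ k, |f k m / (∑ j, |f j m|)|) U (𝓝 1) := by
    refine tendsto_const_nhds.congr' ?_
    filter_upwards [hpos] with m hm
    have h3 : ∀ k, |f k m / (∑ j, |f j m|)| = |f k m| / ∑ j, |f j m| := by
      intro k
      rw [abs_div, abs_of_pos hm]
    simp only [h3]
    rw [← Finset.sum_div, div_self hm.ne']
  exact tendsto_nhds_unique h1 h2

/-- constraints pass to the normalised limit -/
theorem lim_constr {U : Ultrafilter ℕ} {E d h t y ρ : ℕ → ℝ} {R : ℝ → ℝ} {c e ds hs ts : ℝ}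
    (hR : Continuous R) (hρ : ∀ᶠ m in (U : Filter ℕ), 0 < ρ m)
    (hc : ∀ᶠ m in (U : Filter ℕ), -(c * E m * R (t m)) ≤ d m + t m / y m * h m)
    (hE : Tendsto (fun m => E m / ρ m) U (𝓝 e)) (hd : Tendsto (fun m => d m / ρ m) U (𝓝 ds))
    (hh : Tendsto (fun m => h m / ρ m) U (𝓝 hs)) (ht : Tendsto t U (𝓝 ts))
    (hy : Tendsto y U (𝓝 1)) : -(c * e * R ts) ≤ ds + ts * hs := by
  have h1 : Tendsto (fun m => -(c * (E m / ρ m) * R (t m))) U (𝓝 (-(c * e * R ts))) :=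
    ((hE.const_mul c).mul ((hR.tendsto ts).comp ht)).neg
  have h2 : Tendsto (fun m => d m / ρ m + t m / y m * (h m / ρ m)) U (𝓝 (ds + ts / 1 * hs)) :=
    hd.add ((ht.div hy one_ne_zero).mul hh)
  rw [div_one] at h2
  refine le_of_tendsto_of_tendsto h1 h2 ?_
  filter_upwards [hρ, hc] with m hm hcm
  have h3 : -(c * (E m / ρ m) * R (t m)) = -(c * E m * R (t m)) / ρ m := by ring
  have h4 : d m / ρ m + t m / y m * (h m / ρ m) = (d m + t m / y m * h m) / ρ m := by ring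
  rw [h3, h4]
  exact div_le_div_of_nonneg_right hcm hm.le

end Pool.Agent.H96.T4
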