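import Pool.Agent.H96.T4.Class
import Pool.Agent.H96.T4.Det

/-!
# Dimension four (MP_c4753b_co): fundamental domains near a tiling of the second kind
-/

set_option autoImplicit false

open MeasureTheory Filter Topology Set
open scoped ENNReal

namespace Pool.Agent.H96.T4

open H947TP

theorem abs_lin {c x : ℝ} {t : ℝ} (ht : |t| ≤ 1 / 2) (hx : |x| ≤ c) : |t * x| ≤ c / 2 := by
  rw [abs_mul]
  have h0 := abs_nonneg t
  have h1 := abs_nonneg x
  nlinarith

/-- near the limit the group is generated by the four vectors, and the determinant is the volume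
of a fundamental domain -/
theorem fd {Λ : AddSubgroup (Fin 4 → ℝ)} {ε G : ℝ} (hε : 0 < ε) (hε1 : ε ≤ 1 / 100)
    (hsep : ∀ v ∈ Λ, v ≠ 0 → Sep ε v) {p q r u : Fin 4 → ℝ} (hp : p ∈ Λ) (hq : q ∈ Λ)
    (hr : r ∈ Λ) (hu : u ∈ Λ)
    (p0 : |X 0 p - 4| ≤ 1 / 100) (p1 : |X 1 p + 1| ≤ 1 / 100) (p2 : |X 2 p + 1| ≤ 1 / 100)
    (q0 : |X 0 q + 1| ≤ 1 / 100) (q1 : |X 1 q - 4| ≤ 1 / 100) (q2 : |X 2 q + 1| ≤ 1 / 100)
    (r0 : |X 0 r + 1| ≤ 1 / 100) (r1 : |X 1 r + 1| ≤ 1 / 100) (r2 : |X 2 r - 4| ≤ 1 / 100)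
    (u0 : |X 0 u| ≤ 1 / 100) (u1 : |X 1 u| ≤ 1 / 100) (u2 : |X 2 u| ≤ 1 / 100)
    (p3 : |p 3| ≤ 101 / 100) (q3 : |q 3| ≤ 101 / 100) (r3 : |r 3| ≤ 101 / 100)
    (u3 : 1 ≤ u 3) (u3' : u 3 ≤ 101 / 100)
    (hdet : (Matrix.of ![p, q, r, u]).det ≠ 0)
    (hF : ∀ F : Set (Fin 4 → ℝ), MeasurableSet F → Bornology.IsBounded F →
      (∀ v ∈ Λ, v ≠ 0 → Disjoint F (tr v F)) → volume F < ENNReal.ofReal (1 - G * ε)) :
    |(Matrix.of ![p, q, r, u]).det| < 1 - G * ε := by
  classical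
  have hli : LinearIndependent ℝ (fun i => (Matrix.of ![p, q, r, u]) i) :=
    Matrix.linearIndependent_rows_of_det_ne_zero hdet
  set b : Module.Basis (Fin 4) ℝ (Fin 4 → ℝ) :=
    basisOfLinearIndependentOfCardEqFinrank hli (by simp) with hb
  have hbc : ⇑b = ![p, q, r, u] := by
    rw [hb, coe_basisOfLinearIndependentOfCardEqFinrank]
    rfl
  have b0 : b 0 = p := by rw [hbc]; rfl
  have b1 : b 1 = q := by rw [hbc]; rfl
  have b2 : b 2 = r := by rw [hbc]; rfl
  have b3 : b 3 = u := by rw [hbc]; rfl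
  -- the group is generated
  have hgen : ∀ v ∈ Λ, v ∈ Submodule.span ℤ (Set.range b) := by
    intro v hv
    set c := b.repr v with hc
    have hsum : v = c 0 • p + c 1 • q + c 2 • r + c 3 • u := by
      have := b.sum_repr v
      rw [Fin.sum_univ_four, b0, b1, b2, b3] at this
      rw [← this]
    set n0 := round (c 0) with hn0
    set n1 := round (c 1) with hn1
    set n2 := round (c 2) with hn2
    have t0 : |c 0 - n0| ≤ 1 / 2 := abs_sub_round _
    have t1 : |c 1 - n1| ≤ 1 / 2 := abs_sub_round _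
    have t2 : |c 2 - n2| ≤ 1 / 2 := abs_sub_round _
    set s0 := c 0 - n0 with hs0
    set s1 := c 1 - n1 with hs1
    set s2 := c 2 - n2 with hs2
    set v' : Fin 4 → ℝ := v - (n0 : ℝ) • p - (n1 : ℝ) • q - (n2 : ℝ) • r with hv'
    set n3 := round (v' 3 / u 3) with hn3
    set v'' : Fin 4 → ℝ := v' - (n3 : ℝ) • u with hv''
    have hmem : v'' ∈ Λ := by
      rw [hv'', hv', Int.cast_smul_eq_zsmul, Int.cast_smul_eq_zsmul, Int.cast_smul_eq_zsmul,
        Int.cast_smul_eq_zsmul]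
      exact Λ.sub_mem (Λ.sub_mem (Λ.sub_mem (Λ.sub_mem hv (Λ.zsmul_mem hp _))
        (Λ.zsmul_mem hq _)) (Λ.zsmul_mem hr _)) (Λ.zsmul_mem hu _)
    have hu3 : 0 < u 3 := by linarith
    have h3 : |v'' 3| ≤ u 3 / 2 := by
      have h4 : v'' 3 = (v' 3 / u 3 - n3) * u 3 := by
        rw [hv'', Pi.sub_apply, Pi.smul_apply, smul_eq_mul, sub_mul, div_mul_cancel₀ _ hu3.ne']
      have h5 : |v' 3 / u 3 - n3| ≤ 1 / 2 := abs_sub_round _
      rw [h4, abs_mul, abs_of_pos hu3]
      nlinarith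
    set τ := c 3 - n3 with hτ
    have hexp : v'' = s0 • p + s1 • q + s2 • r + τ • u := by
      rw [hv'', hv', hs0, hs1, hs2, hτ, hsum, sub_smul, sub_smul, sub_smul, sub_smul]
      abel
    have hτb : |τ| ≤ 3 := by
      have h4 : τ * u 3 = v'' 3 - s0 * p 3 - s1 * q 3 - s2 * r 3 := by
        have := congrFun hexp 3
        simp only [Pi.add_apply, Pi.smul_apply, smul_eq_mul] at this
        linarith
      have h5 : |τ| * u 3 = |τ * u 3| := by rw [abs_mul, abs_of_pos hu3]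
      have k0 := abs_le.1 (abs_lin t0 p3)
      have k1 := abs_le.1 (abs_lin t1 q3)
      have k2 := abs_le.1 (abs_lin t2 r3)
      have k3 := abs_le.1 h3
      have h6 : |τ * u 3| ≤ 3 := by
        rw [h4, abs_le]
        constructor <;> linarith [k0.1, k0.2, k1.1, k1.2, k2.1, k2.2, k3.1, k3.2]
      have h7 := abs_nonneg τ
      nlinarith
    have aX : ∀ i, X i v'' = s0 * X i p + s1 * X i q + s2 * X i r + τ * X i u := by
      intro i
      rw [hexp, X_add, X_add, X_add, X_smul, X_smul, X_smul, X_smul]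
    have hτu : ∀ x : ℝ, |x| ≤ 1 / 100 → |τ * x| ≤ 3 / 100 := by
      intro x hx
      rw [abs_mul]
      have := abs_nonneg x
      nlinarith [abs_nonneg τ]
    have bd : ∀ x c : ℝ, 0 ≤ c → |x - c| ≤ 1 / 100 → |x| ≤ c + 1 / 100 := by
      intro x c hc hx
      rw [abs_le] at hx ⊢
      constructor <;> linarith [hx.1, hx.2]
    have bd' : ∀ x : ℝ, |x + 1| ≤ 1 / 100 → |x| ≤ 1 + 1 / 100 := by
      intro x hx
      rw [abs_le] at hx ⊢
      constructor <;> linarith [hx.1, hx.2]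
    have m00 := abs_le.1 (abs_lin t0 (bd _ _ (by norm_num) p0))
    have m01 := abs_le.1 (abs_lin t1 (bd' _ q0))
    have m02 := abs_le.1 (abs_lin t2 (bd' _ r0))
    have m03 := abs_le.1 (hτu _ u0)
    have m10 := abs_le.1 (abs_lin t0 (bd' _ p1))
    have m11 := abs_le.1 (abs_lin t1 (bd _ _ (by norm_num) q1))
    have m12 := abs_le.1 (abs_lin t2 (bd' _ r1))
    have m13 := abs_le.1 (hτu _ u1)
    have m20 := abs_le.1 (abs_lin t0 (bd' _ p2))
    have m21 := abs_le.1 (abs_lin t1 (bd' _ q2))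
    have m22 := abs_le.1 (abs_lin t2 (bd _ _ (by norm_num) r2))
    have m23 := abs_le.1 (hτu _ u2)
    -- deviations
    have d00 := abs_le.1 (abs_lin t0 p0)
    have d01 := abs_le.1 (abs_lin t1 q0)
    have d02 := abs_le.1 (abs_lin t2 r0)
    have d10 := abs_le.1 (abs_lin t0 p1)
    have d11 := abs_le.1 (abs_lin t1 q1)
    have d12 := abs_le.1 (abs_lin t2 r1)
    have d20 := abs_le.1 (abs_lin t0 p2)
    have d21 := abs_le.1 (abs_lin t1 q2)
    have d22 := abs_le.1 (abs_lin t2 r2)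
    have g0 := abs_le.1 t0
    have g1 := abs_le.1 t1
    have g2 := abs_le.1 t2
    have e0 := aX 0
    have e1 := aX 1
    have e2 := aX 2
    have hXb : ∀ i, |X i v''| ≤ 31 / 10 := by
      intro i
      rw [abs_le]
      fin_cases i
      · show -(31 / 10) ≤ X 0 v'' ∧ X 0 v'' ≤ 31 / 10
        rw [e0]
        constructor <;> linarith [m00.1, m00.2, m01.1, m01.2, m02.1, m02.2, m03.1, m03.2]
      · show -(31 / 10) ≤ X 1 v'' ∧ X 1 v'' ≤ 31 / 10
        rw [e1]
        constructor <;> linarith [m10.1, m10.2, m11.1, m11.2, m12.1, m12.2, m13.1, m13.2]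
      · show -(31 / 10) ≤ X 2 v'' ∧ X 2 v'' ≤ 31 / 10
        rw [e2]
        constructor <;> linarith [m20.1, m20.2, m21.1, m21.2, m22.1, m22.2, m23.1, m23.2]
    have hWe : W v'' = 2 * (s0 + s1 + s2) +
        (s0 * (X 0 p - 4) + s0 * (X 1 p + 1) + s0 * (X 2 p + 1)) +
        (s1 * (X 0 q + 1) + s1 * (X 1 q - 4) + s1 * (X 2 q + 1)) +
        (s2 * (X 0 r + 1) + s2 * (X 1 r + 1) + s2 * (X 2 r - 4)) +
        (τ * X 0 u + τ * X 1 u + τ * X 2 u) := by
      rw [W_eq, e0, e1, e2]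
      ring
    have hWb : |W v''| ≤ 33 / 10 := by
      rw [hWe, abs_le]
      constructor <;> linarith [d00.1, d00.2, d01.1, d01.2, d02.1, d02.2, d10.1, d10.2, d11.1,
        d11.2, d12.1, d12.2, d20.1, d20.2, d21.1, d21.2, d22.1, d22.2, m03.1, m03.2, m13.1,
        m13.2, m23.1, m23.2, g0.1, g0.2, g1.1, g1.2, g2.1, g2.2]
    have hYb : ∀ i, |Y i v''| ≤ 43 / 10 := by
      intro i
      rw [abs_le]
      fin_cases i
      · show -(43 / 10) ≤ Y 0 v'' ∧ Y 0 v'' ≤ 43 / 10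
        have e : Y 0 v'' = (-2 * s0 + 3 * s1 + 3 * s2) + (s0 * (X 1 p + 1) + s0 * (X 2 p + 1)) +
            (s1 * (X 1 q - 4) + s1 * (X 2 q + 1)) + (s2 * (X 1 r + 1) + s2 * (X 2 r - 4)) +
            (τ * X 1 u + τ * X 2 u) := by
          rw [Y_eq, W_eq, e0, e1, e2]
          ring
        rw [e]
        constructor <;> linarith [d00.1, d00.2, d01.1, d01.2, d02.1, d02.2, d10.1, d10.2, d11.1,
          d11.2, d12.1, d12.2, d20.1, d20.2, d21.1, d21.2, d22.1, d22.2, m03.1, m03.2, m13.1,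
          m13.2, m23.1, m23.2, g0.1, g0.2, g1.1, g1.2, g2.1, g2.2]
      · show -(43 / 10) ≤ Y 1 v'' ∧ Y 1 v'' ≤ 43 / 10
        have e : Y 1 v'' = (3 * s0 - 2 * s1 + 3 * s2) + (s0 * (X 0 p - 4) + s0 * (X 2 p + 1)) +
            (s1 * (X 0 q + 1) + s1 * (X 2 q + 1)) + (s2 * (X 0 r + 1) + s2 * (X 2 r - 4)) +
            (τ * X 0 u + τ * X 2 u) := by
          rw [Y_eq, W_eq, e0, e1, e2]
          ring
        rw [e]
        constructor <;> linarith [d00.1, d00.2, d01.1, d01.2, d02.1, d02.2, d10.1, d10.2, d11.1,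
          d11.2, d12.1, d12.2, d20.1, d20.2, d21.1, d21.2, d22.1, d22.2, m03.1, m03.2, m13.1,
          m13.2, m23.1, m23.2, g0.1, g0.2, g1.1, g1.2, g2.1, g2.2]
      · show -(43 / 10) ≤ Y 2 v'' ∧ Y 2 v'' ≤ 43 / 10
        have e : Y 2 v'' = (3 * s0 + 3 * s1 - 2 * s2) + (s0 * (X 0 p - 4) + s0 * (X 1 p + 1)) +
            (s1 * (X 0 q + 1) + s1 * (X 1 q - 4)) + (s2 * (X 0 r + 1) + s2 * (X 1 r + 1)) +
            (τ * X 0 u + τ * X 1 u) := by
          rw [Y_eq, W_eq, e0, e1, e2]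
          ring
        rw [e]
        constructor <;> linarith [d00.1, d00.2, d01.1, d01.2, d02.1, d02.2, d10.1, d10.2, d11.1,
          d11.2, d12.1, d12.2, d20.1, d20.2, d21.1, d21.2, d22.1, d22.2, m03.1, m03.2, m13.1,
          m13.2, m23.1, m23.2, g0.1, g0.2, g1.1, g1.2, g2.1, g2.2]
    have hv3 : |v'' 3| ≤ 3 / 5 := by linarith
    have hzero : v'' = 0 := by
      by_contra hne
      rcases hsep v'' hmem hne with ⟨i, h⟩ | ⟨i, h⟩ | h | h
      · have h1 := rw_le (by linarith : |v'' 3| ≤ 1)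
        have h2 := hXb i
        nlinarith
      · have h2 := hYb i
        nlinarith [abs_nonneg (v'' 3)]
      · linarith
      · linarith
    have hvv : v = (n0 : ℤ) • b 0 + (n1 : ℤ) • b 1 + (n2 : ℤ) • b 2 + (n3 : ℤ) • b 3 := by
      rw [b0, b1, b2, b3]
      rw [← Int.cast_smul_eq_zsmul ℝ n0, ← Int.cast_smul_eq_zsmul ℝ n1,
        ← Int.cast_smul_eq_zsmul ℝ n2, ← Int.cast_smul_eq_zsmul ℝ n3]
      have : v'' = v - ((n0 : ℝ) • p + (n1 : ℝ) • q + (n2 : ℝ) • r + (n3 : ℝ) • u) := by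
        rw [hv'', hv']
        abel
      rw [hzero] at this
      exact (sub_eq_zero.1 this.symm)
    rw [hvv]
    have hspan : ∀ i, b i ∈ Submodule.span ℤ (Set.range b) := fun i =>
      Submodule.subset_span ⟨i, rfl⟩
    exact Submodule.add_mem _ (Submodule.add_mem _ (Submodule.add_mem _
      (Submodule.smul_mem _ _ (hspan 0)) (Submodule.smul_mem _ _ (hspan 1)))
      (Submodule.smul_mem _ _ (hspan 2))) (Submodule.smul_mem _ _ (hspan 3))
  have hvol := hF (ZSpan.fundamentalDomain b) (ZSpan.fundamentalDomain_measurableSet b)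
    (ZSpan.fundamentalDomain_isBounded b) (by
      intro v hv hv0
      rw [Set.disjoint_left]
      rintro x hx ⟨z, hz, hzx⟩
      have hzx' : v + z = x := hzx
      apply hv0
      have hrep := hgen v hv
      rw [Module.Basis.mem_span_iff_repr_mem] at hrep
      apply b.repr.injective
      rw [map_zero]
      ext i
      obtain ⟨n, hn⟩ := hrep i
      have hn' : (n : ℝ) = b.repr v i := by
        rw [← hn]
        simp
      have hx1 := ZSpan.mem_fundamentalDomain b |>.1 hx i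
      have hz1 := ZSpan.mem_fundamentalDomain b |>.1 hz i
      have he : b.repr x i = b.repr v i + b.repr z i := by
        rw [← hzx', map_add, Finsupp.add_apply]
      rw [he, ← hn'] at hx1
      have k1 : (n : ℝ) < 1 := by linarith [hx1.2, hz1.1]
      have k2 : (-1 : ℝ) < n := by linarith [hx1.1, hz1.2]
      have k3 : n < 1 := by exact_mod_cast k1
      have k4 : -1 < n := by exact_mod_cast k2
      have k5 : n = 0 := by omega
      rw [← hn', k5]
      simp)
  rw [ZSpan.volume_fundamentalDomain, hbc] at hvol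
  rwa [ENNReal.ofReal_lt_ofReal_iff_of_nonneg (abs_nonneg _)] at hvol

end Pool.Agent.H96.T4
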