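import Pool.Agent.H96.T4.Contact
import Pool.Agent.H96.T4.Fund

/-!
# Dimension four (MP_c4753b_co): the limit is not a tiling of the second kind
-/

set_option autoImplicit false

open MeasureTheory Filter Topology Set
open scoped ENNReal

namespace Pool.Agent.H96.T4

open H947TP

theorem det_chain {p q r u : Fin 4 → ℝ} {d : Fin 6 → ℝ}
    (h0 : d 0 = X 0 p - p 3 / u 3 * X 0 u - 4)
    (h1 : d 1 = X 1 q - q 3 / u 3 * X 1 u - 4)
    (h2 : d 2 = X 2 r - r 3 / u 3 * X 2 u - 4)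
    (h3 : d 3 = Y 0 (q + r) - (q 3 + r 3) / u 3 * Y 0 u - 6)
    (h4 : d 4 = Y 1 (p + r) - (p 3 + r 3) / u 3 * Y 1 u - 6)
    (h5 : d 5 = Y 2 (p + q) - (p 3 + q 3) / u 3 * Y 2 u - 6)
    (hu : 1 ≤ u 3) (hd : ∀ k, |d k| ≤ 1 / 20) (hpos : 0 < symd d) :
    symd d ≤ 50 * (Matrix.of ![p, q, r, u]).det := by
  have hu3 : 0 < u 3 := by linarith
  have hb : ∀ k, -(1 / 20) ≤ d k ∧ d k ≤ 1 / 20 := fun k => abs_le.1 (hd k)
  obtain ⟨b0, b0'⟩ := hb 0
  obtain ⟨b1, b1'⟩ := hb 1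
  obtain ⟨b2, b2'⟩ := hb 2
  obtain ⟨b3, b3'⟩ := hb 3
  obtain ⟨b4, b4'⟩ := hb 4
  obtain ⟨b5, b5'⟩ := hb 5
  set n11 := X 0 p - p 3 / u 3 * X 0 u with e11
  set n12 := X 0 q - q 3 / u 3 * X 0 u with e12
  set n13 := X 0 r - r 3 / u 3 * X 0 u with e13
  set n21 := X 1 p - p 3 / u 3 * X 1 u with e21
  set n22 := X 1 q - q 3 / u 3 * X 1 u with e22
  set n23 := X 1 r - r 3 / u 3 * X 1 u with e23
  set n31 := X 2 p - p 3 / u 3 * X 2 u with e31
  set n32 := X 2 q - q 3 / u 3 * X 2 u with e32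
  set n33 := X 2 r - r 3 / u 3 * X 2 u with e33
  have s12 : (n12 + n21) / 2 = -1 + (d 5 - d 0 - d 1) / 2 := by
    rw [h5, h0, h1, e12, e21, Y_eq, Y_eq, W_eq, W_eq, X_add, X_add, X_add, e11, e22]
    ring
  have s13 : (n13 + n31) / 2 = -1 + (d 4 - d 0 - d 2) / 2 := by
    rw [h4, h0, h2, e13, e31, Y_eq, Y_eq, W_eq, W_eq, X_add, X_add, X_add, e11, e33]
    ring
  have s23 : (n23 + n32) / 2 = -1 + (d 3 - d 1 - d 2) / 2 := by
    rw [h3, h1, h2, e23, e32, Y_eq, Y_eq, W_eq, W_eq, X_add, X_add, X_add, e22, e33]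
    ring
  have hs := det3_sym (n11 := n11) (n12 := n12) (n13 := n13) (n21 := n21) (n22 := n22)
    (n23 := n23) (n31 := n31) (n32 := n32) (n33 := n33) (by linarith) (by linarith) (by linarith)
    (by rw [s12, abs_le]; constructor <;> linarith) (by rw [s13, abs_le]; constructor <;> linarith)
    (by rw [s23, abs_le]; constructor <;> linarith)
  rw [s12, s13, s23] at hs
  have e : symd d = det3 n11 (-1 + (d 5 - d 0 - d 1) / 2) (-1 + (d 4 - d 0 - d 2) / 2)
      (-1 + (d 5 - d 0 - d 1) / 2) n22 (-1 + (d 3 - d 1 - d 2) / 2)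
      (-1 + (d 4 - d 0 - d 2) / 2) (-1 + (d 3 - d 1 - d 2) / 2) n33 := by
    unfold symd
    have g0 : 4 + d 0 = n11 := by linarith
    have g1 : 4 + d 1 = n22 := by linarith
    have g2 : 4 + d 2 = n33 := by linarith
    rw [g0, g1, g2]
  rw [← e] at hs
  have hid := det_id p q r u
  have m11 : u 3 * X 0 p - p 3 * X 0 u = u 3 * n11 := by rw [e11]; field_simp
  have m12 : u 3 * X 0 q - q 3 * X 0 u = u 3 * n12 := by rw [e12]; field_simp
  have m13 : u 3 * X 0 r - r 3 * X 0 u = u 3 * n13 := by rw [e13]; field_simp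
  have m21 : u 3 * X 1 p - p 3 * X 1 u = u 3 * n21 := by rw [e21]; field_simp
  have m22 : u 3 * X 1 q - q 3 * X 1 u = u 3 * n22 := by rw [e22]; field_simp
  have m23 : u 3 * X 1 r - r 3 * X 1 u = u 3 * n23 := by rw [e23]; field_simp
  have m31 : u 3 * X 2 p - p 3 * X 2 u = u 3 * n31 := by rw [e31]; field_simp
  have m32 : u 3 * X 2 q - q 3 * X 2 u = u 3 * n32 := by rw [e32]; field_simp
  have m33 : u 3 * X 2 r - r 3 * X 2 u = u 3 * n33 := by rw [e33]; field_simp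
  rw [m11, m12, m13, m21, m22, m23, m31, m32, m33] at hid
  have hhom : det3 (u 3 * n11) (u 3 * n12) (u 3 * n13) (u 3 * n21) (u 3 * n22) (u 3 * n23)
      (u 3 * n31) (u 3 * n32) (u 3 * n33) =
      u 3 ^ 2 * (u 3 * det3 n11 n12 n13 n21 n22 n23 n31 n32 n33) := by
    unfold det3
    ring
  rw [hhom] at hid
  have h50 : 50 * (Matrix.of ![p, q, r, u]).det =
      u 3 * det3 n11 n12 n13 n21 n22 n23 n31 n32 n33 := by
    have hne : u 3 ^ 2 ≠ 0 := by positivity
    apply mul_left_cancel₀ hne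
    linarith
  rw [h50]
  nlinarith

theorem type1_false {U : Ultrafilter ℕ} {ε : ℕ → ℝ} {Λ : ℕ → AddSubgroup (Fin 4 → ℝ)}
    (hε : ∀ m, 0 < ε m) (hεU : Tendsto ε U (𝓝 0))
    (hsep : ∀ m, ∀ v ∈ Λ m, v ≠ 0 → Sep (ε m) v)
    (hF : ∀ m, ∀ F : Set (Fin 4 → ℝ), MeasurableSet F → Bornology.IsBounded F →
      (∀ v ∈ Λ m, v ≠ 0 → Disjoint F (tr v F)) →
      volume F < ENNReal.ofReal (1 - 149 / 100 * ε m))
    (hV : V0 ∈ Lim U Λ) (a : Fin 3 → ℝ) (a0 : ∀ i, 0 ≤ a i) (a1 : ∀ i, a i < 1)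
    (hane : ∃ i, 0 < a i) (hE : ∀ i, E i (a i) ∈ Lim U Λ) : False := by
  obtain ⟨u, hu, hul⟩ := hV
  obtain ⟨p, hp, hpl⟩ := hE 0
  obtain ⟨q, hq, hql⟩ := hE 1
  obtain ⟨r, hr, hrl⟩ := hE 2
  -- coordinatewise limits
  have u3l : Tendsto (fun m => u m 3) U (𝓝 1) := by
    have := (tendsto_pi_nhds.mp hul) 3
    rwa [V03] at this
  have p3l : Tendsto (fun m => p m 3) U (𝓝 (a 0)) := by
    have := (tendsto_pi_nhds.mp hpl) 3
    rwa [E3] at this
  have q3l : Tendsto (fun m => q m 3) U (𝓝 (a 1)) := by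
    have := (tendsto_pi_nhds.mp hql) 3
    rwa [E3] at this
  have r3l : Tendsto (fun m => r m 3) U (𝓝 (a 2)) := by
    have := (tendsto_pi_nhds.mp hrl) 3
    rwa [E3] at this
  have Xu : ∀ i, Tendsto (fun m => X i (u m)) U (𝓝 0) := by
    intro i
    have := ((X_cont i).tendsto _).comp hul
    rwa [X_V0] at this
  have Xp : ∀ i, Tendsto (fun m => X i (p m)) U (𝓝 (X i (E 0 (a 0)))) := fun i =>
    ((X_cont i).tendsto _).comp hpl
  have Xq : ∀ i, Tendsto (fun m => X i (q m)) U (𝓝 (X i (E 1 (a 1)))) := fun i =>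
    ((X_cont i).tendsto _).comp hql
  have Xr : ∀ i, Tendsto (fun m => X i (r m)) U (𝓝 (X i (E 2 (a 2)))) := fun i =>
    ((X_cont i).tendsto _).comp hrl
  have hu1 : ∀ᶠ m in (U : Filter ℕ), 1 ≤ u m 3 := by
    have e1 : ∀ᶠ m in (U : Filter ℕ), ∀ i, |X i (u m)| / 4 + ε m * rw' (u m 3) < 1 := by
      rw [eventually_all]
      intro i
      exact ev_X hεU hul i (by rw [X_V0]; norm_num)
    have e2 : ∀ᶠ m in (U : Filter ℕ), ∀ i, |Y i (u m)| / 6 + ε m * |u m 3| < 1 := by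
      rw [eventually_all]
      intro i
      exact ev_Y hεU hul i (by rw [Y_eq, W_eq, X_V0, X_V0, X_V0, X_V0]; norm_num)
    have e3 := ev_W hεU hul (by rw [W_eq, X_V0, X_V0, X_V0]; norm_num)
    have e4 : ∀ᶠ m in (U : Filter ℕ), 0 < u m 3 := u3l.eventually (lt_mem_nhds one_pos)
    filter_upwards [e1, e2, e3, e4] with m m1 m2 m3 m4
    have hne : u m ≠ 0 := by
      intro h
      rw [h] at m4
      exact lt_irrefl _ m4
    rcases hsep m _ (hu m) hne with ⟨l, h⟩ | ⟨l, h⟩ | h | h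
    · exact absurd h (not_le.2 (m1 l))
    · exact absurd h (not_le.2 (m2 l))
    · exact absurd h (not_le.2 m3)
    · rwa [abs_of_pos m4] at h
  -- the ten sequences
  set d0 : ℕ → ℝ := fun m => X 0 (p m) - p m 3 / u m 3 * X 0 (u m) - 4 with hd0
  set d1 : ℕ → ℝ := fun m => X 1 (q m) - q m 3 / u m 3 * X 1 (u m) - 4 with hd1
  set d2 : ℕ → ℝ := fun m => X 2 (r m) - r m 3 / u m 3 * X 2 (u m) - 4 with hd2
  set d3 : ℕ → ℝ := fun m => Y 0 (q m + r m) - (q m 3 + r m 3) / u m 3 * Y 0 (u m) - 6 with hd3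
  set d4 : ℕ → ℝ := fun m => Y 1 (p m + r m) - (p m 3 + r m 3) / u m 3 * Y 1 (u m) - 6 with hd4
  set d5 : ℕ → ℝ := fun m => Y 2 (p m + q m) - (p m 3 + q m 3) / u m 3 * Y 2 (u m) - 6 with hd5
  set f : Fin 10 → ℕ → ℝ := ![d0, d1, d2, d3, d4, d5, fun m => X 0 (u m), fun m => X 1 (u m),
    fun m => X 2 (u m), ε] with hf
  set ρ : ℕ → ℝ := fun m => ∑ j, |f j m| with hρ
  have hρpos : ∀ m, 0 < ρ m := by
    intro m
    have h1 : |f 9 m| ≤ ρ m :=
      Finset.single_le_sum (f := fun j => |f j m|) (fun j _ => abs_nonneg _) (Finset.mem_univ 9)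
    have h2 : f 9 m = ε m := rfl
    rw [h2, abs_of_pos (hε m)] at h1
    exact (hε m).trans_le h1
  obtain ⟨l, hl, hsum⟩ := norm_lim U f (Filter.Eventually.of_forall hρpos)
  have l0 : Tendsto (fun m => d0 m / ρ m) U (𝓝 (l 0)) := hl 0
  have l1 : Tendsto (fun m => d1 m / ρ m) U (𝓝 (l 1)) := hl 1
  have l2 : Tendsto (fun m => d2 m / ρ m) U (𝓝 (l 2)) := hl 2
  have l3 : Tendsto (fun m => d3 m / ρ m) U (𝓝 (l 3)) := hl 3
  have l4 : Tendsto (fun m => d4 m / ρ m) U (𝓝 (l 4)) := hl 4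
  have l5 : Tendsto (fun m => d5 m / ρ m) U (𝓝 (l 5)) := hl 5
  have l6 : Tendsto (fun m => X 0 (u m) / ρ m) U (𝓝 (l 6)) := hl 6
  have l7 : Tendsto (fun m => X 1 (u m) / ρ m) U (𝓝 (l 7)) := hl 7
  have l8 : Tendsto (fun m => X 2 (u m) / ρ m) U (𝓝 (l 8)) := hl 8
  have l9 : Tendsto (fun m => ε m / ρ m) U (𝓝 (l 9)) := hl 9
  have y0 : Tendsto (fun m => Y 0 (u m) / ρ m) U (𝓝 (l 7 + l 8)) := by
    refine (l7.add l8).congr fun m => ?_
    rw [Y_eq, W_eq]
    ring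
  have y1 : Tendsto (fun m => Y 1 (u m) / ρ m) U (𝓝 (l 6 + l 8)) := by
    refine (l6.add l8).congr fun m => ?_
    rw [Y_eq, W_eq]
    ring
  have y2 : Tendsto (fun m => Y 2 (u m) / ρ m) U (𝓝 (l 6 + l 7)) := by
    refine (l6.add l7).congr fun m => ?_
    rw [Y_eq, W_eq]
    ring
  have hρev : ∀ᶠ m in (U : Filter ℕ), 0 < ρ m := Filter.Eventually.of_forall hρpos
  have he : 0 ≤ l 9 := by
    refine ge_of_tendsto l9 (Filter.Eventually.of_forall fun m => ?_)
    exact div_nonneg (hε m).le (hρpos m).le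
  -- the constraints for `e_i`
  have tl : ∀ (w : ℕ → Fin 4 → ℝ) (c : ℝ) (n : ℤ), Tendsto (fun m => w m 3) U (𝓝 c) →
      Tendsto (fun m => (w m - (n : ℝ) • u m) 3) U (𝓝 (c - n)) := by
    intro w c n hw
    have := hw.sub (u3l.const_mul (n : ℝ))
    rw [mul_one] at this
    refine this.congr fun m => ?_
    rw [Pi.sub_apply, Pi.smul_apply, smul_eq_mul]
  have cX : ∀ (i : Fin 3) (w : ℕ → Fin 4 → ℝ) (ls hs : ℝ) (n : ℤ), (∀ m, w m ∈ Λ m) →
      Tendsto w U (𝓝 (E i (a i))) → |a i - n| < 1 →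
      Tendsto (fun m => (X i (w m) - w m 3 / u m 3 * X i (u m) - 4) / ρ m) U (𝓝 ls) →
      Tendsto (fun m => X i (u m) / ρ m) U (𝓝 hs) →
      -(4 * l 9 * rw' (a i - n)) ≤ ls + (a i - n) * hs := by
    intro i w ls hs n hw hwl hn hls hhs
    have hw3 : Tendsto (fun m => w m 3) U (𝓝 (a i)) := by
      have := (tendsto_pi_nhds.mp hwl) 3
      rwa [E3] at this
    exact lim_constr (R := rw') (c := 4) rw_cont hρev
      (conX hεU hsep hw hu hwl hul n hn) l9 hls hhs (tl w (a i) n hw3) u3l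
  have c1 := cX 0 p (l 0) (l 6) 0 hp hpl (by
    rw [Int.cast_zero, sub_zero, abs_of_nonneg (a0 0)]; exact a1 0) l0 l6
  have c2 := cX 1 q (l 1) (l 7) 0 hq hql (by
    rw [Int.cast_zero, sub_zero, abs_of_nonneg (a0 1)]; exact a1 1) l1 l7
  have c3 := cX 2 r (l 2) (l 8) 0 hr hrl (by
    rw [Int.cast_zero, sub_zero, abs_of_nonneg (a0 2)]; exact a1 2) l2 l8
  rw [Int.cast_zero, sub_zero] at c1 c2 c3
  have rwf : ∀ t : ℝ, rw' (t - ((1 : ℤ) : ℝ)) = rw' (1 - t) := by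
    intro t
    rw [← rw_neg]
    congr 1
    push_cast
    ring
  have c1' : 0 < a 0 → -(4 * l 9 * rw' (1 - a 0)) ≤ l 0 + (a 0 - 1) * l 6 := by
    intro h
    have := cX 0 p (l 0) (l 6) 1 hp hpl (by
      rw [Int.cast_one, abs_lt]; constructor <;> linarith [a1 0]) l0 l6
    rw [rwf] at this
    push_cast at this
    exact this
  have c2' : 0 < a 1 → -(4 * l 9 * rw' (1 - a 1)) ≤ l 1 + (a 1 - 1) * l 7 := by
    intro h
    have := cX 1 q (l 1) (l 7) 1 hq hql (by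
      rw [Int.cast_one, abs_lt]; constructor <;> linarith [a1 1]) l1 l7
    rw [rwf] at this
    push_cast at this
    exact this
  have c3' : 0 < a 2 → -(4 * l 9 * rw' (1 - a 2)) ≤ l 2 + (a 2 - 1) * l 8 := by
    intro h
    have := cX 2 r (l 2) (l 8) 1 hr hrl (by
      rw [Int.cast_one, abs_lt]; constructor <;> linarith [a1 2]) l2 l8
    rw [rwf] at this
    push_cast at this
    exact this
  -- the constraints for `e_j + e_k`
  have cY : ∀ (i j k : Fin 3) (v w : ℕ → Fin 4 → ℝ) (ls hs : ℝ) (n : ℤ), i ≠ j → i ≠ k →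
      j ≠ k → (∀ m, v m ∈ Λ m) → (∀ m, w m ∈ Λ m) →
      Tendsto v U (𝓝 (E j (a j))) → Tendsto w U (𝓝 (E k (a k))) → |a j + a k - n| < 1 →
      Tendsto (fun m => (Y i (v m + w m) - (v m 3 + w m 3) / u m 3 * Y i (u m) - 6) / ρ m) U
        (𝓝 ls) →
      Tendsto (fun m => Y i (u m) / ρ m) U (𝓝 hs) →
      -(6 * l 9 * |a j + a k - n|) ≤ ls + (a j + a k - n) * hs := by
    intro i j k v w ls hs n hij hik hjk hv hw hvl hwl hn hls hhs
    have hv3 : Tendsto (fun m => v m 3) U (𝓝 (a j)) := by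
      have := (tendsto_pi_nhds.mp hvl) 3
      rwa [E3] at this
    have hw3 : Tendsto (fun m => w m 3) U (𝓝 (a k)) := by
      have := (tendsto_pi_nhds.mp hwl) 3
      rwa [E3] at this
    have ht : Tendsto (fun m => (v m + w m - (n : ℝ) • u m) 3) U (𝓝 (a j + a k - n)) :=
      tl (fun m => v m + w m) (a j + a k) n (hv3.add hw3)
    exact lim_constr (R := fun t => |t|) (c := 6) continuous_abs hρev
      (conY hεU hsep hij hik hjk hv hw hu hvl hwl hul n hn) l9 hls hhs ht u3l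
  have hn : ∀ j k : Fin 3, ∃ n : ℤ, ((n : ℝ) = 0 ∨ (n : ℝ) = 1) ∧ 0 ≤ a j + a k - n ∧
      a j + a k - n < 1 := by
    intro j k
    by_cases h : a j + a k < 1
    · refine ⟨0, Or.inl (by norm_num), ?_, ?_⟩
      · push_cast
        linarith [a0 j, a0 k]
      · push_cast
        linarith
    · push Not at h
      refine ⟨1, Or.inr (by norm_num), ?_, ?_⟩
      · push_cast
        linarith
      · push_cast
        linarith [a1 j, a1 k]
  obtain ⟨n1, hn1, r1, t1⟩ := hn 1 2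
  obtain ⟨n2, hn2, r2, t2⟩ := hn 0 2
  obtain ⟨n3, hn3, r3, t3⟩ := hn 0 1
  have k1 := cY 0 1 2 q r (l 3) (l 7 + l 8) n1 (by decide) (by decide) (by decide) hq hr hql hrl
    (by rw [abs_of_nonneg r1]; exact t1) l3 y0
  have k2 := cY 1 0 2 p r (l 4) (l 6 + l 8) n2 (by decide) (by decide) (by decide) hp hr hpl hrl
    (by rw [abs_of_nonneg r2]; exact t2) l4 y1
  have k3 := cY 2 0 1 p q (l 5) (l 6 + l 7) n3 (by decide) (by decide) (by decide) hp hq hpl hql
    (by rw [abs_of_nonneg r3]; exact t3) l5 y2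
  rw [abs_of_nonneg r1] at k1
  rw [abs_of_nonneg r2] at k2
  rw [abs_of_nonneg r3] at k3
  have hneg : ∀ s : ℝ, 0 < s → s < 1 → |s - 1| = 1 - s := by
    intro s h1 h2
    rw [abs_of_nonpos (by linarith)]
    ring
  have k1' : 0 < a 1 + a 2 - n1 → -(6 * l 9 * (1 - (a 1 + a 2 - n1))) ≤
      l 3 + ((a 1 + a 2 - n1) - 1) * (l 7 + l 8) := by
    intro h
    have e : a 1 + a 2 - ((n1 + 1 : ℤ) : ℝ) = (a 1 + a 2 - n1) - 1 := by
      push_cast
      ring
    have h2 := cY 0 1 2 q r (l 3) (l 7 + l 8) (n1 + 1) (by decide) (by decide) (by decide) hq hr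
      hql hrl (by rw [e, hneg _ h t1]; linarith) l3 y0
    rwa [e, hneg _ h t1] at h2
  have k2' : 0 < a 0 + a 2 - n2 → -(6 * l 9 * (1 - (a 0 + a 2 - n2))) ≤
      l 4 + ((a 0 + a 2 - n2) - 1) * (l 6 + l 8) := by
    intro h
    have e : a 0 + a 2 - ((n2 + 1 : ℤ) : ℝ) = (a 0 + a 2 - n2) - 1 := by
      push_cast
      ring
    have h2 := cY 1 0 2 p r (l 4) (l 6 + l 8) (n2 + 1) (by decide) (by decide) (by decide) hp hr
      hpl hrl (by rw [e, hneg _ h t2]; linarith) l4 y1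
    rwa [e, hneg _ h t2] at h2
  have k3' : 0 < a 0 + a 1 - n3 → -(6 * l 9 * (1 - (a 0 + a 1 - n3))) ≤
      l 5 + ((a 0 + a 1 - n3) - 1) * (l 6 + l 7) := by
    intro h
    have e : a 0 + a 1 - ((n3 + 1 : ℤ) : ℝ) = (a 0 + a 1 - n3) - 1 := by
      push_cast
      ring
    have h2 := cY 2 0 1 p q (l 5) (l 6 + l 7) (n3 + 1) (by decide) (by decide) (by decide) hp hq
      hpl hql (by rw [e, hneg _ h t3]; linarith) l5 y2
    rwa [e, hneg _ h t3] at h2
  -- the determinant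
  set g : ℕ → Fin 6 → ℝ := fun m => ![d0 m, d1 m, d2 m, d3 m, d4 m, d5 m] with hg
  have Yl : ∀ (v : ℕ → Fin 4 → ℝ) (vs : Fin 4 → ℝ) (i : Fin 3), Tendsto v U (𝓝 vs) →
      Tendsto (fun m => Y i (v m)) U (𝓝 (Y i vs)) := fun v vs i hv =>
    ((Y_cont i).tendsto _).comp hv
  have Yu : ∀ i, Tendsto (fun m => Y i (u m)) U (𝓝 0) := by
    intro i
    have := Yl u V0 i hul
    have e : Y i V0 = 0 := by rw [Y_eq, W_eq, X_V0, X_V0, X_V0, X_V0]; norm_num
    rwa [e] at this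
  have YE : ∀ i j k : Fin 3, i ≠ j → i ≠ k → j ≠ k → ∀ x y : ℝ, Y i (E j x + E k y) = 6 := by
    intro i j k hij hik hjk x y
    rw [Y_eq, W_perm hij hik hjk, X_add, X_add, X_add, X_E_ne hij, X_E_ne hik, X_E_same,
      X_E_ne hjk, X_E_ne hjk.symm, X_E_same]
    norm_num
  have dl0 : Tendsto d0 U (𝓝 0) := by
    have := ((Xp 0).sub ((p3l.div u3l one_ne_zero).mul (Xu 0))).sub_const 4
    rw [X_E_same, mul_zero, sub_zero, sub_self] at this
    exact this
  have dl1 : Tendsto d1 U (𝓝 0) := by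
    have := ((Xq 1).sub ((q3l.div u3l one_ne_zero).mul (Xu 1))).sub_const 4
    rw [X_E_same, mul_zero, sub_zero, sub_self] at this
    exact this
  have dl2 : Tendsto d2 U (𝓝 0) := by
    have := ((Xr 2).sub ((r3l.div u3l one_ne_zero).mul (Xu 2))).sub_const 4
    rw [X_E_same, mul_zero, sub_zero, sub_self] at this
    exact this
  have dl3 : Tendsto d3 U (𝓝 0) := by
    have := ((Yl (fun m => q m + r m) _ 0 (hql.add hrl)).sub
      (((q3l.add r3l).div u3l one_ne_zero).mul (Yu 0))).sub_const 6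
    rw [YE 0 1 2 (by decide) (by decide) (by decide), mul_zero, sub_zero, sub_self] at this
    exact this
  have dl4 : Tendsto d4 U (𝓝 0) := by
    have := ((Yl (fun m => p m + r m) _ 1 (hpl.add hrl)).sub
      (((p3l.add r3l).div u3l one_ne_zero).mul (Yu 1))).sub_const 6
    rw [YE 1 0 2 (by decide) (by decide) (by decide), mul_zero, sub_zero, sub_self] at this
    exact this
  have dl5 : Tendsto d5 U (𝓝 0) := by
    have := ((Yl (fun m => p m + q m) _ 2 (hpl.add hql)).sub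
      (((p3l.add q3l).div u3l one_ne_zero).mul (Yu 2))).sub_const 6
    rw [YE 2 0 1 (by decide) (by decide) (by decide), mul_zero, sub_zero, sub_self] at this
    exact this
  have hgl : Tendsto g U (𝓝 0) := by
    rw [tendsto_pi_nhds]
    intro k
    fin_cases k
    · exact dl0
    · exact dl1
    · exact dl2
    · exact dl3
    · exact dl4
    · exact dl5
  set x : ℕ → Fin 6 → ℝ := fun m k => g m k / ρ m with hx
  have hxl : Tendsto x U (𝓝 ![l 0, l 1, l 2, l 3, l 4, l 5]) := by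
    rw [tendsto_pi_nhds]
    intro k
    fin_cases k
    · exact l0
    · exact l1
    · exact l2
    · exact l3
    · exact l4
    · exact l5
  have hGl : Tendsto (fun m => GG (x m) (g m)) U
      (𝓝 (5 * (l 0 + l 1 + l 2 + l 3 + l 4 + l 5))) := by
    have h1 : Tendsto (fun m => (x m, g m)) U
        (𝓝 ((![l 0, l 1, l 2, l 3, l 4, l 5] : Fin 6 → ℝ), (0 : Fin 6 → ℝ))) :=
      hxl.prodMk_nhds hgl
    have h2 := (GG_cont.tendsto ((![l 0, l 1, l 2, l 3, l 4, l 5] : Fin 6 → ℝ),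
      (0 : Fin 6 → ℝ))).comp h1
    have h3 : GG (![l 0, l 1, l 2, l 3, l 4, l 5] : Fin 6 → ℝ) (0 : Fin 6 → ℝ) =
        5 * (l 0 + l 1 + l 2 + l 3 + l 4 + l 5) := by
      rw [GG_zero]
      rfl
    rw [h3] at h2
    exact h2
  have hsym : ∀ m, symd (g m) = 50 + ρ m * GG (x m) (g m) := by
    intro m
    have h1 : g m = fun k => ρ m * x m k := by
      funext k
      simp only [hx]
      rw [mul_div_cancel₀ _ (hρpos m).ne']
    have h2 := symd_eq (x m) (ρ m)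
    rw [← h1] at h2
    exact h2
  have hsmall : ∀ᶠ m in (U : Filter ℕ), ∀ k, |g m k| ≤ 1 / 20 := by
    rw [eventually_all]
    intro k
    have := ((tendsto_pi_nhds.mp hgl) k).abs
    rw [Pi.zero_apply, abs_zero] at this
    filter_upwards [this.eventually (gt_mem_nhds (by norm_num : (0 : ℝ) < 1 / 20))] with m hm
    exact hm.le
  have hspos : ∀ᶠ m in (U : Filter ℕ), 0 < symd (g m) := by
    have h1 : Continuous symd := by
      unfold symd det3
      fun_prop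
    have h2 := (h1.tendsto _).comp hgl
    have h3 : symd 0 = 50 := by
      unfold symd det3
      norm_num
    rw [h3] at h2
    exact h2.eventually (lt_mem_nhds (by norm_num))
  -- closeness
  have near : ∀ (φ : ℕ → ℝ) (c b : ℝ), Tendsto φ U (𝓝 c) → c + b = 0 →
      ∀ᶠ m in (U : Filter ℕ), |φ m + b| ≤ 1 / 100 := by
    intro φ c b h hc
    have := (h.add_const b).abs
    rw [hc, abs_zero] at this
    filter_upwards [this.eventually (gt_mem_nhds (by norm_num : (0 : ℝ) < 1 / 100))] with m hm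
    exact hm.le
  have f00 := near _ _ (-4) (Xp 0) (by rw [X_E_same]; norm_num)
  have f10 := near _ _ 1 (Xp 1) (by rw [X_E_ne (by decide)]; norm_num)
  have f20 := near _ _ 1 (Xp 2) (by rw [X_E_ne (by decide)]; norm_num)
  have f01 := near _ _ 1 (Xq 0) (by rw [X_E_ne (by decide)]; norm_num)
  have f11 := near _ _ (-4) (Xq 1) (by rw [X_E_same]; norm_num)
  have f21 := near _ _ 1 (Xq 2) (by rw [X_E_ne (by decide)]; norm_num)
  have f02 := near _ _ 1 (Xr 0) (by rw [X_E_ne (by decide)]; norm_num)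
  have f12 := near _ _ 1 (Xr 1) (by rw [X_E_ne (by decide)]; norm_num)
  have f22 := near _ _ (-4) (Xr 2) (by rw [X_E_same]; norm_num)
  have f03 := near _ _ 0 (Xu 0) (by norm_num)
  have f13 := near _ _ 0 (Xu 1) (by norm_num)
  have f23 := near _ _ 0 (Xu 2) (by norm_num)
  have lt3 : ∀ (φ : ℕ → ℝ) (c : ℝ), Tendsto φ U (𝓝 c) → 0 ≤ c → c ≤ 1 →
      ∀ᶠ m in (U : Filter ℕ), |φ m| ≤ 101 / 100 := by
    intro φ c h h0 h1
    have h2 : |c| < 101 / 100 := by
      rw [abs_of_nonneg h0]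
      linarith
    filter_upwards [h.abs.eventually (gt_mem_nhds h2)] with m hm
    exact hm.le
  have f30 := lt3 _ _ p3l (a0 0) (a1 0).le
  have f31 := lt3 _ _ q3l (a0 1) (a1 1).le
  have f32 := lt3 _ _ r3l (a0 2) (a1 2).le
  have f33 := lt3 _ _ u3l zero_le_one le_rfl
  have hε100 : ∀ᶠ m in (U : Filter ℕ), ε m ≤ 1 / 100 := by
    filter_upwards [hεU.eventually (gt_mem_nhds (by norm_num : (0 : ℝ) < 1 / 100))] with m hm
    exact hm.le
  have hfin : ∀ᶠ m in (U : Filter ℕ), GG (x m) (g m) ≤ -(149 / 2) * (ε m / ρ m) := by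
    filter_upwards [hu1, hsmall, hspos, f00, f10, f20, f01, f11, f21, f02, f12, f22, f03, f13,
      f23, f30, f31, f32, f33, hε100] with m m1 m2 m3 w00 w10 w20 w01 w11 w21 w02 w12 w22 w03
      w13 w23 w30 w31 w32 w33 wε
    have hch := det_chain (p := p m) (q := q m) (r := r m) (u := u m) (d := g m) rfl rfl rfl rfl
      rfl rfl m1 m2 m3
    have hdet : 0 < (Matrix.of ![p m, q m, r m, u m]).det := by linarith
    have hfd := fd (hε m) wε (hsep m) (hp m) (hq m) (hr m) (hu m)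
      (by rw [← sub_eq_add_neg] at w00; exact w00) w10 w20 w01
      (by rw [← sub_eq_add_neg] at w11; exact w11) w21 w02 w12
      (by rw [← sub_eq_add_neg] at w22; exact w22)
      (by rwa [add_zero] at w03) (by rwa [add_zero] at w13) (by rwa [add_zero] at w23)
      w30 w31 w32 m1 ((le_abs_self _).trans w33) hdet.ne' (hF m)
    rw [abs_of_pos hdet] at hfd
    rw [hsym m] at hch
    have h1 : ρ m * GG (x m) (g m) ≤ -(149 / 2) * ε m := by linarith
    have h2 : GG (x m) (g m) = ρ m * GG (x m) (g m) / ρ m := by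
      rw [mul_div_cancel_left₀ _ (hρpos m).ne']
    rw [h2]
    have h3 : -(149 / 2) * (ε m / ρ m) = (-(149 / 2) * ε m) / ρ m := by ring
    rw [h3]
    exact div_le_div_of_nonneg_right h1 (hρpos m).le
  have hL : l 0 + l 1 + l 2 + l 3 + l 4 + l 5 ≤ -(149 / 10) * l 9 := by
    have := le_of_tendsto_of_tendsto hGl (l9.const_mul (-(149 / 2))) hfin
    linarith
  have hane' : 0 < a 0 ∨ 0 < a 1 ∨ 0 < a 2 := by
    obtain ⟨i, hi⟩ := hane
    fin_cases i
    · exact Or.inl hi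
    · exact Or.inr (Or.inl hi)
    · exact Or.inr (Or.inr hi)
  obtain ⟨z9, z0, z1, z2, z3, z4, z5, z6, z7, z8⟩ := L_zero he (a0 0) (a0 1) (a0 2) (a1 0) (a1 1)
    (a1 2) hane' hn1 hn2 hn3 rfl rfl rfl r1 r2 r3 t1 t2 t3 c1 c1' c2 c2' c3 c3' k1 k1' k2 k2'
    k3 k3' hL
  have : ∑ k, |l k| = 0 := by
    simp only [Fin.sum_univ_succ, Finset.univ_unique, Finset.sum_singleton]
    show |l 0| + (|l 1| + (|l 2| + (|l 3| + (|l 4| + (|l 5| + (|l 6| + (|l 7| + (|l 8| +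
      |l 9|)))))))) = 0
    rw [z0, z1, z2, z3, z4, z5, z6, z7, z8, z9]
    simp
  rw [hsum] at this
  exact one_ne_zero this

end Pool.Agent.H96.T4
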