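import Pool.Agent.H96.T4.Bod
import Pool.Agent.H96.T4.Tau
import Pool.Agent.H96.T4.Type0
import Pool.Agent.H96.T4.Type1

/-!
# Dimension four (MP_c4753b_co): the bound for lattice packings and the assembly
-/

set_option autoImplicit false

open MeasureTheory Filter Topology Set
open scoped ENNReal

namespace Pool.Agent.H96.T4

open H947TP Pool.Agent.K3h79.R5

/-- the bound for all subgroups -/
theorem bound : ∃ ε0 : ℝ, 0 < ε0 ∧ ∀ ε, 0 < ε → ε < ε0 → ∀ Λ : AddSubgroup (Fin 4 → ℝ),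
    (∀ v ∈ Λ, v ≠ 0 → Sep ε v) →
    ∃ F : Set (Fin 4 → ℝ), MeasurableSet F ∧ Bornology.IsBounded F ∧
      (∀ v ∈ Λ, v ≠ 0 → Disjoint F (tr v F)) ∧
      ENNReal.ofReal (1 - 149 / 100 * ε) ≤ volume F := by
  by_contra hcon
  push Not at hcon
  have hex : ∀ m : ℕ, ∃ e : ℝ, ∃ Λ : AddSubgroup (Fin 4 → ℝ), 0 < e ∧
      e < 1 / 10 * (1 / ((m : ℝ) + 1)) ∧ (∀ v ∈ Λ, v ≠ 0 → Sep e v) ∧
      ∀ F : Set (Fin 4 → ℝ), MeasurableSet F → Bornology.IsBounded F →
        (∀ v ∈ Λ, v ≠ 0 → Disjoint F (tr v F)) →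
        volume F < ENNReal.ofReal (1 - 149 / 100 * e) := by
    intro m
    obtain ⟨e, he0, he1, Λ, hS, hF⟩ := hcon (1 / 10 * (1 / ((m : ℝ) + 1))) (by positivity)
    exact ⟨e, Λ, he0, he1, hS, hF⟩
  choose e Λ he0 he1 hS hF using hex
  set U : Ultrafilter ℕ := Filter.hyperfilter ℕ with hU
  have hUle : (U : Filter ℕ) ≤ atTop := Nat.hyperfilter_le_atTop
  have hlim : Tendsto e U (𝓝 0) := by
    have ht : Tendsto (fun m : ℕ => 1 / 10 * (1 / ((m : ℝ) + 1))) atTop (𝓝 0) := by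
      have := (tendsto_one_div_add_atTop_nhds_zero_nat (𝕜 := ℝ)).const_mul (1 / 10)
      simpa using this
    have h : Tendsto e atTop (𝓝 0) := squeeze_zero (fun m => (he0 m).le) (fun m => (he1 m).le) ht
    exact h.mono_left hUle
  have hcov := lim_cover (G := 149 / 100) (by norm_num) he0 hlim hS hF
  have hsep := lim_sep hlim hS
  rcases classify hsep hcov with hE | ⟨hV, a, a0, a1, hane, hE⟩
  · exact type0_false he0 hlim hS hF hE
  · exact type1_false he0 hlim hS hF hV a a0 a1 hane hE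

/-- the scales -/
noncomputable def scl (s : ℝ) (i : Fin 4) : ℝ := if i = 3 then 1 else s

theorem scl_prod (s : ℝ) : ∏ i, scl s i = s ^ 3 := by
  rw [Fin.prod_univ_four]
  unfold scl
  rw [if_neg (by decide), if_neg (by decide), if_neg (by decide), if_pos rfl]
  ring

theorem core4 : ∃ K : Set (Fin 4 → ℝ), Convex ℝ K ∧ IsCompact K ∧
    (interior K).Nonempty ∧ (∀ x ∈ K, -x ∈ K) ∧ deltaL K < deltaT K := by
  obtain ⟨ε0, hε0, hL⟩ := bound
  -- choose ε
  set ε : ℝ := min (ε0 / 2) (1 / 100) with hε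
  have hεpos : 0 < ε := lt_min (by linarith) (by norm_num)
  have hεε0 : ε < ε0 := lt_of_le_of_lt (min_le_left _ _) (by linarith)
  have hε100 : ε ≤ 1 / 100 := min_le_right _ _
  obtain ⟨hconv, hcomp, hint, hsymm, hvol0, hvolt, hpack⟩ := body_facts hεpos (by linarith)
  refine ⟨bod (gg ε), hconv, hcomp, hint, hsymm, ?_⟩
  have hpos1 : 0 < 1 - 149 / 100 * ε := by linarith
  -- lattice packings
  have hLL : deltaL (bod (gg ε)) ≤ volume (bod (gg ε)) / ENNReal.ofReal (1 - 149 / 100 * ε) := by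
    unfold deltaL
    refine iSup_le fun X => iSup_le fun hX => iSup_le fun hXp => ?_
    obtain ⟨bs, rfl⟩ := hX
    have hsep := (hpack _).1 hXp
    have hcar : ((latGroup bs : AddSubgroup (Fin 4 → ℝ)) : Set (Fin 4 → ℝ)) =
        {x | ∃ c : Fin 4 → ℤ, x = ∑ i, (c i : ℝ) • bs i} := rfl
    rw [← hcar] at hsep ⊢
    obtain ⟨F, hFm, hFb, hFd, hFv⟩ := hL ε hεpos hεε0 (latGroup bs) (by
      intro v hv hv0
      have := hsep v hv 0 (latGroup bs).zero_mem hv0
      simpa using this)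
    have hF0 : volume F ≠ 0 := by
      intro h0
      rw [h0] at hFv
      have := ENNReal.ofReal_pos.2 hpos1
      exact absurd hFv (not_le.2 this)
    refine (V2 V1 4 _ F (latGroup bs) (by norm_num) hcomp hFm hFb hF0 hFd).trans ?_
    exact ENNReal.div_le_div_left hFv _
  -- the non-lattice packing
  have hsepτ : ∀ Z Z' : Fin 4 → ℤ, Z ≠ Z' → Sep ε (tau ε Z - tau ε Z') := fun Z Z' hZ =>
    tau_sep hεpos (by linarith) Z Z' hZ
  have hinj : Function.Injective (tau ε) := by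
    intro Z Z' h
    by_contra hne
    have hk := hsepτ Z Z' hne
    rw [h, sub_self] at hk
    rcases hk with ⟨i, hk⟩ | ⟨i, hk⟩ | hk | hk
    · rw [X_zero, Pi.zero_apply, rw_small (by norm_num), abs_zero] at hk
      linarith
    · rw [Y_zero, Pi.zero_apply, abs_zero] at hk
      linarith
    · rw [W_zero, abs_zero] at hk
      linarith
    · rw [Pi.zero_apply, abs_zero] at hk
      linarith
  have hpk : IsPacking (bod (gg ε)) (range (tau ε)) := by
    rw [hpack]
    rintro _ ⟨Z, rfl⟩ _ ⟨Z', rfl⟩ hne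
    exact hsepτ Z Z' (fun h => hne (by rw [h]))
  have hs0 : 0 < 1 - ε / 2 := by linarith
  have hT1 : volume (bod (gg ε)) / ENNReal.ofReal ((1 - ε / 2) ^ 3) ≤ deltaT (bod (gg ε)) := by
    have h3 := Pool.Agent.K3h77.R5.t_V3 4 (bod (gg ε)) (scl (1 - ε / 2)) 1 (tau ε)
      (by norm_num) hcomp hconv (by
        intro i
        unfold scl
        split_ifs <;> linarith) (by
        intro Z i
        have hk0 : 0 ≤ kk Z ∧ kk Z < 4 :=
          ⟨Int.emod_nonneg _ (by norm_num), Int.emod_lt_of_pos _ (by norm_num)⟩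
        by_cases hi : i = 3
        · rw [hi, tau_3]
          unfold scl
          rw [if_pos rfl]
          have h1 : 0 ≤ kk Z / 2 ∧ kk Z / 2 ≤ 1 := by omega
          have h2 : (0 : ℝ) ≤ ((kk Z / 2 : ℤ) : ℝ) := by exact_mod_cast h1.1
          have h3 : ((kk Z / 2 : ℤ) : ℝ) ≤ 1 := by exact_mod_cast h1.2
          rw [abs_le]
          constructor <;> linarith
        · rw [tau_lt _ _ _ hi]
          unfold scl
          rw [if_neg hi]
          have h1 : 0 ≤ kk Z % 2 ∧ kk Z % 2 ≤ 1 := by omega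
          have h2 : (0 : ℝ) ≤ ((kk Z % 2 : ℤ) : ℝ) := by exact_mod_cast h1.1
          have h3 : ((kk Z % 2 : ℤ) : ℝ) ≤ 1 := by exact_mod_cast h1.2
          rw [abs_le]
          constructor <;> nlinarith) hinj hpk
    rw [scl_prod] at h3
    refine h3.trans ?_
    unfold deltaT
    exact le_iSup_of_le (range (tau ε)) (le_iSup_of_le hpk le_rfl)
  refine lt_of_le_of_lt hLL (lt_of_lt_of_le ?_ hT1)
  have hlt : ENNReal.ofReal ((1 - ε / 2) ^ 3) < ENNReal.ofReal (1 - 149 / 100 * ε) := by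
    rw [ENNReal.ofReal_lt_ofReal_iff hpos1]
    nlinarith [sq_nonneg ε, mul_pos hεpos hεpos, mul_pos hεpos (mul_pos hεpos hεpos)]
  exact ENNReal.div_lt_div_left hvol0 hvolt hlt

end Pool.Agent.H96.T4
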