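import Pool.Graph.R_seed8.H947R2.TP.All
import Pool.Graph.R_pool_sql_team_seeded_5cf16337.K3h79.R5.Body
import Pool.Graph.R_pool_sql_team_seeded_5cf16337.K3h77.R5.V3

/-!
# Dimension four (MP_c4753b_co): definitions

`ℝ^4` with coordinates `(v 0, v 1, v 2, v 3)`.  The base body is the prism over the Voronoi cell
of the quadratic form `5 I - J` on `ℤ^3`, described by the functionals `X i`, `Y i`, `Z`.
-/

set_option autoImplicit false

open MeasureTheory Filter Topology Set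
open scoped ENNReal

namespace Pool.Agent.H96.T4

/-- sum of the first three coordinates -/
def sm (v : Fin 4 → ℝ) : ℝ := v 0 + v 1 + v 2

/-- the functional of the facet `e_i` (value `4` at `e_i`) -/
def X (i : Fin 3) (v : Fin 4 → ℝ) : ℝ := 5 * v i.castSucc - sm v

/-- the functional of the facet `e_j + e_k`, `{i, j, k} = {0, 1, 2}` (value `6`) -/
def Y (i : Fin 3) (v : Fin 4 → ℝ) : ℝ := 3 * sm v - 5 * v i.castSucc

/-- the functional of the facet `e_0 + e_1 + e_2` (value `6`) -/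
def W (v : Fin 4 → ℝ) : ℝ := 2 * sm v

/-- the reward on the hexagonal facets `e_i` -/
noncomputable def rw' (t : ℝ) : ℝ := 12 / 25 + 2 / 5 * max 0 (|t| - 2 / 5)

/-- the gauges -/
noncomputable def gg (ε : ℝ) : (Fin 3 ⊕ Fin 3 ⊕ Bool) → (Fin 4 → ℝ) → ℝ
  | Sum.inl i => fun v => |X i v| / 4 + ε * rw' (v 3)
  | Sum.inr (Sum.inl i) => fun v => |Y i v| / 6 + ε * |v 3|
  | Sum.inr (Sum.inr false) => fun v => |W v| / 6 + ε * (27 / 50)
  | Sum.inr (Sum.inr true) => fun v => |v 3|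

/-- `v` separates -/
def Sep (ε : ℝ) (v : Fin 4 → ℝ) : Prop :=
  (∃ i, 1 ≤ |X i v| / 4 + ε * rw' (v 3)) ∨ (∃ i, 1 ≤ |Y i v| / 6 + ε * |v 3|) ∨
    1 ≤ |W v| / 6 + ε * (27 / 50) ∨ 1 ≤ |v 3|

/-- the scaled closed cell (without the condition on `v 3`) -/
def InP (r : ℝ) (v : Fin 4 → ℝ) : Prop :=
  (∀ i, |X i v| ≤ 2 * r) ∧ (∀ i, |Y i v| ≤ 3 * r) ∧ |W v| ≤ 3 * r

/-- the scaled open cell (without the condition on `v 3`) -/
def InO (r : ℝ) (v : Fin 4 → ℝ) : Prop :=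
  (∀ i, |X i v| < 2 * r) ∧ (∀ i, |Y i v| < 3 * r) ∧ |W v| < 3 * r

end Pool.Agent.H96.T4
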