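import Pool.Agent.H96.T4.Vol

/-!
# Dimension four (MP_c4753b_co): the limit of separated groups
-/

set_option autoImplicit false

open MeasureTheory Filter Topology Set
open scoped ENNReal

namespace Pool.Agent.H96.T4

open H947TP

/-- separation in the limit -/
def Sep0 (v : Fin 4 → ℝ) : Prop :=
  (∃ i, 4 ≤ |X i v|) ∨ (∃ i, 6 ≤ |Y i v|) ∨ 6 ≤ |W v| ∨ 1 ≤ |v 3|

theorem Sep0_coord {v : Fin 4 → ℝ} (h : Sep0 v) : ∃ l, 1 / 2 ≤ |v l| := by
  by_contra hcon
  push Not at hcon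
  have h0 := abs_lt.1 (hcon 0)
  have h1 := abs_lt.1 (hcon 1)
  have h2 := abs_lt.1 (hcon 2)
  have h3 := hcon 3
  rcases h with ⟨i, h⟩ | ⟨i, h⟩ | h | h
  · have : |X i v| < 4 := by
      rw [abs_lt]
      fin_cases i
      · show -4 < X 0 v ∧ X 0 v < 4
        rw [X0]
        constructor <;> linarith [h0.1, h0.2, h1.1, h1.2, h2.1, h2.2]
      · show -4 < X 1 v ∧ X 1 v < 4
        rw [X1]
        constructor <;> linarith [h0.1, h0.2, h1.1, h1.2, h2.1, h2.2]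
      · show -4 < X 2 v ∧ X 2 v < 4
        rw [X2]
        constructor <;> linarith [h0.1, h0.2, h1.1, h1.2, h2.1, h2.2]
    linarith
  · have : |Y i v| < 6 := by
      rw [abs_lt]
      fin_cases i
      · show -6 < Y 0 v ∧ Y 0 v < 6
        rw [Y0]
        constructor <;> linarith [h0.1, h0.2, h1.1, h1.2, h2.1, h2.2]
      · show -6 < Y 1 v ∧ Y 1 v < 6
        rw [Y1]
        constructor <;> linarith [h0.1, h0.2, h1.1, h1.2, h2.1, h2.2]
      · show -6 < Y 2 v ∧ Y 2 v < 6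
        rw [Y2]
        constructor <;> linarith [h0.1, h0.2, h1.1, h1.2, h2.1, h2.2]
    linarith
  · have : |W v| < 6 := by
      rw [abs_lt, W']
      constructor <;> linarith [h0.1, h0.2, h1.1, h1.2, h2.1, h2.2]
    linarith
  · linarith

/-- the bounded part of a separated group of vectors is finite -/
theorem finite_box (L : AddSubgroup (Fin 4 → ℝ)) (hs : ∀ v ∈ L, v ≠ 0 → Sep0 v) (R : ℝ) :
    {v : Fin 4 → ℝ | v ∈ L ∧ ∀ l, |v l| ≤ R}.Finite := by
  have h1 : (Set.Icc (fun _ : Fin 4 => -⌈2 * R⌉ - 1) (fun _ : Fin 4 => ⌈2 * R⌉)).Finite :=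
    Set.finite_Icc _ _
  apply Set.Finite.of_finite_image (f := fun v : Fin 4 → ℝ => fun l => ⌊2 * v l⌋)
  · refine h1.subset ?_
    rintro _ ⟨v, ⟨_, hv⟩, rfl⟩
    constructor
    · intro l
      have h3 := (abs_le.mp (hv l)).1
      have h2 := Int.le_ceil (2 * R)
      change -⌈2 * R⌉ - 1 ≤ ⌊2 * v l⌋
      rw [Int.le_floor]
      push_cast
      linarith
    · intro l
      have h3 := (abs_le.mp (hv l)).2
      change ⌊2 * v l⌋ ≤ ⌈2 * R⌉
      have h4 : (⌊2 * v l⌋ : ℝ) ≤ ⌈2 * R⌉ :=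
        (Int.floor_le _).trans ((by linarith : 2 * v l ≤ 2 * R).trans (Int.le_ceil (2 * R)))
      exact_mod_cast h4
  · intro v hv w hw hvw
    by_contra hne
    have hne' : v - w ≠ 0 := sub_ne_zero.mpr hne
    obtain ⟨l, hl⟩ := Sep0_coord (hs _ (L.sub_mem hv.1 hw.1) hne')
    have h5 : ⌊2 * v l⌋ = ⌊2 * w l⌋ := congrFun hvw l
    have h4 := Int.abs_sub_lt_one_of_floor_eq_floor h5
    rw [← mul_sub, abs_mul, abs_two] at h4
    simp only [Pi.sub_apply] at hl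
    linarith

/-- nonzero vectors of the limit are separated -/
theorem lim_sep {U : Ultrafilter ℕ} {ε : ℕ → ℝ} {Λ : ℕ → AddSubgroup (Fin 4 → ℝ)}
    (hε : Tendsto ε U (𝓝 0)) (hsep : ∀ m, ∀ v ∈ Λ m, v ≠ 0 → Sep (ε m) v) :
    ∀ v ∈ Lim U Λ, v ≠ 0 → Sep0 v := by
  intro v hv hv0
  obtain ⟨vs, hvs, ht⟩ := hv
  by_contra hcon
  unfold Sep0 at hcon
  push Not at hcon
  obtain ⟨c1, c2, c3, c4⟩ := hcon
  have h3 : Tendsto (fun m => vs m 3) U (𝓝 (v 3)) := (tendsto_pi_nhds.mp ht) 3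
  have t1 : ∀ i, Tendsto (fun m => |X i (vs m)| / 4 + ε m * rw' (vs m 3)) U
      (𝓝 (|X i v| / 4 + 0 * rw' (v 3))) := fun i =>
    ((((X_cont i).tendsto v).comp ht).abs.div_const 4).add
      (hε.mul ((rw_cont.tendsto _).comp h3))
  have t2 : ∀ i, Tendsto (fun m => |Y i (vs m)| / 6 + ε m * |vs m 3|) U
      (𝓝 (|Y i v| / 6 + 0 * |v 3|)) := fun i =>
    ((((Y_cont i).tendsto v).comp ht).abs.div_const 6).add (hε.mul h3.abs)
  have t3 : Tendsto (fun m => |W (vs m)| / 6 + ε m * (27 / 50)) U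
      (𝓝 (|W v| / 6 + 0 * (27 / 50))) :=
    (((W_cont.tendsto v).comp ht).abs.div_const 6).add (hε.mul tendsto_const_nhds)
  have e1 : ∀ᶠ m in (U : Filter ℕ), ∀ i, |X i (vs m)| / 4 + ε m * rw' (vs m 3) < 1 := by
    rw [eventually_all]
    intro i
    refine (t1 i).eventually (gt_mem_nhds ?_)
    have := c1 i
    linarith
  have e2 : ∀ᶠ m in (U : Filter ℕ), ∀ i, |Y i (vs m)| / 6 + ε m * |vs m 3| < 1 := by
    rw [eventually_all]
    intro i
    refine (t2 i).eventually (gt_mem_nhds ?_)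
    have := c2 i
    linarith
  have e3 : ∀ᶠ m in (U : Filter ℕ), |W (vs m)| / 6 + ε m * (27 / 50) < 1 :=
    t3.eventually (gt_mem_nhds (by linarith))
  have e4 : ∀ᶠ m in (U : Filter ℕ), |vs m 3| < 1 := h3.abs.eventually (gt_mem_nhds c4)
  have e5 : ∀ᶠ m in (U : Filter ℕ), vs m ≠ 0 := ht.eventually_ne hv0
  obtain ⟨m, ⟨⟨h1, h2⟩, h3, h4⟩, h5⟩ := (((e1.and e2).and (e3.and e4)).and e5).exists
  rcases hsep m (vs m) (hvs m) h5 with ⟨i, h⟩ | ⟨i, h⟩ | h | h
  · linarith [h1 i]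
  · linarith [h2 i]
  · linarith
  · linarith

/-- the closed condition with a tolerance -/
def Cl (x0 : Fin 4 → ℝ) (r : ℝ) (v : Fin 4 → ℝ) : Prop :=
  InP (1 + r) (x0 - v) ∧ |(x0 - v) 3| ≤ 1 / 2 + r

theorem small_X {w : Fin 4 → ℝ} {r : ℝ} (h : ∀ l, |w l| ≤ r) :
    (∀ i, |X i w| ≤ 6 * r) ∧ (∀ i, |Y i w| ≤ 8 * r) ∧ |W w| ≤ 6 * r := by
  have h0 := abs_le.1 (h 0)
  have h1 := abs_le.1 (h 1)
  have h2 := abs_le.1 (h 2)
  refine ⟨fun i => ?_, fun i => ?_, ?_⟩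
  · rw [abs_le]
    fin_cases i
    · show -(6 * r) ≤ X 0 w ∧ X 0 w ≤ 6 * r
      rw [X0]
      constructor <;> linarith [h0.1, h0.2, h1.1, h1.2, h2.1, h2.2]
    · show -(6 * r) ≤ X 1 w ∧ X 1 w ≤ 6 * r
      rw [X1]
      constructor <;> linarith [h0.1, h0.2, h1.1, h1.2, h2.1, h2.2]
    · show -(6 * r) ≤ X 2 w ∧ X 2 w ≤ 6 * r
      rw [X2]
      constructor <;> linarith [h0.1, h0.2, h1.1, h1.2, h2.1, h2.2]
  · rw [abs_le]
    fin_cases i
    · show -(8 * r) ≤ Y 0 w ∧ Y 0 w ≤ 8 * r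
      rw [Y0]
      constructor <;> linarith [h0.1, h0.2, h1.1, h1.2, h2.1, h2.2]
    · show -(8 * r) ≤ Y 1 w ∧ Y 1 w ≤ 8 * r
      rw [Y1]
      constructor <;> linarith [h0.1, h0.2, h1.1, h1.2, h2.1, h2.2]
    · show -(8 * r) ≤ Y 2 w ∧ Y 2 w ≤ 8 * r
      rw [Y2]
      constructor <;> linarith [h0.1, h0.2, h1.1, h1.2, h2.1, h2.2]
  · rw [abs_le, W']
    constructor <;> linarith [h0.1, h0.2, h1.1, h1.2, h2.1, h2.2]

theorem InP_coord {w : Fin 4 → ℝ} {r : ℝ} (h : InP r w) (l : Fin 4) (hl : l ≠ 3) :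
    |w l| ≤ r := by
  obtain ⟨h1, -, h3⟩ := h
  have a0 := abs_le.1 (h1 0)
  have a1 := abs_le.1 (h1 1)
  have a2 := abs_le.1 (h1 2)
  have a3 := abs_le.1 h3
  rw [X0] at a0
  rw [X1] at a1
  rw [X2] at a2
  rw [W'] at a3
  rw [abs_le]
  fin_cases l
  · show -r ≤ w 0 ∧ w 0 ≤ r
    constructor <;> linarith [a0.1, a0.2, a3.1, a3.2]
  · show -r ≤ w 1 ∧ w 1 ≤ r
    constructor <;> linarith [a1.1, a1.2, a3.1, a3.2]
  · show -r ≤ w 2 ∧ w 2 ≤ r
    constructor <;> linarith [a2.1, a2.2, a3.1, a3.2]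
  · exact absurd rfl hl

theorem Cl_of {x0 y v : Fin 4 → ℝ} {r : ℝ} (hy : ∀ l, |y l - x0 l| < r / 4)
    (h : InP 1 (y - v) ∧ |(y - v) 3| ≤ 1 / 2) : Cl x0 r v := by
  obtain ⟨⟨h1, h2, h3⟩, h4⟩ := h
  have hr : 0 < r := by
    have := (abs_nonneg _).trans_lt (hy 0)
    linarith
  have hw : ∀ l, |(x0 - y) l| ≤ r / 4 := by
    intro l
    rw [Pi.sub_apply, abs_sub_comm]
    exact (hy l).le
  obtain ⟨k1, k2, k3⟩ := small_X hw
  have e : x0 - v = (y - v) + (x0 - y) := by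
    abel
  refine ⟨⟨fun i => ?_, fun i => ?_, ?_⟩, ?_⟩
  · rw [e, X_add]
    refine (abs_add_le _ _).trans ?_
    linarith [h1 i, k1 i]
  · rw [e, Y_add]
    refine (abs_add_le _ _).trans ?_
    linarith [h2 i, k2 i]
  · rw [e, W_add]
    refine (abs_add_le _ _).trans ?_
    linarith
  · rw [e, Pi.add_apply]
    refine (abs_add_le _ _).trans ?_
    linarith [hw 3]

theorem Cl_bd {x0 v : Fin 4 → ℝ} {r : ℝ} (hr0 : 0 ≤ r) (hr : r < 1 / 4) (h : Cl x0 r v)
    (l : Fin 4) : |v l| ≤ |x0 l| + 2 := by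
  obtain ⟨h2, h3⟩ := h
  have e : |v l| ≤ |x0 l| + |(x0 - v) l| := by
    have := abs_sub (x0 l) ((x0 - v) l)
    have e2 : x0 l - (x0 - v) l = v l := by simp
    rwa [e2] at this
  by_cases hl : l = 3
  · subst hl
    linarith
  · have := InP_coord h2 l hl
    linarith

theorem Cl_closed (x0 v : Fin 4 → ℝ) : IsClosed {r : ℝ | Cl x0 r v} := by
  have e : {r : ℝ | Cl x0 r v} = ((⋂ i, {r : ℝ | |X i (x0 - v)| ≤ 2 * (1 + r)}) ∩
      ((⋂ i, {r : ℝ | |Y i (x0 - v)| ≤ 3 * (1 + r)}) ∩ {r : ℝ | |W (x0 - v)| ≤ 3 * (1 + r)})) ∩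
      {r : ℝ | |(x0 - v) 3| ≤ 1 / 2 + r} := by
    ext r
    simp only [Cl, InP, mem_inter_iff, mem_iInter, Set.mem_setOf_eq]
  rw [e]
  refine IsClosed.inter (IsClosed.inter ?_ (IsClosed.inter ?_ ?_)) ?_
  · exact isClosed_iInter fun i => isClosed_le continuous_const (by fun_prop)
  · exact isClosed_iInter fun i => isClosed_le continuous_const (by fun_prop)
  · exact isClosed_le continuous_const (by fun_prop)
  · exact isClosed_le continuous_const (by fun_prop)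

/-- the closed cell is closed -/
theorem InP_closed (r : ℝ) : IsClosed {v : Fin 4 → ℝ | InP r v} := by
  have e : {v : Fin 4 → ℝ | InP r v} = (⋂ i, {v | |X i v| ≤ 2 * r}) ∩
      ((⋂ i, {v | |Y i v| ≤ 3 * r}) ∩ {v | |W v| ≤ 3 * r}) := by
    ext v
    simp only [InP, mem_inter_iff, mem_iInter, Set.mem_setOf_eq]
  rw [e]
  refine IsClosed.inter ?_ (IsClosed.inter ?_ ?_)
  · exact isClosed_iInter fun i => isClosed_le (X_cont i).abs continuous_const
  · exact isClosed_iInter fun i => isClosed_le (Y_cont i).abs continuous_const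
  · exact isClosed_le W_cont.abs continuous_const

theorem Cr_meas (r : ℝ) : MeasurableSet (Cr r) :=
  (InP_closed r).measurableSet.inter (measurable_pi_apply 3 measurableSet_Ico)

theorem Cr_bdd {r : ℝ} (hr : r ≤ 1) : Cr r ⊆ Metric.closedBall 0 1 := by
  rintro x ⟨h1, h2⟩
  rw [mem_closedBall_zero_iff, pi_norm_le_iff_of_nonneg zero_le_one]
  intro l
  rw [Real.norm_eq_abs]
  by_cases hl : l = 3
  · subst hl
    rw [abs_le]
    constructor <;> linarith [h2.1, h2.2]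
  · exact (InP_coord h1 l hl).trans hr

/-- differences in the scaled cell are not separated -/
theorem Cr_sep {ε : ℝ} (hε : 0 < ε) {x y : Fin 4 → ℝ} (hx : x ∈ Cr (1 - ε))
    (hy : y ∈ Cr (1 - ε)) : ¬ Sep ε (x - y) := by
  obtain ⟨⟨a1, a2, a3⟩, a4⟩ := hx
  obtain ⟨⟨b1, b2, b3⟩, b4⟩ := hy
  have h3 : |(x - y) 3| < 1 := by
    rw [Pi.sub_apply, abs_lt]
    constructor <;> linarith [a4.1, a4.2, b4.1, b4.2]
  rintro (⟨i, h⟩ | ⟨i, h⟩ | h | h)
  · have h1 : |X i (x - y)| ≤ 4 * (1 - ε) := by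
      rw [X_sub]
      refine (abs_sub _ _).trans ?_
      linarith [a1 i, b1 i]
    have h2 := rw_le h3.le
    nlinarith
  · have h1 : |Y i (x - y)| ≤ 6 * (1 - ε) := by
      rw [Y_sub]
      refine (abs_sub _ _).trans ?_
      linarith [a2 i, b2 i]
    nlinarith
  · have h1 : |W (x - y)| ≤ 6 * (1 - ε) := by
      rw [W_sub]
      refine (abs_sub _ _).trans ?_
      linarith
    linarith
  · linarith

/-- the closed cells of the limit cover -/
theorem lim_cover {U : Ultrafilter ℕ} {ε : ℕ → ℝ} {Λ : ℕ → AddSubgroup (Fin 4 → ℝ)} {G : ℝ}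
    (hG : 0 ≤ G) (hε : ∀ m, 0 < ε m) (hεU : Tendsto ε U (𝓝 0))
    (hsep : ∀ m, ∀ v ∈ Λ m, v ≠ 0 → Sep (ε m) v)
    (hF : ∀ m, ∀ F : Set (Fin 4 → ℝ), MeasurableSet F → Bornology.IsBounded F →
      (∀ v ∈ Λ m, v ≠ 0 → Disjoint F (tr v F)) → volume F < ENNReal.ofReal (1 - G * ε m)) :
    ∀ x : Fin 4 → ℝ, ∃ v ∈ Lim U Λ, InP 1 (x - v) ∧ |(x - v) 3| ≤ 1 / 2 := by
  intro x0
  by_contra hno
  push Not at hno
  have hs := lim_sep hεU hsep
  -- step 1: the tolerance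
  set R : ℝ := (∑ l, |x0 l|) + 2 with hR
  have hfin := finite_box (Lim U Λ) hs R
  have htol : ∀ᶠ r in 𝓝 (0 : ℝ), ∀ v ∈ {v : Fin 4 → ℝ | v ∈ Lim U Λ ∧ ∀ l, |v l| ≤ R},
      ¬ Cl x0 r v := by
    rw [Filter.eventually_all_finite hfin]
    intro v hv
    have h1 := hno v hv.1
    have h2 : (0 : ℝ) ∉ {r : ℝ | Cl x0 r v} := by
      rintro ⟨h3, h4⟩
      rw [add_zero] at h3 h4
      exact absurd h4 (not_le.2 (h1 h3))
    exact (Cl_closed x0 v).isOpen_compl.mem_nhds h2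
  obtain ⟨r, hr0, hr1, hrt⟩ : ∃ r : ℝ, 0 < r ∧ r < 1 / 100 ∧
      ∀ v ∈ {v : Fin 4 → ℝ | v ∈ Lim U Λ ∧ ∀ l, |v l| ≤ R}, ¬ Cl x0 r v := by
    have h1 := htol.filter_mono (nhdsWithin_le_nhds (s := Ioi (0 : ℝ)))
    have h2 : ∀ᶠ r in 𝓝 (0 : ℝ), r < 1 / 100 := Iio_mem_nhds (by norm_num)
    have h2' := h2.filter_mono (nhdsWithin_le_nhds (s := Ioi (0 : ℝ)))
    have h3 : ∀ᶠ r in 𝓝[>] (0 : ℝ), 0 < r := self_mem_nhdsWithin
    obtain ⟨r, h⟩ := (h1.and (h2'.and h3)).exists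
    exact ⟨r, h.2.2, h.2.1, h.1⟩
  -- step 2: the small cube is not met by the tiles of `Λ m`
  have hclaim : ∀ᶠ m in (U : Filter ℕ), ∀ v ∈ Λ m, ∀ y : Fin 4 → ℝ,
      (∀ l, |y l - x0 l| < r / 4) → ¬ (InP 1 (y - v) ∧ |(y - v) 3| ≤ 1 / 2) := by
    by_contra hcon
    rw [← Ultrafilter.eventually_not] at hcon
    have hcon' : ∀ᶠ m in (U : Filter ℕ), ∃ v : Fin 4 → ℝ, v ∈ Λ m ∧ Cl x0 r v := by
      filter_upwards [hcon] with m hm
      push Not at hm
      obtain ⟨v, hv, y, hy, hvy⟩ := hm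
      exact ⟨v, hv, Cl_of hy hvy⟩
    classical
    let w : ℕ → Fin 4 → ℝ := fun m =>
      if h : ∃ v : Fin 4 → ℝ, v ∈ Λ m ∧ Cl x0 r v then h.choose else 0
    have hw : ∀ᶠ m in (U : Filter ℕ), w m ∈ Λ m ∧ Cl x0 r (w m) := by
      filter_upwards [hcon'] with m hm
      simp only [w, dif_pos hm]
      exact hm.choose_spec
    have hx0 : ∀ l, |x0 l| ≤ ∑ l, |x0 l| := fun l =>
      Finset.single_le_sum (f := fun l => |x0 l|) (fun i _ => abs_nonneg (x0 i))
        (Finset.mem_univ l)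
    have hbd : ∀ᶠ m in (U : Filter ℕ), w m ∈ Λ m ∧ ∀ l, |w m l| ≤ R := by
      filter_upwards [hw] with m hm
      refine ⟨hm.1, fun l => ?_⟩
      have h1 := Cl_bd hr0.le (by linarith) hm.2 l
      have h3 := hx0 l
      linarith
    obtain ⟨x, hx, hlim⟩ := L3 4 Λ U R w hbd
    have hc : ∀ l, Tendsto (fun m => w m l) U (𝓝 (x l)) :=
      fun l => (tendsto_pi_nhds.mp hlim) l
    have hxR : ∀ l, |x l| ≤ R := fun l =>
      le_of_tendsto (hc l).abs (hbd.mono (fun m hm => hm.2 l))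
    have hsub : Tendsto (fun m => x0 - w m) U (𝓝 (x0 - x)) := tendsto_const_nhds.sub hlim
    refine hrt x ⟨hx, hxR⟩ ⟨?_, ?_⟩
    · exact (InP_closed (1 + r)).mem_of_tendsto hsub (hw.mono fun m hm => hm.2.1)
    · exact le_of_tendsto ((tendsto_pi_nhds.mp hsub) 3).abs (hw.mono fun m hm => hm.2.2)
  -- step 3: choose `m`
  have hev : ∀ᶠ m in (U : Filter ℕ), ε m < 1 / 10 := hεU (Iio_mem_nhds (by norm_num))
  have hev2 : ∀ᶠ m in (U : Filter ℕ), 1 < (1 - ε m) ^ 3 + (r / 2) ^ 4 := by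
    have ht : Tendsto (fun m => (1 - ε m) ^ 3 + (r / 2) ^ 4) U
        (𝓝 ((1 - 0) ^ 3 + (r / 2) ^ 4)) :=
      ((tendsto_const_nhds.sub hεU).pow 3).add tendsto_const_nhds
    refine ht (Ioi_mem_nhds ?_)
    have h5 : 0 < (r / 2) ^ 4 := by positivity
    linarith
  obtain ⟨m, hm1, hm2, hm3⟩ := (hclaim.and (hev.and hev2)).exists
  have hεm := hε m
  set F := Cr (1 - ε m) with hFdef
  have hFQ : ∀ y ∈ F, InP 1 y ∧ |y 3| ≤ 1 / 2 := by
    rintro y ⟨⟨h1, h2, h3⟩, h4⟩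
    refine ⟨⟨fun i => ?_, fun i => ?_, ?_⟩, ?_⟩
    · linarith [h1 i]
    · linarith [h2 i]
    · linarith
    · rw [abs_le]
      constructor <;> linarith [h4.1, h4.2]
  set B : Set (Fin 4 → ℝ) := Set.pi univ (fun l => Ioo (x0 l - r / 4) (x0 l + r / 4)) with hB
  have hBm : ∀ y, y ∈ B → ∀ l, |y l - x0 l| < r / 4 := by
    intro y hy l
    have h := hy l (mem_univ l)
    rw [abs_lt]
    constructor <;> linarith [h.1, h.2]
  have hBmeas : MeasurableSet B := MeasurableSet.univ_pi (fun l => measurableSet_Ioo)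
  have hdisj : Disjoint F B := by
    rw [Set.disjoint_left]
    intro y hy hyB
    refine hm1 0 (Λ m).zero_mem y (hBm y hyB) ?_
    rw [sub_zero]
    exact hFQ y hy
  have hvol : ENNReal.ofReal (1 - G * ε m) ≤ volume (F ∪ B) := by
    rw [measure_union hdisj hBmeas]
    have h1 : ENNReal.ofReal ((1 - ε m) ^ 3) ≤ volume F := vol_Cr (by linarith)
    have h3 : ENNReal.ofReal ((r / 2) ^ 4) ≤ volume B := by
      rw [hB, Real.volume_pi_Ioo]
      have h4 : ∀ l : Fin 4, x0 l + r / 4 - (x0 l - r / 4) = r / 2 := fun l => by ring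
      simp only [h4, Finset.prod_const, Finset.card_univ, Fintype.card_fin]
      rw [ENNReal.ofReal_pow (by linarith)]
    have h5 : (0 : ℝ) ≤ (1 - ε m) ^ 3 := pow_nonneg (by linarith) _
    have h6 : (0 : ℝ) ≤ (r / 2) ^ 4 := by positivity
    have h7 : 0 ≤ G * ε m := by positivity
    calc ENNReal.ofReal (1 - G * ε m)
        ≤ ENNReal.ofReal ((1 - ε m) ^ 3 + (r / 2) ^ 4) :=
          ENNReal.ofReal_le_ofReal (by linarith)
      _ = ENNReal.ofReal ((1 - ε m) ^ 3) + ENNReal.ofReal ((r / 2) ^ 4) :=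
          ENNReal.ofReal_add h5 h6
      _ ≤ _ := add_le_add h1 h3
  refine absurd (hF m (F ∪ B) ((Cr_meas _).union hBmeas) ?_ ?_) (not_lt.mpr hvol)
  · -- bounded
    apply Bornology.IsBounded.union
    · exact Metric.isBounded_closedBall.subset (Cr_bdd (by linarith))
    · refine (Metric.isBounded_Icc (fun l => x0 l - r / 4) (fun l => x0 l + r / 4)).subset ?_
      intro y hy
      exact ⟨fun l => (hy l (mem_univ l)).1.le, fun l => (hy l (mem_univ l)).2.le⟩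
  · -- disjointness
    intro v hv hv0
    rw [Set.disjoint_left]
    rintro z hz ⟨y, hy, rfl⟩
    rcases hz with hz | hz
    · rcases hy with hy | hy
      · have h1 := Cr_sep hεm hz hy
        have e : (fun z => v + z) y - y = v := by
          show v + y - y = v
          abel
        rw [e] at h1
        exact h1 (hsep m v hv hv0)
      · refine hm1 (-v) ((Λ m).neg_mem hv) y (hBm y hy) ?_
        have e : y - -v = v + y := by rw [sub_neg_eq_add, add_comm y v]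
        rw [e]
        exact hFQ _ hz
    · rcases hy with hy | hy
      · refine hm1 v hv _ (hBm _ hz) ?_
        have e : v + y - v = y := by rw [add_sub_cancel_left]
        have e' : (fun z => v + z) y - v = y := e
        rw [e']
        exact hFQ _ hy
      · -- both in the small cube: then `v` is short
        have hvs : ∀ l, |v l| ≤ r / 2 := by
          intro l
          have h1 := abs_lt.mp (hBm _ hz l)
          have h2 := abs_lt.mp (hBm _ hy l)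
          simp only [Pi.add_apply] at h1
          rw [abs_le]
          constructor <;> linarith [h1.1, h1.2, h2.1, h2.2]
        obtain ⟨k1, k2, k3⟩ := small_X hvs
        have hv3 : |v 3| ≤ 1 := by linarith [hvs 3]
        rcases hsep m v hv hv0 with ⟨i, h⟩ | ⟨i, h⟩ | h | h
        · have h2 : ε m * rw' (v 3) ≤ 1 / 10 := by
            have := rw_le hv3
            have := rw_ge (v 3)
            nlinarith
          linarith [k1 i]
        · have h2 : ε m * |v 3| ≤ 1 / 10 := by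
            have := abs_nonneg (v 3)
            nlinarith
          linarith [k2 i]
        · linarith
        · linarith [hvs 3]

end Pool.Agent.H96.T4
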