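import Pool.Agent.H96.T4.Basic

/-!
# Dimension four (MP_c4753b_co): coverings and volumes
-/

set_option autoImplicit false

open MeasureTheory Filter Topology Set
open scoped ENNReal

namespace Pool.Agent.H96.T4

/-- a set whose integer translates cover has volume at least one -/
theorem cover_vol (C : Set (Fin 4 → ℝ))
    (hC : ∀ x : Fin 4 → ℝ, ∃ z : Fin 4 → ℤ, (fun i => x i - z i) ∈ C) : 1 ≤ volume C := by
  classical
  set b := Pi.basisFun ℝ (Fin 4) with hb
  have hfd := ZSpan.isAddFundamentalDomain' b (volume : Measure (Fin 4 → ℝ))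
  have hcount : Countable (Submodule.span ℤ (Set.range b)).toAddSubgroup := by
    change Countable (Submodule.span ℤ (Set.range b))
    infer_instance
  have hvol : volume (ZSpan.fundamentalDomain b) = 1 := by
    rw [ZSpan.volume_fundamentalDomain]
    have h1 : Matrix.of ⇑b = (1 : Matrix (Fin 4) (Fin 4) ℝ) := by
      ext i j
      rw [Matrix.of_apply, hb, Pi.basisFun_apply, Matrix.one_apply, Pi.single_apply]
      simp [eq_comm]
    rw [h1, Matrix.det_one]
    simp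
  rw [← hvol, hfd.measure_eq_tsum C]
  refine le_trans (measure_mono ?_) (measure_iUnion_le _)
  intro x hx
  obtain ⟨z, hz⟩ := hC x
  have hmem : (fun i => (z i : ℝ)) ∈ Submodule.span ℤ (Set.range b) := by
    rw [Module.Basis.mem_span_iff_repr_mem]
    intro i
    refine ⟨z i, ?_⟩
    simp [hb]
  rw [mem_iUnion]
  refine ⟨⟨fun i => (z i : ℝ), hmem⟩, ?_, hx⟩
  refine ⟨fun i => x i - z i, hz, ?_⟩
  show (fun i => (z i : ℝ)) + (fun i => x i - z i) = x
  funext i
  simp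

/-- the form `5 I - J` -/
def qf (a b c : ℝ) : ℝ := 5 * (a ^ 2 + b ^ 2 + c ^ 2) - (a + b + c) ^ 2

theorem qf_ge (a b c : ℝ) : 2 * (a ^ 2 + b ^ 2 + c ^ 2) ≤ qf a b c := by
  unfold qf
  nlinarith [sq_nonneg (a - b), sq_nonneg (a - c), sq_nonneg (b - c)]

/-- the minimiser -/
theorem qf_min (a b c : ℝ) : ∃ z : Fin 3 → ℤ, ∀ w : Fin 3 → ℤ,
    qf (a - z 0) (b - z 1) (c - z 2) ≤ qf (a - w 0) (b - w 1) (c - w 2) := by
  set M : ℝ := qf a b c + 1 with hM
  set S : Set (Fin 3 → ℤ) := {w | qf (a - w 0) (b - w 1) (c - w 2) ≤ qf a b c} with hS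
  have hM0 : 1 ≤ M := by
    have := qf_ge a b c
    nlinarith [sq_nonneg a, sq_nonneg b, sq_nonneg c]
  have hfin : S.Finite := by
    obtain ⟨N, hN⟩ := exists_nat_ge (|a| + |b| + |c| + M)
    refine (Set.finite_Icc (fun _ : Fin 3 => -(N : ℤ)) (fun _ => (N : ℤ))).subset ?_
    intro w hw
    have h1 : qf (a - w 0) (b - w 1) (c - w 2) ≤ qf a b c := hw
    have h2 := qf_ge (a - w 0) (b - w 1) (c - w 2)
    have hb : ∀ t s : ℝ, (t - s) ^ 2 ≤ qf a b c → |t| ≤ |a| + |b| + |c| →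
        -(N : ℝ) ≤ s ∧ s ≤ N := by
      intro t s hts ht
      have h3 : |t - s| ≤ M := by
        apply abs_le_of_sq_le_sq _ (by linarith)
        nlinarith
      have h4 := abs_le.1 h3
      have h5 := abs_le.1 ht
      constructor <;> linarith [h4.1, h4.2, h5.1, h5.2]
    have q0 := sq_nonneg (a - w 0)
    have q1 := sq_nonneg (b - w 1)
    have q2 := sq_nonneg (c - w 2)
    have g0 := hb a (w 0) (by linarith) (by linarith [abs_nonneg b, abs_nonneg c])
    have g1 := hb b (w 1) (by linarith) (by linarith [abs_nonneg a, abs_nonneg c])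
    have g2 := hb c (w 2) (by linarith) (by linarith [abs_nonneg a, abs_nonneg b])
    have g : ∀ i, -(N : ℤ) ≤ w i ∧ w i ≤ (N : ℤ) := by
      intro i
      fin_cases i
      · exact ⟨by exact_mod_cast g0.1, by exact_mod_cast g0.2⟩
      · exact ⟨by exact_mod_cast g1.1, by exact_mod_cast g1.2⟩
      · exact ⟨by exact_mod_cast g2.1, by exact_mod_cast g2.2⟩
    exact ⟨fun i => (g i).1, fun i => (g i).2⟩
  have hne : S.Nonempty := ⟨0, by
    show qf (a - ((0 : Fin 3 → ℤ) 0 : ℤ)) (b - ((0 : Fin 3 → ℤ) 1 : ℤ))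
      (c - ((0 : Fin 3 → ℤ) 2 : ℤ)) ≤ qf a b c
    simp⟩
  obtain ⟨z, hz, hmin⟩ := Set.exists_min_image S
    (fun w => qf (a - w 0) (b - w 1) (c - w 2)) hfin hne
  refine ⟨z, fun w => ?_⟩
  by_cases hw : w ∈ S
  · exact hmin w hw
  · have h1 : ¬ qf (a - w 0) (b - w 1) (c - w 2) ≤ qf a b c := hw
    have h2 : qf (a - z 0) (b - z 1) (c - z 2) ≤ qf a b c := hz
    linarith

/-- the integer translates of the cell cover -/
theorem cover (x : Fin 4 → ℝ) : ∃ z : Fin 4 → ℤ, InP 1 (fun i => x i - z i) := by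
  obtain ⟨z, hz⟩ := qf_min (x 0) (x 1) (x 2)
  refine ⟨![z 0, z 1, z 2, 0], ?_⟩
  have key : ∀ p q r : ℤ, qf (x 0 - z 0) (x 1 - z 1) (x 2 - z 2) ≤
      qf (x 0 - z 0 - p) (x 1 - z 1 - q) (x 2 - z 2 - r) := by
    intro p q r
    have := hz ![z 0 + p, z 1 + q, z 2 + r]
    simp only [Matrix.cons_val_zero, Matrix.cons_val_one, Matrix.cons_val] at this
    push_cast at this
    have e0 : x 0 - ((z 0 : ℝ) + p) = x 0 - z 0 - p := by ring
    have e1 : x 1 - ((z 1 : ℝ) + q) = x 1 - z 1 - q := by ring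
    have e2 : x 2 - ((z 2 : ℝ) + r) = x 2 - z 2 - r := by ring
    rw [e0, e1, e2] at this
    exact this
  set D : Fin 4 → ℝ := fun i => x i - ((![z 0, z 1, z 2, 0] : Fin 4 → ℤ) i : ℤ) with hD
  have d0 : D 0 = x 0 - z 0 := by simp [hD]
  have d1 : D 1 = x 1 - z 1 := by simp [hD]
  have d2 : D 2 = x 2 - z 2 := by simp [hD]
  rw [← d0, ← d1, ← d2] at key
  have k1 := key 1 0 0
  have k2 := key (-1) 0 0
  have k3 := key 0 1 0
  have k4 := key 0 (-1) 0
  have k5 := key 0 0 1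
  have k6 := key 0 0 (-1)
  have k7 := key 0 1 1
  have k8 := key 0 (-1) (-1)
  have k9 := key 1 0 1
  have k10 := key (-1) 0 (-1)
  have k11 := key 1 1 0
  have k12 := key (-1) (-1) 0
  have k13 := key 1 1 1
  have k14 := key (-1) (-1) (-1)
  unfold qf at k1 k2 k3 k4 k5 k6 k7 k8 k9 k10 k11 k12 k13 k14
  push_cast at k1 k2 k3 k4 k5 k6 k7 k8 k9 k10 k11 k12 k13 k14
  refine ⟨?_, ?_, ?_⟩
  · intro i
    rw [abs_le]
    fin_cases i
    · show -(2 * 1) ≤ X 0 D ∧ X 0 D ≤ 2 * 1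
      rw [X0]
      constructor <;> linarith
    · show -(2 * 1) ≤ X 1 D ∧ X 1 D ≤ 2 * 1
      rw [X1]
      constructor <;> linarith
    · show -(2 * 1) ≤ X 2 D ∧ X 2 D ≤ 2 * 1
      rw [X2]
      constructor <;> linarith
  · intro i
    rw [abs_le]
    fin_cases i
    · show -(3 * 1) ≤ Y 0 D ∧ Y 0 D ≤ 3 * 1
      rw [Y0]
      constructor <;> linarith
    · show -(3 * 1) ≤ Y 1 D ∧ Y 1 D ≤ 3 * 1
      rw [Y1]
      constructor <;> linarith
    · show -(3 * 1) ≤ Y 2 D ∧ Y 2 D ≤ 3 * 1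
      rw [Y2]
      constructor <;> linarith
  · rw [abs_le, W']
    constructor <;> linarith

/-- the scaled cell times an interval -/
def Cr (r : ℝ) : Set (Fin 4 → ℝ) := {v | InP r v ∧ v 3 ∈ Ico (-(1 / 2) : ℝ) (1 / 2)}

theorem vol_C1 : 1 ≤ volume (Cr 1) := by
  apply cover_vol
  intro x
  obtain ⟨z, hz⟩ := cover x
  refine ⟨fun i => if i = 3 then ⌊x 3 + 1 / 2⌋ else z i, ?_, ?_⟩
  · have e : InP 1 (fun i => x i - ((if i = 3 then ⌊x 3 + 1 / 2⌋ else z i : ℤ) : ℝ)) ↔
        InP 1 (fun i => x i - z i) := by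
      have hX : ∀ i : Fin 3, X i (fun i => x i - ((if i = 3 then ⌊x 3 + 1 / 2⌋ else z i : ℤ) : ℝ)) =
          X i (fun i => x i - z i) := by
        intro i
        fin_cases i
        · show X 0 _ = X 0 _
          rw [X0, X0]
          simp
        · show X 1 _ = X 1 _
          rw [X1, X1]
          simp
        · show X 2 _ = X 2 _
          rw [X2, X2]
          simp
      have hW : W (fun i => x i - ((if i = 3 then ⌊x 3 + 1 / 2⌋ else z i : ℤ) : ℝ)) =
          W (fun i => x i - z i) := by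
        rw [W_eq, W_eq, hX, hX, hX]
      unfold InP
      simp only [Y_eq, hX, hW]
    rw [e]
    exact hz
  · show x 3 - ((if (3 : Fin 4) = 3 then ⌊x 3 + 1 / 2⌋ else z 3 : ℤ) : ℝ) ∈ _
    rw [if_pos rfl]
    have h1 := Int.floor_le (x 3 + 1 / 2)
    have h2 := Int.lt_floor_add_one (x 3 + 1 / 2)
    constructor <;> linarith

theorem vol_Cr {r : ℝ} (hr : 0 < r) : ENNReal.ofReal (r ^ 3) ≤ volume (Cr r) := by
  set f : (Fin 4 → ℝ) →ₗ[ℝ] (Fin 4 → ℝ) := Matrix.toLin' (Matrix.diagonal ![r, r, r, 1]) with hf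
  have hfa : ∀ v k, f v k = ![r, r, r, 1] k * v k := by
    intro v k
    rw [hf, Matrix.toLin'_apply, Matrix.mulVec_diagonal]
  have hdet : LinearMap.det f = r ^ 3 := by
    rw [hf, LinearMap.det_toLin', Matrix.det_diagonal, Fin.prod_univ_four]
    simp only [Matrix.cons_val_zero, Matrix.cons_val_one, Matrix.cons_val]
    ring
  have f0 : ∀ v, f v 0 = r * v 0 := fun v => hfa v 0
  have f1 : ∀ v, f v 1 = r * v 1 := fun v => hfa v 1
  have f2 : ∀ v, f v 2 = r * v 2 := fun v => hfa v 2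
  have f3 : ∀ v, f v 3 = v 3 := fun v => by
    rw [hfa v 3]
    simp
  have hX : ∀ v i, X i (f v) = r * X i v := by
    intro v i
    fin_cases i
    · show X 0 (f v) = r * X 0 v
      rw [X0, X0, f0, f1, f2]
      ring
    · show X 1 (f v) = r * X 1 v
      rw [X1, X1, f0, f1, f2]
      ring
    · show X 2 (f v) = r * X 2 v
      rw [X2, X2, f0, f1, f2]
      ring
  have hW : ∀ v, W (f v) = r * W v := by
    intro v
    rw [W_eq, W_eq, hX, hX, hX]
    ring
  have hsub : f '' Cr 1 ⊆ Cr r := by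
    rintro _ ⟨v, ⟨⟨h1, h2, h3⟩, h4⟩, rfl⟩
    refine ⟨⟨?_, ?_, ?_⟩, ?_⟩
    · intro i
      rw [hX, abs_mul, abs_of_pos hr]
      nlinarith [h1 i]
    · intro i
      have := h2 i
      rw [Y_eq] at this
      rw [Y_eq, hX, hW, ← mul_sub, abs_mul, abs_of_pos hr]
      nlinarith
    · rw [hW, abs_mul, abs_of_pos hr]
      nlinarith
    · rw [f3]
      exact h4
  refine le_trans ?_ (measure_mono hsub)
  rw [MeasureTheory.Measure.addHaar_image_linearMap, hdet, abs_of_pos (by positivity)]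
  calc ENNReal.ofReal (r ^ 3) = ENNReal.ofReal (r ^ 3) * 1 := (mul_one _).symm
    _ ≤ _ := by gcongr; exact vol_C1

end Pool.Agent.H96.T4
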