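import Pool.Agent.H96.T4.Basic

/-!
# Dimension four (MP_c4753b_co): the linear inequality
-/

set_option autoImplicit false

open MeasureTheory Filter Topology Set
open scoped ENNReal

namespace Pool.Agent.H96.T4

theorem rw_mean {a : ℝ} (h0 : 0 ≤ a) (h1 : a ≤ 1) :
    (1 - a) * rw' a + a * rw' (1 - a) ≤ 13 / 25 := by
  have e1 : |a| = a := abs_of_nonneg h0
  have e2 : |1 - a| = 1 - a := abs_of_nonneg (by linarith)
  rcases le_total a (2 / 5) with h | h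
  · rw [rw_small (by rw [e1]; exact h), rw_big (by rw [e2]; linarith), e2]
    nlinarith [sq_nonneg (a - 3 / 10)]
  · rcases le_total a (3 / 5) with h' | h'
    · rw [rw_big (by rw [e1]; exact h), rw_big (by rw [e2]; linarith), e1, e2]
      nlinarith [sq_nonneg (a - 1 / 2)]
    · rw [rw_big (by rw [e1]; exact h), rw_small (by rw [e2]; linarith), e1]
      nlinarith [sq_nonneg (a - 7 / 10)]

theorem X_lower {a d h e : ℝ} (h0 : 0 ≤ a) (h1 : a < 1) (he : 0 ≤ e)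
    (c1 : -(4 * e * rw' a) ≤ d + a * h) (c2 : 0 < a → -(4 * e * rw' (1 - a)) ≤ d + (a - 1) * h) :
    -(52 / 25) * e ≤ d := by
  rcases h0.eq_or_lt with h2 | h2
  · rw [← h2, rw_small (by norm_num)] at c1
    linarith
  · have k1 := mul_le_mul_of_nonneg_left c1 (by linarith : (0 : ℝ) ≤ 1 - a)
    have k2 := mul_le_mul_of_nonneg_left (c2 h2) h0
    have k3 := mul_le_mul_of_nonneg_left (rw_mean h0 h1.le) (by linarith : (0 : ℝ) ≤ 4 * e)
    nlinarith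

theorem Y_lower {s D H e : ℝ} (h0 : 0 ≤ s) (h1 : s < 1)
    (c1 : -(6 * e * s) ≤ D + s * H) (c2 : 0 < s → -(6 * e * (1 - s)) ≤ D + (s - 1) * H) :
    -(12 * e * (s * (1 - s))) ≤ D := by
  rcases h0.eq_or_lt with h2 | h2
  · rw [← h2] at c1 ⊢
    linarith
  · have k1 := mul_le_mul_of_nonneg_left c1 (by linarith : (0 : ℝ) ≤ 1 - s)
    have k2 := mul_le_mul_of_nonneg_left (c2 h2) h0
    nlinarith

theorem Y_theta {s D H e t m : ℝ} (ht0 : 0 ≤ t) (ht1 : t ≤ 1) (hm : m = s - t)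
    (c1 : -(6 * e * s) ≤ D + s * H) (c2 : -(6 * e * (1 - s)) ≤ D + (s - 1) * H) :
    -(6 * e * (s + t * (1 - 2 * s))) ≤ D + m * H := by
  have k1 := mul_le_mul_of_nonneg_left c1 (by linarith : (0 : ℝ) ≤ 1 - t)
  have k2 := mul_le_mul_of_nonneg_left c2 ht0
  rw [hm]
  nlinarith

/-- the case of contacts near `1/4` -/
theorem L_case {b1 b2 b3 s1 s2 s3 d1 d2 d3 D1 D2 D3 h1 h2 h3 e : ℝ} (he : 0 ≤ e)
    (e1 : s1 = b2 + b3) (e2 : s2 = b1 + b3) (e3 : s3 = b1 + b2)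
    (l1 : 1 / 10 ≤ b1) (l2 : 1 / 10 ≤ b2) (l3 : 1 / 10 ≤ b3)
    (u1 : b1 ≤ 2 / 5) (u2 : b2 ≤ 2 / 5) (u3 : b3 ≤ 2 / 5)
    (v1 : 4 / 13 ≤ s1) (v2 : 4 / 13 ≤ s2) (v3 : 4 / 13 ≤ s3)
    (w1 : s1 ≤ 17 / 25) (w2 : s2 ≤ 17 / 25) (w3 : s3 ≤ 17 / 25)
    (c1 : -(48 / 25) * e ≤ d1 + b1 * h1) (c2 : -(48 / 25) * e ≤ d2 + b2 * h2)
    (c3 : -(48 / 25) * e ≤ d3 + b3 * h3)
    (k1 : -(6 * e * s1) ≤ D1 + s1 * (h2 + h3)) (k1' : -(6 * e * (1 - s1)) ≤ D1 + (s1 - 1) * (h2 + h3))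
    (k2 : -(6 * e * s2) ≤ D2 + s2 * (h1 + h3)) (k2' : -(6 * e * (1 - s2)) ≤ D2 + (s2 - 1) * (h1 + h3))
    (k3 : -(6 * e * s3) ≤ D3 + s3 * (h1 + h2)) (k3' : -(6 * e * (1 - s3)) ≤ D3 + (s3 - 1) * (h1 + h2)) :
    -(372 / 25) * e ≤ d1 + d2 + d3 + D1 + D2 + D3 := by
  have t1 := Y_theta (t := 3 / 2 * s1 - b1 / 2) (m := (b1 - b2 - b3) / 2) (by linarith)
    (by linarith) (by rw [e1]; ring) k1 k1'
  have t2 := Y_theta (t := 3 / 2 * s2 - b2 / 2) (m := (b2 - b1 - b3) / 2) (by linarith)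
    (by linarith) (by rw [e2]; ring) k2 k2'
  have t3 := Y_theta (t := 3 / 2 * s3 - b3 / 2) (m := (b3 - b1 - b2) / 2) (by linarith)
    (by linarith) (by rw [e3]; ring) k3 k3'
  have hp : (s1 + (3 / 2 * s1 - b1 / 2) * (1 - 2 * s1)) + (s2 + (3 / 2 * s2 - b2 / 2) * (1 - 2 * s2)) +
      (s3 + (3 / 2 * s3 - b3 / 2) * (1 - 2 * s3)) ≤ 38 / 25 := by
    rw [e1, e2, e3]
    nlinarith [sq_nonneg (b1 - b2), sq_nonneg (b1 - b3), sq_nonneg (b2 - b3),
      sq_nonneg (b1 + b2 + b3 - 27 / 40)]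
  have hq := mul_le_mul_of_nonneg_left hp (by linarith : (0 : ℝ) ≤ 6 * e)
  nlinarith

/-- the linear inequality -/
theorem L_lower {a1 a2 a3 n1 n2 n3 s1 s2 s3 d1 d2 d3 D1 D2 D3 h1 h2 h3 e : ℝ} (he : 0 ≤ e)
    (p1 : 0 ≤ a1) (p2 : 0 ≤ a2) (p3 : 0 ≤ a3) (q1 : a1 < 1) (q2 : a2 < 1) (q3 : a3 < 1)
    (hn1 : n1 = 0 ∨ n1 = 1) (hn2 : n2 = 0 ∨ n2 = 1) (hn3 : n3 = 0 ∨ n3 = 1)
    (e1 : s1 = a2 + a3 - n1) (e2 : s2 = a1 + a3 - n2) (e3 : s3 = a1 + a2 - n3)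
    (r1 : 0 ≤ s1) (r2 : 0 ≤ s2) (r3 : 0 ≤ s3) (t1 : s1 < 1) (t2 : s2 < 1) (t3 : s3 < 1)
    (c1 : -(4 * e * rw' a1) ≤ d1 + a1 * h1) (c1' : 0 < a1 → -(4 * e * rw' (1 - a1)) ≤ d1 + (a1 - 1) * h1)
    (c2 : -(4 * e * rw' a2) ≤ d2 + a2 * h2) (c2' : 0 < a2 → -(4 * e * rw' (1 - a2)) ≤ d2 + (a2 - 1) * h2)
    (c3 : -(4 * e * rw' a3) ≤ d3 + a3 * h3) (c3' : 0 < a3 → -(4 * e * rw' (1 - a3)) ≤ d3 + (a3 - 1) * h3)
    (k1 : -(6 * e * s1) ≤ D1 + s1 * (h2 + h3))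
    (k1' : 0 < s1 → -(6 * e * (1 - s1)) ≤ D1 + (s1 - 1) * (h2 + h3))
    (k2 : -(6 * e * s2) ≤ D2 + s2 * (h1 + h3))
    (k2' : 0 < s2 → -(6 * e * (1 - s2)) ≤ D2 + (s2 - 1) * (h1 + h3))
    (k3 : -(6 * e * s3) ≤ D3 + s3 * (h1 + h2))
    (k3' : 0 < s3 → -(6 * e * (1 - s3)) ≤ D3 + (s3 - 1) * (h1 + h2)) :
    -(372 / 25) * e ≤ d1 + d2 + d3 + D1 + D2 + D3 := by
  by_cases hQ : 3 / 100 ≤ (s1 - 1 / 2) ^ 2 + (s2 - 1 / 2) ^ 2 + (s3 - 1 / 2) ^ 2
  · have x1 := X_lower p1 q1 he c1 c1'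
    have x2 := X_lower p2 q2 he c2 c2'
    have x3 := X_lower p3 q3 he c3 c3'
    have y1 := Y_lower r1 t1 k1 k1'
    have y2 := Y_lower r2 t2 k2 k2'
    have y3 := Y_lower r3 t3 k3 k3'
    have hq := mul_le_mul_of_nonneg_left hQ (by linarith : (0 : ℝ) ≤ 12 * e)
    nlinarith
  · push Not at hQ
    have g1 : |(s1 - 1 / 2) + (s2 - 1 / 2) + (s3 - 1 / 2)| < 3 / 10 := by
      apply abs_lt_of_sq_lt_sq _ (by norm_num)
      nlinarith [sq_nonneg (s1 - s2), sq_nonneg (s1 - s3), sq_nonneg (s2 - s3)]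
    have g2 : |(s1 - 1 / 2) + (s2 - 1 / 2) - (s3 - 1 / 2)| < 3 / 10 := by
      apply abs_lt_of_sq_lt_sq _ (by norm_num)
      nlinarith [sq_nonneg (s1 - s2), sq_nonneg ((s1 - 1 / 2) + (s3 - 1 / 2)),
        sq_nonneg ((s2 - 1 / 2) + (s3 - 1 / 2))]
    have g3 : |(s1 - 1 / 2) - (s2 - 1 / 2) + (s3 - 1 / 2)| < 3 / 10 := by
      apply abs_lt_of_sq_lt_sq _ (by norm_num)
      nlinarith [sq_nonneg (s1 - s3), sq_nonneg ((s1 - 1 / 2) + (s2 - 1 / 2)),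
        sq_nonneg ((s2 - 1 / 2) + (s3 - 1 / 2))]
    have g4 : |-(s1 - 1 / 2) + (s2 - 1 / 2) + (s3 - 1 / 2)| < 3 / 10 := by
      apply abs_lt_of_sq_lt_sq _ (by norm_num)
      nlinarith [sq_nonneg (s2 - s3), sq_nonneg ((s1 - 1 / 2) + (s3 - 1 / 2)),
        sq_nonneg ((s1 - 1 / 2) + (s2 - 1 / 2))]
    have f1 : |s1 - 1 / 2| < 9 / 50 := by
      apply abs_lt_of_sq_lt_sq _ (by norm_num)
      nlinarith [sq_nonneg (s2 - 1 / 2), sq_nonneg (s3 - 1 / 2)]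
    have f2 : |s2 - 1 / 2| < 9 / 50 := by
      apply abs_lt_of_sq_lt_sq _ (by norm_num)
      nlinarith [sq_nonneg (s1 - 1 / 2), sq_nonneg (s3 - 1 / 2)]
    have f3 : |s3 - 1 / 2| < 9 / 50 := by
      apply abs_lt_of_sq_lt_sq _ (by norm_num)
      nlinarith [sq_nonneg (s1 - 1 / 2), sq_nonneg (s2 - 1 / 2)]
    rw [abs_lt] at g1 g2 g3 g4 f1 f2 f3
    obtain ⟨g1, g1'⟩ := g1
    obtain ⟨g2, g2'⟩ := g2
    obtain ⟨g3, g3'⟩ := g3
    obtain ⟨g4, g4'⟩ := g4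
    obtain ⟨f1, f1'⟩ := f1
    obtain ⟨f2, f2'⟩ := f2
    obtain ⟨f3, f3'⟩ := f3
    have j1 := k1' (by linarith)
    have j2 := k2' (by linarith)
    have j3 := k3' (by linarith)
    rcases hn1 with rfl | rfl <;> rcases hn2 with rfl | rfl <;> rcases hn3 with rfl | rfl
    · have o1 : a1 ≤ 2 / 5 := by linarith
      have o2 : a2 ≤ 2 / 5 := by linarith
      have o3 : a3 ≤ 2 / 5 := by linarith
      rw [rw_small (by rw [abs_of_nonneg p1]; exact o1)] at c1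
      rw [rw_small (by rw [abs_of_nonneg p2]; exact o2)] at c2
      rw [rw_small (by rw [abs_of_nonneg p3]; exact o3)] at c3
      exact L_case he (by linarith) (by linarith) (by linarith) (by linarith) (by linarith)
        (by linarith) o1 o2 o3 (by linarith) (by linarith) (by linarith) (by linarith)
        (by linarith) (by linarith) (by linarith) (by linarith) (by linarith) k1 j1 k2 j2 k3 j3
    · exfalso; linarith
    · exfalso; linarith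
    · exfalso; linarith
    · exfalso; linarith
    · exfalso; linarith
    · exfalso; linarith
    · have o1 : 1 - a1 ≤ 2 / 5 := by linarith
      have o2 : 1 - a2 ≤ 2 / 5 := by linarith
      have o3 : 1 - a3 ≤ 2 / 5 := by linarith
      have c1 := c1' (by linarith)
      have c2 := c2' (by linarith)
      have c3 := c3' (by linarith)
      rw [rw_small (by rw [abs_of_nonneg (by linarith)]; exact o1)] at c1
      rw [rw_small (by rw [abs_of_nonneg (by linarith)]; exact o2)] at c2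
      rw [rw_small (by rw [abs_of_nonneg (by linarith)]; exact o3)] at c3
      refine L_case (b1 := 1 - a1) (b2 := 1 - a2) (b3 := 1 - a3) (s1 := 1 - s1) (s2 := 1 - s2)
        (s3 := 1 - s3) (h1 := -h1) (h2 := -h2) (h3 := -h3) he (by linarith) (by linarith)
        (by linarith) (by linarith) (by linarith)
        (by linarith) o1 o2 o3 (by linarith) (by linarith) (by linarith) (by linarith)
        (by linarith) (by linarith) (by linarith) (by linarith) (by linarith)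
        (by linarith) (by linarith) (by linarith) (by linarith) (by linarith) (by linarith)

/-- the conclusion for the normalised limit -/
theorem L_zero {a1 a2 a3 n1 n2 n3 s1 s2 s3 d1 d2 d3 D1 D2 D3 h1 h2 h3 e : ℝ} (he : 0 ≤ e)
    (p1 : 0 ≤ a1) (p2 : 0 ≤ a2) (p3 : 0 ≤ a3) (q1 : a1 < 1) (q2 : a2 < 1) (q3 : a3 < 1)
    (hne : 0 < a1 ∨ 0 < a2 ∨ 0 < a3)
    (hn1 : n1 = 0 ∨ n1 = 1) (hn2 : n2 = 0 ∨ n2 = 1) (hn3 : n3 = 0 ∨ n3 = 1)
    (e1 : s1 = a2 + a3 - n1) (e2 : s2 = a1 + a3 - n2) (e3 : s3 = a1 + a2 - n3)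
    (r1 : 0 ≤ s1) (r2 : 0 ≤ s2) (r3 : 0 ≤ s3) (t1 : s1 < 1) (t2 : s2 < 1) (t3 : s3 < 1)
    (c1 : -(4 * e * rw' a1) ≤ d1 + a1 * h1) (c1' : 0 < a1 → -(4 * e * rw' (1 - a1)) ≤ d1 + (a1 - 1) * h1)
    (c2 : -(4 * e * rw' a2) ≤ d2 + a2 * h2) (c2' : 0 < a2 → -(4 * e * rw' (1 - a2)) ≤ d2 + (a2 - 1) * h2)
    (c3 : -(4 * e * rw' a3) ≤ d3 + a3 * h3) (c3' : 0 < a3 → -(4 * e * rw' (1 - a3)) ≤ d3 + (a3 - 1) * h3)
    (k1 : -(6 * e * s1) ≤ D1 + s1 * (h2 + h3))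
    (k1' : 0 < s1 → -(6 * e * (1 - s1)) ≤ D1 + (s1 - 1) * (h2 + h3))
    (k2 : -(6 * e * s2) ≤ D2 + s2 * (h1 + h3))
    (k2' : 0 < s2 → -(6 * e * (1 - s2)) ≤ D2 + (s2 - 1) * (h1 + h3))
    (k3 : -(6 * e * s3) ≤ D3 + s3 * (h1 + h2))
    (k3' : 0 < s3 → -(6 * e * (1 - s3)) ≤ D3 + (s3 - 1) * (h1 + h2))
    (hL : d1 + d2 + d3 + D1 + D2 + D3 ≤ -(149 / 10) * e) :
    e = 0 ∧ d1 = 0 ∧ d2 = 0 ∧ d3 = 0 ∧ D1 = 0 ∧ D2 = 0 ∧ D3 = 0 ∧ h1 = 0 ∧ h2 = 0 ∧ h3 = 0 := by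
  have h0 := L_lower he p1 p2 p3 q1 q2 q3 hn1 hn2 hn3 e1 e2 e3 r1 r2 r3 t1 t2 t3 c1 c1' c2 c2' c3 c3'
    k1 k1' k2 k2' k3 k3'
  have he0 : e = 0 := by linarith
  have x1 := X_lower p1 q1 he c1 c1'
  have x2 := X_lower p2 q2 he c2 c2'
  have x3 := X_lower p3 q3 he c3 c3'
  have y1 := Y_lower r1 t1 k1 k1'
  have y2 := Y_lower r2 t2 k2 k2'
  have y3 := Y_lower r3 t3 k3 k3'
  rw [he0] at x1 x2 x3 y1 y2 y3 hL c1 c1' c2 c2' c3 c3' k1 k1' k2 k2' k3 k3'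
  have z1 : d1 = 0 := by linarith
  have z2 : d2 = 0 := by linarith
  have z3 : d3 = 0 := by linarith
  have z4 : D1 = 0 := by linarith
  have z5 : D2 = 0 := by linarith
  have z6 : D3 = 0 := by linarith
  rw [z1] at c1 c1'
  rw [z2] at c2 c2'
  rw [z3] at c3 c3'
  rw [z4] at k1 k1'
  rw [z5] at k2 k2'
  rw [z6] at k3 k3'
  have key : ∀ a h : ℝ, 0 < a → a < 1 → 0 ≤ a * h → 0 ≤ (a - 1) * h → h = 0 := by
    intro a h g0 g1 g2 g3
    have u1 : 0 ≤ h := by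
      by_contra hc
      push Not at hc
      nlinarith
    have u2 : h ≤ 0 := by
      by_contra hc
      push Not at hc
      nlinarith
    linarith
  have m1 : 0 < a1 → h1 = 0 := fun h => key a1 h1 h q1 (by linarith) (by linarith [c1' h])
  have m2 : 0 < a2 → h2 = 0 := fun h => key a2 h2 h q2 (by linarith) (by linarith [c2' h])
  have m3 : 0 < a3 → h3 = 0 := fun h => key a3 h3 h q3 (by linarith) (by linarith [c3' h])
  have m4 : 0 < s1 → h2 + h3 = 0 := fun h => key s1 _ h t1 (by linarith) (by linarith [k1' h])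
  have m5 : 0 < s2 → h1 + h3 = 0 := fun h => key s2 _ h t2 (by linarith) (by linarith [k2' h])
  have m6 : 0 < s3 → h1 + h2 = 0 := fun h => key s3 _ h t3 (by linarith) (by linarith [k3' h])
  have w1 : h1 = 0 ∧ h2 = 0 ∧ h3 = 0 := by
    rcases p1.eq_or_lt with g1 | g1
    · rcases p2.eq_or_lt with g2 | g2
      · rcases p3.eq_or_lt with g3 | g3
        · exfalso
          rcases hne with h | h | h <;> linarith
        · have o3 := m3 g3
          have o1 : 0 < s1 := by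
            rcases hn1 with h | h
            · linarith
            · exfalso; linarith
          have o2 : 0 < s2 := by
            rcases hn2 with h | h
            · linarith
            · exfalso; linarith
          have := m4 o1
          have := m5 o2
          refine ⟨by linarith, by linarith, o3⟩
      · have o3 := m2 g2
        have o2 : 0 < s3 := by
          rcases hn3 with h | h
          · linarith
          · exfalso; linarith
        have := m6 o2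
        rcases p3.eq_or_lt with g3 | g3
        · have o1 : 0 < s1 := by
            rcases hn1 with h | h
            · linarith
            · exfalso; linarith
          have := m4 o1
          refine ⟨by linarith, o3, by linarith⟩
        · exact ⟨by linarith, o3, m3 g3⟩
    · have o3 := m1 g1
      refine ⟨o3, ?_, ?_⟩
      · rcases p2.eq_or_lt with g2 | g2
        · have o2 : 0 < s3 := by
            rcases hn3 with h | h
            · linarith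
            · exfalso; linarith
          have := m6 o2
          linarith
        · exact m2 g2
      · rcases p3.eq_or_lt with g2 | g2
        · have o2 : 0 < s2 := by
            rcases hn2 with h | h
            · linarith
            · exfalso; linarith
          have := m5 o2
          linarith
        · exact m3 g2
  exact ⟨he0, z1, z2, z3, z4, z5, z6, w1⟩

end Pool.Agent.H96.T4
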